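import Pool.Agent.W840.TP.BR
import Pool.Agent.H999R2.KSat.UN
import Pool.Agent.H999R2.KSat.AB

/-! # Projection along one variable -/

set_option autoImplicit false

namespace Pool.Agent.W840.TP

open Finset Filter Pool.Agent.H999R2.KSat

section generic

variable {X Ω : Type} [Fintype X]

/-- survival functional for the constraints `g x` -/
noncomputable def TT (g : X → Set Ω) (s : ℕ) (B : Set Ω) : ℝ :=
  E (fun W : Fin s → X => ∑ u ∈ range s, ind (∃ a ∈ B, ∀ l : Fin s, l.val < u → a ∈ g (W l)))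

theorem TT_zero (g : X → Set Ω) (B : Set Ω) : TT g 0 B = 0 := by
  unfold TT
  simp only [Finset.range_zero, Finset.sum_empty]
  exact E_zero

theorem TT_succ [Nonempty X] (g : X → Set Ω) (s : ℕ) (B : Set Ω) :
    TT g (s + 1) B = ind B.Nonempty + E (fun x : X => TT g s (B ∩ g x)) := by
  have h0 : ∀ W : Fin (s + 1) → X,
      ∑ u ∈ range (s + 1), ind (∃ a ∈ B, ∀ l : Fin (s + 1), l.val < u → a ∈ g (W l)) =
      ind B.Nonempty + ∑ u ∈ range s,
        ind (∃ a ∈ B, ∀ l : Fin (s + 1), l.val < u + 1 → a ∈ g (W l)) := by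
    intro W
    rw [Finset.sum_range_succ', add_comm]
    congr 1
    refine ind_congr ⟨?_, ?_⟩
    · rintro ⟨a, ha, _⟩
      exact ⟨a, ha⟩
    · rintro ⟨a, ha⟩
      exact ⟨a, ha, fun l hl => absurd hl (Nat.not_lt_zero _)⟩
  have h1 : TT g (s + 1) B = E (fun W : Fin (s + 1) → X => ind B.Nonempty + ∑ u ∈ range s,
        ind (∃ a ∈ B, ∀ l : Fin (s + 1), l.val < u + 1 → a ∈ g (W l))) := E_congr h0
  rw [h1, E_add, E_const, E_cons]
  congr 1
  refine E_congr fun x => ?_
  unfold TT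
  refine E_congr fun W => Finset.sum_congr rfl fun u _ => ind_congr ?_
  constructor
  · rintro ⟨a, ha, h⟩
    rw [Fin.forall_fin_succ] at h
    simp only [Fin.cons_zero, Fin.cons_succ] at h
    refine ⟨a, ⟨ha, h.1 (by simp)⟩, fun l hl => h.2 l ?_⟩
    rw [Fin.val_succ]
    omega
  · rintro ⟨a, ⟨ha, hx⟩, h⟩
    refine ⟨a, ha, ?_⟩
    rw [Fin.forall_fin_succ]
    simp only [Fin.cons_zero, Fin.cons_succ]
    refine ⟨fun _ => hx, fun l hl => h l ?_⟩
    rw [Fin.val_succ] at hl
    omega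

theorem TT_diff_mono [Nonempty X] (g : X → Set Ω) (s : ℕ) :
    ∀ B0 B1 : Set Ω, B1 ⊆ B0 →
      TT g s B0 - TT g s B1 ≤ TT g (s + 1) B0 - TT g (s + 1) B1 := by
  induction s with
  | zero =>
    intro B0 B1 h
    rw [TT_zero, TT_zero, TT_succ, TT_succ]
    simp only [TT_zero]
    have : ind B1.Nonempty ≤ ind B0.Nonempty := ind_mono fun h' => h'.mono h
    linarith
  | succ s ih =>
    intro B0 B1 h
    have e1 := TT_succ g s B0
    have e2 := TT_succ g s B1
    have e3 := TT_succ g (s + 1) B0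
    have e4 := TT_succ g (s + 1) B1
    have h2 : E (fun x : X => TT g s (B0 ∩ g x)) - E (fun x : X => TT g s (B1 ∩ g x)) ≤
        E (fun x : X => TT g (s + 1) (B0 ∩ g x)) - E (fun x : X => TT g (s + 1) (B1 ∩ g x)) := by
      rw [← E_sub, ← E_sub]
      exact E_mono fun x => ih _ _ (Set.inter_subset_inter_left _ h)
    linarith

end generic

/-- exact splitting of the average over clauses -/
theorem split_eq {n k : ℕ} (v : Fin (n + 1)) (h : Cl (n + 1) k → ℝ) (Y : ℝ) (hn : 0 < n)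
    (h0 : ∀ c, inv v c → h c = Y) :
    E h = (1 - ((n : ℝ) / ((n : ℝ) + 1)) ^ k) * Y +
      ((n : ℝ) / ((n : ℝ) + 1)) ^ k * E (fun c : Cl n k => h (clift v c)) := by
  classical
  have hne : Nonempty (Cl (n + 1) k) := ⟨fun _ => (0, true)⟩
  have hne' : Nonempty (Cl n k) := ⟨fun _ => (⟨0, hn⟩, true)⟩
  have e1 : E (fun c : Cl (n + 1) k => h c - Y) = E h - Y := by
    rw [E_sub, E_const]
  have e2 : E (fun c : Cl n k => h (clift v c) - Y) = E (fun c : Cl n k => h (clift v c)) - Y := by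
    rw [E_sub, E_const]
  have e4 : ∑ c : Cl (n + 1) k, (h c - Y) = ∑ c : Cl n k, (h (clift v c) - Y) := by
    rw [← Finset.sum_filter_add_sum_filter_not univ (fun c : Cl (n + 1) k => inv v c)]
    have e5 : ∑ c ∈ univ.filter (fun c : Cl (n + 1) k => inv v c), (h c - Y) = 0 := by
      refine Finset.sum_eq_zero fun c hc => ?_
      rw [h0 c (Finset.mem_filter.1 hc).2, sub_self]
    have e6 : ∑ c ∈ univ.filter (fun c : Cl (n + 1) k => ¬ inv v c), (h c - Y) =
        ∑ c : Cl n k, (h (clift v c) - Y) := by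
      have : univ.filter (fun c : Cl (n + 1) k => ¬ inv v c) =
          univ.image (clift v : Cl n k → Cl (n + 1) k) := by
        ext c
        simp only [Finset.mem_filter, Finset.mem_univ, true_and, Finset.mem_image]
        constructor
        · exact fun hc => exists_clift v c hc
        · rintro ⟨c', rfl⟩
          exact clift_ninv v c'
      rw [this, Finset.sum_image (fun x _ y _ hxy => clift_inj v hxy)]
    rw [e5, e6, zero_add]
  have c1 : (Fintype.card (Cl (n + 1) k) : ℝ) = (2 * ((n : ℝ) + 1)) ^ k := by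
    rw [Fintype.card_fun, Fintype.card_prod, Fintype.card_fin, Fintype.card_fin,
      Fintype.card_bool]
    push_cast
    ring
  have c2 : (Fintype.card (Cl n k) : ℝ) = (2 * (n : ℝ)) ^ k := by
    rw [Fintype.card_fun, Fintype.card_prod, Fintype.card_fin, Fintype.card_fin,
      Fintype.card_bool]
    push_cast
    ring
  have hn0 : (n : ℝ) ≠ 0 := by positivity
  have hn1 : (n : ℝ) + 1 ≠ 0 := by positivity
  have e7 : E (fun c : Cl (n + 1) k => h c - Y) =
      ((n : ℝ) / ((n : ℝ) + 1)) ^ k * E (fun c : Cl n k => h (clift v c) - Y) := by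
    unfold E
    rw [e4, c1, c2, mul_pow, mul_pow, div_pow]
    field_simp
  rw [e1, e2] at e7
  linarith

/-- survival functional of the probing clauses avoiding `v` -/
noncomputable def RV {n : ℕ} (s : ℕ) (v : Fin (n + 1)) (B : Set (Asg n)) : ℝ :=
  TT (fun c : Cl (n + 1) 2 => {a : Asg n | ¬ inv v c → sc (ext v true a) c}) s B

theorem RA_eq_TT {n : ℕ} (s : ℕ) (B : Set (Asg n)) :
    RA 2 s B = TT (fun c : Cl n 2 => {a : Asg n | sc a c}) s B := rfl

theorem time_change {n : ℕ} (v : Fin (n + 1)) (hn : 0 < n) (s : ℕ) :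
    ∀ B0 B1 : Set (Asg n), B1 ⊆ B0 →
      RV s v B0 - RV s v B1 ≤ (((n : ℝ) + 1) / n) ^ 2 * (RA 2 s B0 - RA 2 s B1) := by
  have hne : Nonempty (Cl (n + 1) 2) := ⟨fun _ => (0, true)⟩
  have hne' : Nonempty (Cl n 2) := ⟨fun _ => (⟨0, hn⟩, true)⟩
  have hn0 : (0 : ℝ) < (n : ℝ) := by exact_mod_cast hn
  have hn1 : (0 : ℝ) < (n : ℝ) + 1 := by positivity
  set q : ℝ := ((n : ℝ) / ((n : ℝ) + 1)) ^ 2 with hq
  have hq0 : 0 < q := by positivity
  have hq1 : q ≤ 1 := by
    rw [hq]
    apply pow_le_one₀ (by positivity)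
    rw [div_le_one hn1]; linarith
  have hqi : (((n : ℝ) + 1) / n) ^ 2 = 1 / q := by
    rw [hq]
    field_simp
  rw [hqi]
  induction s with
  | zero =>
    intro B0 B1 _
    rw [RA_eq_TT, RA_eq_TT, RV, RV, TT_zero, TT_zero, TT_zero, TT_zero]
    simp
  | succ s ih =>
    intro B0 B1 h
    have e1 := TT_succ (fun c : Cl (n + 1) 2 => {a : Asg n | ¬ inv v c → sc (ext v true a) c})
      s B0
    have e2 := TT_succ (fun c : Cl (n + 1) 2 => {a : Asg n | ¬ inv v c → sc (ext v true a) c})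
      s B1
    have e3 := TT_succ (fun c : Cl n 2 => {a : Asg n | sc a c}) s B0
    have e4 := TT_succ (fun c : Cl n 2 => {a : Asg n | sc a c}) s B1
    have hmono := TT_diff_mono (fun c : Cl n 2 => {a : Asg n | sc a c}) s B0 B1 h
    change RV (s + 1) v B0 = _ at e1
    change RV (s + 1) v B1 = _ at e2
    change RA 2 (s + 1) B0 = _ at e3
    change RA 2 (s + 1) B1 = _ at e4
    change RA 2 s B0 - RA 2 s B1 ≤ RA 2 (s + 1) B0 - RA 2 (s + 1) B1 at hmono
    have hsplit : E (fun c : Cl (n + 1) 2 =>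
        RV s v (B0 ∩ {a : Asg n | ¬ inv v c → sc (ext v true a) c}) -
        RV s v (B1 ∩ {a : Asg n | ¬ inv v c → sc (ext v true a) c})) =
        (1 - q) * (RV s v B0 - RV s v B1) + q * E (fun c : Cl n 2 =>
          RV s v (B0 ∩ {a : Asg n | sc a c}) - RV s v (B1 ∩ {a : Asg n | sc a c})) := by
      rw [split_eq v _ (RV s v B0 - RV s v B1) hn]
      · congr 2
        refine E_congr fun c => ?_
        have : {a : Asg n | ¬ inv v (clift v c) → sc (ext v true a) (clift v c)} =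
            {a | sc a c} := by
          ext a
          simp only [Set.mem_ofPred_eq, clift_sc]
          exact ⟨fun h => h (clift_ninv v c), fun h _ => h⟩
        rw [this]
      · intro c hc
        have : {a : Asg n | ¬ inv v c → sc (ext v true a) c} = Set.univ := by
          ext a
          simp only [Set.mem_ofPred_eq, Set.mem_univ, iff_true]
          exact fun h => absurd hc h
        rw [this, Set.inter_univ, Set.inter_univ]
    have h5 : RV (s + 1) v B0 - RV (s + 1) v B1 = (ind B0.Nonempty - ind B1.Nonempty) +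
        ((1 - q) * (RV s v B0 - RV s v B1) + q * E (fun c : Cl n 2 =>
          RV s v (B0 ∩ {a : Asg n | sc a c}) - RV s v (B1 ∩ {a : Asg n | sc a c}))) := by
      rw [← hsplit, E_sub, e1, e2]
      unfold RV
      ring
    have h6 : RA 2 (s + 1) B0 - RA 2 (s + 1) B1 = (ind B0.Nonempty - ind B1.Nonempty) +
        E (fun c : Cl n 2 =>
          RA 2 s (B0 ∩ {a : Asg n | sc a c}) - RA 2 s (B1 ∩ {a : Asg n | sc a c})) := by
      rw [E_sub, e3, e4]
      simp only [RA_eq_TT]
      ring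
    have h7 : RV s v B0 - RV s v B1 ≤ 1 / q * (RA 2 (s + 1) B0 - RA 2 (s + 1) B1) :=
      (ih B0 B1 h).trans (mul_le_mul_of_nonneg_left hmono (by positivity))
    have h8 : E (fun c : Cl n 2 =>
          RV s v (B0 ∩ {a : Asg n | sc a c}) - RV s v (B1 ∩ {a : Asg n | sc a c})) ≤
        1 / q * E (fun c : Cl n 2 =>
          RA 2 s (B0 ∩ {a : Asg n | sc a c}) - RA 2 s (B1 ∩ {a : Asg n | sc a c})) := by
      rw [← E_mul_left]
      exact E_mono fun c => ih _ _ (Set.inter_subset_inter_left _ h)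
    rw [h5]
    have h9 : (1 - q) * (RV s v B0 - RV s v B1) ≤
        (1 - q) * (1 / q * (RA 2 (s + 1) B0 - RA 2 (s + 1) B1)) :=
      mul_le_mul_of_nonneg_left h7 (by linarith)
    have h10 : q * E (fun c : Cl n 2 =>
          RV s v (B0 ∩ {a : Asg n | sc a c}) - RV s v (B1 ∩ {a : Asg n | sc a c})) ≤
        E (fun c : Cl n 2 =>
          RA 2 s (B0 ∩ {a : Asg n | sc a c}) - RA 2 s (B1 ∩ {a : Asg n | sc a c})) := by
      refine (mul_le_mul_of_nonneg_left h8 hq0.le).trans (le_of_eq ?_)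
      field_simp
    have h11 : (1 - q) * (1 / q * (RA 2 (s + 1) B0 - RA 2 (s + 1) B1)) +
        (RA 2 (s + 1) B0 - RA 2 (s + 1) B1) = 1 / q * (RA 2 (s + 1) B0 - RA 2 (s + 1) B1) := by
      field_simp
      ring
    linarith

theorem pj_upper {n s : ℕ} (v : Fin (n + 1)) (A : Set (Asg (n + 1))) (A0 : Set (Asg n))
    (h0 : ∀ a ∈ A, (fun i => a (v.succAbove i)) ∈ A0) : RA 2 s A ≤ RV s v A0 := by
  unfold RA RV TT
  refine E_mono fun W => Finset.sum_le_sum fun u _ => ind_mono ?_
  rintro ⟨a, ha, h⟩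
  refine ⟨_, h0 a ha, fun l hl => ?_⟩
  simp only [Set.mem_ofPred_eq]
  intro hi
  refine sc_avoid v (W l) hi a _ (fun i => ?_) (h l hl)
  rw [ext_apply]

theorem pj_lower {n s : ℕ} (v : Fin (n + 1)) (b : Bool) (A : Set (Asg (n + 1)))
    (A1 : Set (Asg n)) (h1 : ∀ a ∈ A1, ext v b a ∈ A) :
    RV s v A1 ≤ RA 2 s (A ∩ {a | a v = b}) + be 2 s v b A := by
  unfold RA RV TT be
  rw [← E_add]
  refine E_mono fun W => ?_
  rw [← Finset.sum_add_distrib]
  refine Finset.sum_le_sum fun u _ => ?_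
  have hB : 0 ≤ ∑ l0 : Fin s, ind (l0.val < u ∧ kl v b (QW v b A l0 W u) (W l0)) :=
    Finset.sum_nonneg (fun j _ => ind_nonneg _)
  by_cases hQ : ∃ a ∈ A ∩ {a | a v = b}, ∀ l : Fin s, l.val < u → sc a (W l)
  · rw [ind_true hQ]
    have := ind_le_one (∃ a ∈ A1, ∀ l : Fin s, l.val < u →
      a ∈ {a : Asg n | ¬ inv v (W l) → sc (ext v true a) (W l)})
    linarith
  · by_cases hP : ∃ a ∈ A1, ∀ l : Fin s, l.val < u →
      a ∈ {a : Asg n | ¬ inv v (W l) → sc (ext v true a) (W l)}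
    · rw [ind_true hP, ind_false hQ]
      obtain ⟨a, ha, haW⟩ := hP
      obtain ⟨l0, hl0, hkl⟩ := un_general v b W (fun l => l.val < u)
          {a | a ∈ A ∧ a v = b} (fun a ha => ha.2)
          ⟨ext v b a, ⟨h1 a ha, ext_self v b a⟩, fun l hl hi => by
            refine sc_avoid v (W l) hi (ext v true a) _ (fun i => ?_) (haW l hl hi)
            rw [ext_apply, ext_apply]⟩
          (by
            rintro ⟨a, ⟨h1, h2⟩, h3⟩
            exact hQ ⟨a, ⟨h1, h2⟩, h3⟩)
      have hset : {a | a ∈ {a | a ∈ A ∧ a v = b} ∧ ∀ j', (fun l : Fin s => l.val < u) j' →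
            j' ≠ l0 → (j' < l0 ∨ ¬ inv v (W j')) → sc a (W j')} = QW v b A l0 W u := by
          ext a
          constructor
          · rintro ⟨⟨h1, h2⟩, h3⟩
            exact ⟨h1, h2, fun l hl hne ho => h3 l hl hne ho⟩
          · rintro ⟨h1, h2, h3⟩
            exact ⟨⟨h1, h2⟩, fun l hl hne ho => h3 l hl hne ho⟩
      rw [hset] at hkl
      have h1 : (1 : ℝ) ≤
            ∑ l0 : Fin s, ind (l0.val < u ∧ kl v b (QW v b A l0 W u) (W l0)) := by
          calc (1 : ℝ) = ind (l0.val < u ∧ kl v b (QW v b A l0 W u) (W l0)) :=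
                (ind_true ⟨hl0, hkl⟩).symm
            _ ≤ _ := Finset.single_le_sum
                (f := fun l0 : Fin s => ind (l0.val < u ∧ kl v b (QW v b A l0 W u) (W l0)))
                (fun j _ => ind_nonneg _) (Finset.mem_univ l0)
      linarith
    · rw [ind_false hP, ind_false hQ]
      linarith

theorem pj : S_PJ := by
  intro n s T v b A A0 A1 hn hT hTn h0 h1
  have hsub : A1 ⊆ A0 := by
    intro a ha
    have := h0 _ (h1 a ha)
    have e : (fun i => ext v b a (v.succAbove i)) = a := by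
      funext i
      exact ext_apply v b a i
    rwa [e] at this
  have e1 := pj_upper (s := s) v A A0 h0
  have e2 := pj_lower (s := s) v b A A1 h1
  have e3 := time_change v hn s A0 A1 hsub
  have e4 := be_le 1 s T (Nat.succ_pos n) hT hTn v b A
  have e5 : (s : ℝ) * (((1 : ℕ) : ℝ) + 1) / (2 * ((n + 1 : ℕ) : ℝ)) * KK 1 s T =
      s * (1 / ((n : ℝ) + 1) * KK 1 s T) := by
    push_cast
    field_simp
    ring
  have e6 : (s : ℝ) * ((((1 : ℕ) : ℝ) + 1) / (2 * ((n + 1 : ℕ) : ℝ)) * KK 1 s T) =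
      s * (1 / ((n : ℝ) + 1) * KK 1 s T) := by
    rw [← e5]; ring
  rw [e6] at e4
  unfold DD
  simp only
  linarith

end Pool.Agent.W840.TP
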