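import Pool.Agent.W840.TP.BR

/-! # The literals forced by a random 2-CNF formula, induction over the clauses -/

set_option autoImplicit false

namespace Pool.Agent.W840.TP

open Finset Filter Pool.Agent.H999R2.KSat

theorem mem_un {n M : ℕ} (v : Fin (n + 1)) (b : Bool) (G : Fin M → Cl (n + 1) 2) (y : Lit n) :
    y ∈ un v b G ↔ ∃ j, isU v b y (G j) := by
  simp only [un, Finset.mem_filter, Finset.mem_univ, true_and]

theorem isU_unique {n : ℕ} (v : Fin (n + 1)) (b : Bool) (y y' : Lit n) (c : Cl (n + 1) 2)
    (h : isU v b y c) (h' : isU v b y' c) : y = y' := by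
  have hne : ∀ z : Lit n, lif v z ≠ (v, !b) := by
    intro z hz
    have := congrArg Prod.fst hz
    exact Fin.succAbove_ne v _ this
  rcases h with ⟨h1, h2⟩ | ⟨h1, h2⟩ <;> rcases h' with ⟨h3, h4⟩ | ⟨h3, h4⟩
  · exact lif_inj v (h2.symm.trans h4)
  · exact absurd (h2.symm.trans h3) (hne y)
  · exact absurd (h2.symm.trans h3) (hne y)
  · exact lif_inj v (h2.symm.trans h4)

theorem un_cons_isU {n M : ℕ} (v : Fin (n + 1)) (b : Bool) (c : Cl (n + 1) 2)
    (G : Fin M → Cl (n + 1) 2) (y : Lit n) (h : isU v b y c) :
    un v b (Fin.cons c G : Fin (M + 1) → Cl (n + 1) 2) = insert y (un v b G) := by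
  ext z
  rw [mem_insert, mem_un, mem_un, Fin.exists_fin_succ]
  simp only [Fin.cons_zero, Fin.cons_succ]
  constructor
  · rintro (h' | h')
    · exact Or.inl (isU_unique v b z y c h' h)
    · exact Or.inr h'
  · rintro (h' | h')
    · exact Or.inl (h' ▸ h)
    · exact Or.inr h'

theorem un_cons_not {n M : ℕ} (v : Fin (n + 1)) (b : Bool) (c : Cl (n + 1) 2)
    (G : Fin M → Cl (n + 1) 2) (h : ¬ ∃ y, isU v b y c) :
    un v b (Fin.cons c G : Fin (M + 1) → Cl (n + 1) 2) = un v b G := by
  ext z
  rw [mem_un, mem_un, Fin.exists_fin_succ]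
  simp only [Fin.cons_zero, Fin.cons_succ]
  constructor
  · rintro (h' | h')
    · exact absurd ⟨z, h'⟩ h
    · exact h'
  · exact fun h' => Or.inr h'

theorem sg_image_cons {n d : ℕ} (w : Lit n) (v : Fin d → Lit n) (S : Finset (Lit n)) :
    univ.image (Fin.cons w v : Fin (d + 1) → Lit n) ∪ S = univ.image v ∪ insert w S := by
  ext x
  simp only [mem_union, mem_image, mem_univ, true_and, mem_insert]
  rw [Fin.exists_fin_succ]
  simp only [Fin.cons_zero, Fin.cons_succ]
  constructor
  · rintro ((h | h) | h)
    · exact Or.inr (Or.inl h.symm)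
    · exact Or.inl h
    · exact Or.inr (Or.inr h)
  · rintro (h | h | h)
    · exact Or.inl (Or.inr h)
    · exact Or.inl (Or.inl h.symm)
    · exact Or.inr h

theorem base_zero {n k : ℕ} (v : Fin (n + 1)) (G : Fin 0 → Cl (n + 1) k) (B : Set (Asg n)) :
    B ∩ base v G = B := by
  ext a
  simp only [base, Set.mem_inter_iff, Set.mem_ofPred_eq]
  exact ⟨fun h => h.1, fun h => ⟨h, fun j => j.elim0⟩⟩

theorem un_zero {n : ℕ} (v : Fin (n + 1)) (b : Bool) (G : Fin 0 → Cl (n + 1) 2) :
    un v b G = ∅ := by
  ext w
  rw [mem_un]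
  constructor
  · rintro ⟨j, _⟩
    exact j.elim0
  · intro h
    simp at h

theorem us_insert {n : ℕ} (l : Lit n) (S : Finset (Lit n)) :
    us (insert l S) = us S ∩ {a | a l.1 = l.2} := by
  ext a
  simp only [us, Set.mem_ofPred_eq, Set.mem_inter_iff, mem_insert]
  constructor
  · intro h
    exact ⟨fun l' hl' => h l' (Or.inr hl'), h l (Or.inl rfl)⟩
  · rintro ⟨h1, h2⟩ l' (rfl | h')
    · exact h2
    · exact h1 l' h'

theorem us_empty {n : ℕ} : (us (∅ : Finset (Lit n)) : Set (Asg n)) = Set.univ := by
  ext a
  simp [us]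

theorem us_singleton {n : ℕ} (l : Lit n) : us {l} = {a : Asg n | a l.1 = l.2} := by
  ext a
  simp [us]

theorem sum_lit {n : ℕ} (hn : 0 < n) (g : Lit n → ℝ) : ∑ y, g y = 2 * (n : ℝ) * E g := by
  unfold E
  have hcard : (Fintype.card (Lit n) : ℝ) = 2 * (n : ℝ) := by
    rw [Fintype.card_prod, Fintype.card_fin, Fintype.card_bool]
    push_cast; ring
  rw [hcard]
  have hn0 : (n : ℝ) ≠ 0 := by positivity
  field_simp

theorem LL_pos (s : ℕ) : 0 < LL s := by
  unfold LL
  positivity

theorem sg_of (hSP : S_SP) (hUB : S_UB) : S_SG := by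
  intro n s M d lam θ v b B hn hlam hθ0 hθ1
  have hne : Nonempty (Lit n) := ⟨(⟨0, hn⟩, true)⟩
  have hn1 : (0 : ℝ) < (n : ℝ) + 1 := by positivity
  have hL := LL_pos s
  induction M generalizing d B with
  | zero =>
    have h1 := hSP (Lit n) (fun S => RA 2 s (B ∩ us S)) (LL s) lam θ hL hlam hθ0 hθ1
      (fun S T h => RA_mono 2 s (Set.inter_subset_inter_right B
        (fun a ha l hl => ha l (h hl))))
      (fun S => by
        refine le_trans (le_of_eq ?_) (hUB n s (B ∩ us S) hn)
        refine E_congr fun l => ?_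
        unfold DD
        rw [us_insert, Set.inter_assoc]) d
    rw [pow_zero, mul_one]
    refine le_trans (E_mono fun y => ?_) h1
    refine E_le_of_nonneg (ind_nonneg _) fun G => ?_
    rw [base_zero, un_zero, union_empty]
    refine ind_mono fun h => ?_
    obtain ⟨h2, h3⟩ := h
    refine ⟨?_, ?_⟩
    · rw [us_empty, Set.inter_univ]
      exact h2
    · intro j
      rw [us_empty, Set.inter_univ, us_singleton]
      exact h3 (y j) (mem_image_of_mem y (mem_univ j))
  | succ M ih =>
    set bd : ℕ → ℝ := fun d => 200 * 8 ^ d * (1 + 8 / ((n : ℝ) + 1)) ^ M *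
      (LL s / (θ * lam)) ^ 2 with hbd
    have hbd0 : ∀ d, 0 ≤ bd d := by
      intro d
      rw [hbd]
      positivity
    -- pointwise
    have hpt : ∀ (y : Fin d → Lit n) (c : Cl (n + 1) 2) (G : Fin M → Cl (n + 1) 2),
        ind (Bad s lam θ (B ∩ base v (Fin.cons c G : Fin (M + 1) → Cl (n + 1) 2))
          (univ.image y ∪ un v b (Fin.cons c G : Fin (M + 1) → Cl (n + 1) 2))) ≤
        ind (Bad s lam θ ((B ∩ {a | ¬ inv v c → sc (ext v true a) c}) ∩ base v G)
          (univ.image y ∪ un v b G)) +
        ∑ z : Lit n, ind (isU v b z c) *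
          ind (Bad s lam θ (B ∩ base v G) (univ.image y ∪ insert z (un v b G))) := by
      intro y c G
      have hsum : 0 ≤ ∑ z : Lit n, ind (isU v b z c) *
          ind (Bad s lam θ (B ∩ base v G) (univ.image y ∪ insert z (un v b G))) :=
        Finset.sum_nonneg fun z _ => mul_nonneg (ind_nonneg _) (ind_nonneg _)
      by_cases hu : ∃ z, isU v b z c
      · obtain ⟨z, hz⟩ := hu
        rw [base_cons_inv v c G (isU_inv v b z c hz), un_cons_isU v b c G z hz]
        have h1 : ind (Bad s lam θ (B ∩ base v G) (univ.image y ∪ insert z (un v b G))) ≤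
            ∑ z : Lit n, ind (isU v b z c) *
          ind (Bad s lam θ (B ∩ base v G) (univ.image y ∪ insert z (un v b G))) := by
          refine le_trans (le_of_eq ?_) (Finset.single_le_sum (f := fun z : Lit n =>
            ind (isU v b z c) *
            ind (Bad s lam θ (B ∩ base v G) (univ.image y ∪ insert z (un v b G))))
            (fun z _ => mul_nonneg (ind_nonneg _) (ind_nonneg _)) (Finset.mem_univ z))
          rw [ind_true hz, one_mul]
        have h2 := ind_nonneg (Bad s lam θ ((B ∩ {a | ¬ inv v c → sc (ext v true a) c}) ∩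
          base v G) (univ.image y ∪ un v b G))
        linarith
      · rw [un_cons_not v b c G hu]
        have h3 : B ∩ base v (Fin.cons c G : Fin (M + 1) → Cl (n + 1) 2) =
            (B ∩ {a | ¬ inv v c → sc (ext v true a) c}) ∩ base v G := by
          by_cases hc : inv v c
          · rw [base_cons_inv v c G hc]
            have e1 : B ∩ {a | ¬ inv v c → sc (ext v true a) c} = B := by
              ext a
              simp only [Set.mem_inter_iff, Set.mem_ofPred_eq, and_iff_left_iff_imp]
              exact fun _ h => absurd hc h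
            rw [e1]
          · rw [base_cons_ninv v c G hc]
            have e1 : {a : Asg n | ¬ inv v c → sc (ext v true a) c} =
                {a | sc (ext v true a) c} := by
              ext a
              simp only [Set.mem_ofPred_eq]
              exact ⟨fun h => h hc, fun h _ => h⟩
            rw [e1, ← Set.inter_assoc]
        rw [h3]
        linarith
    -- first part
    have hfirst : E (fun y : Fin d → Lit n => E (fun c : Cl (n + 1) 2 =>
        E (fun G : Fin M → Cl (n + 1) 2 =>
        ind (Bad s lam θ ((B ∩ {a | ¬ inv v c → sc (ext v true a) c}) ∩ base v G)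
          (univ.image y ∪ un v b G))))) ≤ bd d := by
      rw [E_comm]
      exact E_le_of_nonneg (hbd0 d) fun c => ih d _
    -- second part
    have hsecond : E (fun y : Fin d → Lit n => E (fun c : Cl (n + 1) 2 =>
        E (fun G : Fin M → Cl (n + 1) 2 => ∑ z : Lit n, ind (isU v b z c) *
          ind (Bad s lam θ (B ∩ base v G) (univ.image y ∪ insert z (un v b G)))))) ≤
        8 / ((n : ℝ) + 1) * bd d := by
      set g : (Fin d → Lit n) → Lit n → ℝ := fun y z => E (fun G : Fin M → Cl (n + 1) 2 =>
        ind (Bad s lam θ (B ∩ base v G) (univ.image y ∪ insert z (un v b G)))) with hg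
      have hg0 : ∀ y z, 0 ≤ g y z := fun y z => E_nonneg fun G => ind_nonneg _
      have h1 : ∀ y : Fin d → Lit n, E (fun c : Cl (n + 1) 2 =>
        E (fun G : Fin M → Cl (n + 1) 2 => ∑ z : Lit n, ind (isU v b z c) *
          ind (Bad s lam θ (B ∩ base v G) (univ.image y ∪ insert z (un v b G))))) ≤
          1 / ((n : ℝ) + 1) * E (g y) := by
        intro y
        have e1 : E (fun c : Cl (n + 1) 2 =>
            E (fun G : Fin M → Cl (n + 1) 2 => ∑ z : Lit n, ind (isU v b z c) *
            ind (Bad s lam θ (B ∩ base v G) (univ.image y ∪ insert z (un v b G))))) =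
            ∑ z : Lit n, E (fun c : Cl (n + 1) 2 => ind (isU v b z c)) * g y z := by
          have : ∀ z : Lit n, E (fun c : Cl (n + 1) 2 => ind (isU v b z c)) * g y z =
              E (fun c : Cl (n + 1) 2 => ind (isU v b z c) * g y z) := fun z =>
            (E_mul_right _ _).symm
          rw [Finset.sum_congr rfl fun z _ => this z, ← E_sum]
          refine E_congr fun c => ?_
          rw [E_sum]
          refine Finset.sum_congr rfl fun z _ => ?_
          rw [E_mul_left]
        rw [e1]
        have e2 : ∑ z : Lit n, E (fun c : Cl (n + 1) 2 => ind (isU v b z c)) * g y z ≤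
            ∑ z : Lit n, 2 * (1 / (2 * ((n : ℝ) + 1))) ^ 2 * g y z :=
          Finset.sum_le_sum fun z _ => mul_le_mul_of_nonneg_right (isU_mean v b z) (hg0 y z)
        refine e2.trans ?_
        rw [← Finset.mul_sum, sum_lit hn]
        have hE : 0 ≤ E (g y) := E_nonneg fun z => hg0 y z
        have e8 : 2 * (1 / (2 * ((n : ℝ) + 1))) ^ 2 * (2 * (n : ℝ) * E (g y)) =
            (n : ℝ) / ((n : ℝ) + 1) * (1 / ((n : ℝ) + 1) * E (g y)) := by
          field_simp
        rw [e8]
        have e9 : (n : ℝ) / ((n : ℝ) + 1) ≤ 1 := by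
          rw [div_le_one hn1]; linarith
        exact mul_le_of_le_one_left (by positivity) e9
      refine (E_mono h1).trans ?_
      rw [E_mul_left]
      have h2 : E (fun y : Fin d → Lit n => E (g y)) ≤ bd (d + 1) := by
        have h3 := ih (d + 1) B
        rw [E_cons] at h3
        rw [E_comm]
        refine le_trans (le_of_eq ?_) h3
        refine E_congr fun w => E_congr fun y => ?_
        refine E_congr fun G => ?_
        rw [sg_image_cons]
      calc 1 / ((n : ℝ) + 1) * E (fun y : Fin d → Lit n => E (g y)) ≤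
          1 / ((n : ℝ) + 1) * bd (d + 1) := mul_le_mul_of_nonneg_left h2 (by positivity)
        _ = 8 / ((n : ℝ) + 1) * bd d := by
            rw [hbd]
            simp only
            rw [pow_succ]
            ring
    -- total
    have htot : E (fun y : Fin d → Lit n => E (fun G : Fin (M + 1) → Cl (n + 1) 2 =>
        ind (Bad s lam θ (B ∩ base v G) (univ.image y ∪ un v b G)))) ≤
        bd d + 8 / ((n : ℝ) + 1) * bd d := by
      refine le_trans ?_ (add_le_add hfirst hsecond)
      rw [← E_add]
      refine E_mono fun y => ?_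
      rw [E_cons, ← E_add]
      refine E_mono fun c => ?_
      rw [← E_add]
      exact E_mono fun G => hpt y c G
    refine htot.trans (le_of_eq ?_)
    rw [hbd]
    simp only
    rw [pow_succ (1 + 8 / ((n : ℝ) + 1)) M]
    ring

end Pool.Agent.W840.TP
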