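import Pool.Agent.W840.TP.Defs
import Pool.Agent.H320R2.CT.B2

/-! # A random set has a large loss without a single large loss only rarely -/

set_option autoImplicit false

namespace Pool.Agent.W840.TP

open Finset Pool.Agent.H999R2.KSat Pool.Agent.H320R2.CT

/-- both marginal losses of a pair are large only with quadratically small probability -/
theorem sp_pair {V : Type} [Fintype V] [DecidableEq V] [Nonempty V] (ρ : Finset V → ℝ)
    (L al : ℝ) (hL : 0 < L) (hal : 0 < al)
    (hmono : ∀ S T : Finset V, S ⊆ T → ρ T ≤ ρ S)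
    (hstep : ∀ S : Finset V, E (fun v => ρ S - ρ (insert v S)) ≤ L) :
    E (fun b => E (fun c => ind (al ≤ ρ {b} - ρ {b, c} ∧ al ≤ ρ {c} - ρ {b, c}))) ≤
      200 * (L / al) ^ 2 := by
  rcases lt_or_ge al (10 * L) with h | h
  · have h1 : E (fun b => E (fun c => ind (al ≤ ρ {b} - ρ {b, c} ∧ al ≤ ρ {c} - ρ {b, c}))) ≤ 1 :=
      E_le_of_nonneg zero_le_one fun _ => E_le_of_nonneg zero_le_one fun _ => ind_le_one _
    have h2 : 1 / 10 ≤ L / al := by
      rw [div_le_div_iff₀ (by norm_num) hal]
      linarith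
    nlinarith
  · set T : ℕ := ⌊al / (10 * L)⌋₊ with hT
    have hx : 1 ≤ al / (10 * L) := by
      rw [le_div_iff₀ (by positivity)]; linarith
    have hT1 : 1 ≤ T := by
      apply Nat.le_floor
      push_cast
      exact hx
    have hT2 : (T : ℝ) ≤ al / (10 * L) := Nat.floor_le (by positivity)
    have hT3 : al / (10 * L) < T + 1 := Nat.lt_floor_add_one _
    have hT1' : (1 : ℝ) ≤ T := by exact_mod_cast hT1
    have hT4 : al / (20 * L) ≤ T := by
      have : al / (20 * L) = (al / (10 * L)) / 2 := by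
        rw [div_div]; congr 1; ring
      rw [this]; linarith
    have hpb := pair_bound ρ L al T hL hT1
      (by rw [le_div_iff₀ (by positivity)] at hT2; linarith) hmono hstep
      (fun b c => al ≤ ρ {b} - ρ {b, c} ∧ al ≤ ρ {c} - ρ {b, c})
      (by
        rintro b c ⟨h1, _⟩
        have := hmono ∅ {b} (Finset.empty_subset _)
        linarith)
      (by
        intro b
        refine le_trans (E_mono fun c => ?_) (loss_one ρ L al hal hmono hstep {b})
        apply ind_mono
        rintro ⟨h1, _⟩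
        have e : insert c ({b} : Finset V) = {b, c} := by
          ext x; simp only [mem_insert, mem_singleton]; tauto
        rw [e]; exact h1)
      (by
        intro c
        refine le_trans (E_mono fun b => ?_) (loss_one ρ L al hal hmono hstep {c})
        apply ind_mono
        rintro ⟨_, h1⟩
        exact h1)
    refine hpb.trans ?_
    have h5 : 1 / (2 * (T : ℝ) ^ 2) ≤ 1 / (2 * (al / (20 * L)) ^ 2) := by
      apply one_div_le_one_div_of_le (by positivity)
      apply mul_le_mul_of_nonneg_left _ (by norm_num)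
      exact pow_le_pow_left₀ (by positivity) hT4 2
    refine h5.trans (le_of_eq ?_)
    field_simp
    norm_num

/-- the pair event at the positions `p1, p2`, the positions in `J0` being frozen -/
def sp_ev {V : Type} [DecidableEq V] {d : ℕ} (ρ : Finset V → ℝ) (al : ℝ)
    (J0 : Finset (Fin d)) (p1 p2 : Fin d) (v : Fin d → V) : Prop :=
  al ≤ ρ (J0.image v ∪ {v p1}) - ρ (J0.image v ∪ {v p1, v p2}) ∧
    al ≤ ρ (J0.image v ∪ {v p2}) - ρ (J0.image v ∪ {v p1, v p2})

theorem sp_image_update {V : Type} [DecidableEq V] {d : ℕ} (J0 : Finset (Fin d))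
    (p : Fin d) (hp : p ∉ J0) (v : Fin d → V) (a : V) :
    J0.image (Function.update v p a) = J0.image v := by
  refine Finset.image_congr ?_
  intro x hx
  have : x ≠ p := fun h => hp (h ▸ hx)
  exact Function.update_of_ne this _ _

theorem sp_ev_bound {V : Type} [Fintype V] [DecidableEq V] [Nonempty V] {d : ℕ}
    (ρ : Finset V → ℝ) (L al : ℝ) (hL : 0 < L) (hal : 0 < al)
    (hmono : ∀ S T : Finset V, S ⊆ T → ρ T ≤ ρ S)
    (hstep : ∀ S : Finset V, E (fun v => ρ S - ρ (insert v S)) ≤ L)
    (J0 : Finset (Fin d)) (p1 p2 : Fin d) (h1 : p1 ∉ J0) (h2 : p2 ∉ J0) (h12 : p1 ≠ p2) :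
    E (fun v : Fin d → V => ind (sp_ev ρ al J0 p1 p2 v)) ≤ 200 * (L / al) ^ 2 := by
  rw [E_update p2 (fun v : Fin d → V => ind (sp_ev ρ al J0 p1 p2 v))]
  rw [E_update p1]
  refine E_le_const fun v => ?_
  have key := sp_pair (fun S => ρ (J0.image v ∪ S)) L al hL hal
    (fun S T h => hmono _ _ (Finset.union_subset_union_right h))
    (fun S => by
      have h := hstep (J0.image v ∪ S)
      refine le_trans (le_of_eq (E_congr fun x => ?_)) h
      rw [Finset.union_insert])
  refine le_trans (le_of_eq (E_congr fun a => E_congr fun b => ?_)) key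
  refine ind_congr ?_
  unfold sp_ev
  rw [sp_image_update J0 p2 h2, sp_image_update J0 p1 h1]
  rw [Function.update_self p2]
  rw [Function.update_of_ne h12, Function.update_self p1]

theorem sp : S_SP := by
  intro V _ _ _ ρ L lam θ hL hlam hθ hθ1 hmono hstep d
  -- the levels
  set thr : ℕ → ℝ := fun j => lam * (1 - θ * (2 * (1 / 2) ^ j)) with hthr
  set al : ℝ := lam * θ * (1 / 2) ^ d with hal
  have hal0 : 0 < al := by rw [hal]; positivity
  have hthr1 : thr 1 = (1 - θ) * lam := by rw [hthr]; simp only; ring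
  have hgap : ∀ j, 2 ≤ j → j ≤ d → al ≤ thr j - thr (j - 1) := by
    intro j h2 hj
    obtain ⟨i, rfl⟩ : ∃ i, j = i + 1 := ⟨j - 1, by omega⟩
    have e : thr (i + 1) - thr (i + 1 - 1) = lam * θ * (1 / 2) ^ i := by
      rw [hthr]; simp only [Nat.add_sub_cancel]
      rw [pow_succ]; ring
    rw [e, hal]
    apply mul_le_mul_of_nonneg_left _ (by positivity)
    exact pow_le_pow_of_le_one (by norm_num) (by norm_num) (by omega)
  have hthrmono : ∀ i j, i ≤ j → thr i ≤ thr j := by
    intro i j hij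
    rw [hthr]
    simp only
    apply mul_le_mul_of_nonneg_left _ hlam.le
    have : ((1 : ℝ) / 2) ^ j ≤ (1 / 2) ^ i := pow_le_pow_of_le_one (by norm_num) (by norm_num) hij
    have := mul_le_mul_of_nonneg_left this hθ.le
    linarith
  have hthrle : ∀ j, thr j ≤ lam := by
    intro j
    rw [hthr]
    simp only
    have : 0 ≤ lam * (θ * (2 * (1 / 2) ^ j)) := by positivity
    linarith
  -- the positions
  have hch : ∀ J : {J : Finset (Fin d) // 1 < J.card}, ∃ p1 p2 : Fin d,
      p1 ∈ J.1 ∧ p2 ∈ J.1 ∧ p1 ≠ p2 := fun J => by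
    obtain ⟨x, hx, y, hy, h⟩ := Finset.one_lt_card.mp J.2
    exact ⟨x, y, hx, hy, h⟩
  choose p1 p2 hp1 hp2 h12 using hch
  let Ev : {J : Finset (Fin d) // 1 < J.card} → (Fin d → V) → Prop := fun J v =>
    sp_ev ρ al ((J.1.erase (p1 J)).erase (p2 J)) (p1 J) (p2 J) v
  have hcover : ∀ v : Fin d → V, (lam ≤ ρ ∅ - ρ (univ.image v) ∧
      ∀ j, ρ ∅ - ρ {v j} < (1 - θ) * lam) → ∃ J, Ev J v := by
    rintro v ⟨hv, hsg⟩
    have hd : 1 ≤ d := by
      by_contra hcon
      have hd0 : d = 0 := by omega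
      subst hd0
      have : univ.image v = ∅ := by simp
      rw [this] at hv
      linarith
    have hne : (univ.filter (fun J : Finset (Fin d) => J.Nonempty ∧
        thr J.card ≤ ρ ∅ - ρ (J.image v))).Nonempty := by
      refine ⟨univ, ?_⟩
      rw [mem_filter]
      refine ⟨mem_univ _, ?_, (hthrle _).trans hv⟩
      exact ⟨⟨0, by omega⟩, mem_univ _⟩
    obtain ⟨J, hJmem, hJmin⟩ := Finset.exists_min_image _ (fun J : Finset (Fin d) => J.card) hne
    rw [mem_filter] at hJmem
    obtain ⟨-, hJne, hJ⟩ := hJmem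
    have hJ1 : 1 < J.card := by
      by_contra hcon
      push Not at hcon
      have hc : J.card = 1 := le_antisymm hcon (Finset.card_pos.2 hJne)
      obtain ⟨j, rfl⟩ := Finset.card_eq_one.1 hc
      rw [hc, hthr1, Finset.image_singleton] at hJ
      linarith [hsg j]
    have hJd : J.card ≤ d := by
      have := Finset.card_le_univ J
      rwa [Fintype.card_fin] at this
    have hsub : ∀ p ∈ J, ρ ∅ - ρ ((J.erase p).image v) < thr (J.card - 1) := by
      intro p hp
      by_contra hcon
      push Not at hcon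
      have hcard : (J.erase p).card = J.card - 1 := Finset.card_erase_of_mem hp
      have h2 := hJmin (J.erase p) (mem_filter.mpr ⟨mem_univ _,
        Finset.card_pos.1 (by rw [hcard]; omega), by rw [hcard]; exact hcon⟩)
      omega
    refine ⟨⟨J, hJ1⟩, ?_⟩
    set JJ : {J : Finset (Fin d) // 1 < J.card} := ⟨J, hJ1⟩ with hJJ
    have m1 : p1 JJ ∈ J := hp1 JJ
    have m2 : p2 JJ ∈ J := hp2 JJ
    have n12 := h12 JJ
    show sp_ev ρ al ((J.erase (p1 JJ)).erase (p2 JJ)) (p1 JJ) (p2 JJ) v
    set a := p1 JJ with ha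
    set b := p2 JJ with hb
    have hu2 : ((J.erase a).erase b).image v ∪ {v a, v b} = J.image v := by
      ext x
      simp only [mem_union, mem_image, mem_insert, mem_singleton, mem_erase]
      constructor
      · rintro (⟨y, ⟨_, _, hy⟩, rfl⟩ | rfl | rfl)
        · exact ⟨y, hy, rfl⟩
        · exact ⟨a, m1, rfl⟩
        · exact ⟨b, m2, rfl⟩
      · rintro ⟨y, hy, rfl⟩
        by_cases e1 : y = a
        · subst e1; right; left; rfl
        · by_cases e2 : y = b
          · subst e2; right; right; rfl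
          · left; exact ⟨y, ⟨e2, e1, hy⟩, rfl⟩
    have hua : ((J.erase a).erase b).image v ∪ {v a} = (J.erase b).image v := by
      ext x
      simp only [mem_union, mem_image, mem_singleton, mem_erase]
      constructor
      · rintro (⟨y, ⟨h1, _, hy⟩, rfl⟩ | rfl)
        · exact ⟨y, ⟨h1, hy⟩, rfl⟩
        · exact ⟨a, ⟨n12, m1⟩, rfl⟩
      · rintro ⟨y, ⟨h1, hy⟩, rfl⟩
        by_cases e1 : y = a
        · subst e1; right; rfl
        · left; exact ⟨y, ⟨h1, e1, hy⟩, rfl⟩
    have hub : ((J.erase a).erase b).image v ∪ {v b} = (J.erase a).image v := by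
      ext x
      simp only [mem_union, mem_image, mem_singleton, mem_erase]
      constructor
      · rintro (⟨y, ⟨_, h1, hy⟩, rfl⟩ | rfl)
        · exact ⟨y, ⟨h1, hy⟩, rfl⟩
        · exact ⟨b, ⟨n12.symm, m2⟩, rfl⟩
      · rintro ⟨y, ⟨h1, hy⟩, rfl⟩
        by_cases e1 : y = b
        · subst e1; right; rfl
        · left; exact ⟨y, ⟨e1, h1, hy⟩, rfl⟩
    have hg := hgap J.card hJ1 hJd
    have s1 := hsub a m1
    have s2 := hsub b m2
    unfold sp_ev
    rw [hu2, hua, hub]
    constructor <;> linarith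
  have hEv : ∀ J, E (fun v : Fin d → V => ind (Ev J v)) ≤ 200 * (L / al) ^ 2 := by
    intro J
    exact sp_ev_bound ρ L al hL hal0 hmono hstep _ _ _ (by simp) (by simp) (h12 J)
  have hfin : 200 * (L / al) ^ 2 = 200 * 4 ^ d * (L / (θ * lam)) ^ 2 := by
    have h4 : ((1 : ℝ) / 2) ^ d * 2 ^ d = 1 := by rw [← mul_pow]; norm_num
    have h5 : L / al = 2 ^ d * (L / (θ * lam)) := by
      rw [hal]
      rw [div_eq_iff (by positivity)]
      have : 2 ^ d * (L / (θ * lam)) * (lam * θ * (1 / 2) ^ d) =
          ((1 / 2) ^ d * 2 ^ d) * (L * (lam * θ / (θ * lam))) := by ring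
      rw [this, h4]
      field_simp
    rw [h5, mul_pow, ← pow_mul, mul_comm d 2, pow_mul]
    norm_num
    ring
  calc E (fun v : Fin d → V => ind (lam ≤ ρ ∅ - ρ (univ.image v) ∧
      ∀ j, ρ ∅ - ρ {v j} < (1 - θ) * lam))
      ≤ E (fun v : Fin d → V => ∑ J, ind (Ev J v)) :=
        E_mono fun v => le_trans (ind_mono (hcover v)) (ind_exists_le _)
    _ = ∑ J, E (fun v : Fin d → V => ind (Ev J v)) := E_sum _ _
    _ ≤ ∑ _J : {J : Finset (Fin d) // 1 < J.card}, 200 * 4 ^ d * (L / (θ * lam)) ^ 2 :=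
        Finset.sum_le_sum fun J _ => (hEv J).trans hfin.le
    _ = (Fintype.card {J : Finset (Fin d) // 1 < J.card} : ℝ) *
          (200 * 4 ^ d * (L / (θ * lam)) ^ 2) := by
        rw [Finset.sum_const, Finset.card_univ, nsmul_eq_mul]
    _ ≤ 2 ^ d * (200 * 4 ^ d * (L / (θ * lam)) ^ 2) := by
        refine mul_le_mul_of_nonneg_right ?_ (by positivity)
        have h1 : Fintype.card {J : Finset (Fin d) // 1 < J.card} ≤
            Fintype.card (Finset (Fin d)) := Fintype.card_subtype_le _
        rw [Fintype.card_finset, Fintype.card_fin] at h1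
        exact_mod_cast h1
    _ = 200 * 8 ^ d * (L / (θ * lam)) ^ 2 := by
        have : (8 : ℝ) ^ d = 2 ^ d * 4 ^ d := by rw [← mul_pow]; norm_num
        rw [this]; ring

end Pool.Agent.W840.TP
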