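import Pool.Agent.W840.TP.Final
import Pool.Agent.W840.TP.SP
import Pool.Agent.W840.TP.SG
import Pool.Agent.W840.TP.PJ
import Pool.Agent.W108.TP.Conv
import Pool.Agent.W108.TP.Pos
import Pool.Agent.W108.TP.Sup
import Pool.Agent.W108.TP.Tr

/-! # Putting the pieces together -/

set_option autoImplicit false

namespace Pool.Agent.W840.TP

open Finset Filter Pool.Agent.H999R2.KSat

theorem sg_full : S_SG := sg_of sp ub

theorem xb_full : S_XB := xb sg_full qe pj si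

theorem sharp_full : S_SHARP := sharp xb_full ub cb

theorem main_full : ∀ p : ℝ, 0 ≤ p → p ≤ 1 → ∃ αs : ℝ, 0 < αs ∧ ∀ α2 α3 : ℝ, 0 < α2 → 0 < α3 →
      α3 / (α2 + α3) = p →
      (α2 + α3 < αs →
        Tendsto (fun n : ℕ => satP n ⌊α2 * (n : ℝ)⌋₊ ⌊α3 * (n : ℝ)⌋₊) atTop (nhds 1)) ∧
      (αs < α2 + α3 →
        Tendsto (fun n : ℕ => satP n ⌊α2 * (n : ℝ)⌋₊ ⌊α3 * (n : ℝ)⌋₊) atTop (nhds 0)) :=
  main sharp_full Pool.Agent.W108.TP.sup1 Pool.Agent.W108.TP.sup2 Pool.Agent.W108.TP.conv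
    Pool.Agent.W108.TP.pos Pool.Agent.W108.TP.two Pool.Agent.W108.TP.mo Pool.Agent.W108.TP.tr

end Pool.Agent.W840.TP
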