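import Pool.Agent.W840.TP.QE

/-! # Clauses avoiding `v`; forced literals -/

set_option autoImplicit false

namespace Pool.Agent.W840.TP

open Finset Filter Pool.Agent.H999R2.KSat

def clift {n k : ℕ} (v : Fin (n + 1)) (c : Cl n k) : Cl (n + 1) k := fun p => lif v (c p)

theorem lif_inj {n : ℕ} (v : Fin (n + 1)) : Function.Injective (lif v : Lit n → Lit (n + 1)) := by
  intro l l' h
  unfold lif at h
  have h1 := congrArg Prod.fst h
  have h2 := congrArg Prod.snd h
  exact Prod.ext (Fin.succAbove_right_injective h1) h2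

theorem clift_inj {n k : ℕ} (v : Fin (n + 1)) :
    Function.Injective (clift v : Cl n k → Cl (n + 1) k) := by
  intro c c' h
  funext p
  exact lif_inj v (congrFun h p)

theorem clift_ninv {n k : ℕ} (v : Fin (n + 1)) (c : Cl n k) : ¬ inv v (clift v c) := by
  rintro ⟨p, hp⟩
  exact Fin.succAbove_ne v _ hp

theorem exists_clift {n k : ℕ} (v : Fin (n + 1)) (c : Cl (n + 1) k) (hc : ¬ inv v c) :
    ∃ c' : Cl n k, clift v c' = c := by
  have h : ∀ p, ∃ i, v.succAbove i = (c p).1 := fun p =>
    Fin.exists_succAbove_eq (fun h => hc ⟨p, h⟩)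
  choose f hf using h
  refine ⟨fun p => (f p, (c p).2), ?_⟩
  funext p
  exact Prod.ext (hf p) rfl

theorem clift_sc {n k : ℕ} (v : Fin (n + 1)) (b : Bool) (c : Cl n k) (a : Asg n) :
    sc (ext v b a) (clift v c) ↔ sc a c := by
  unfold sc clift lif
  simp only [ext_apply]

theorem split_le {n k : ℕ} (v : Fin (n + 1)) (h : Cl (n + 1) k → ℝ) (Y : ℝ) (hn : 0 < n)
    (h0 : ∀ c, inv v c → h c ≤ Y) (h1 : E (fun c : Cl n k => h (clift v c)) ≤ Y) : E h ≤ Y := by
  classical
  have hne : Nonempty (Cl (n + 1) k) := ⟨fun _ => (0, true)⟩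
  have hne' : Nonempty (Cl n k) := ⟨fun _ => (⟨0, hn⟩, true)⟩
  have e1 : E (fun c : Cl (n + 1) k => h c - Y) = E h - Y := by
    rw [E_sub, E_const]
  have e2 : E (fun c : Cl n k => h (clift v c) - Y) ≤ 0 := by
    rw [E_sub, E_const]; linarith
  have e3 : ∑ c : Cl n k, (h (clift v c) - Y) ≤ 0 := by
    unfold E at e2
    have hc : (0 : ℝ) < (Fintype.card (Cl n k) : ℝ) := by exact_mod_cast Fintype.card_pos
    by_contra hcon
    push Not at hcon
    have := div_pos hcon hc
    linarith
  have e4 : ∑ c : Cl (n + 1) k, (h c - Y) ≤ 0 := by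
    rw [← Finset.sum_filter_add_sum_filter_not univ (fun c : Cl (n + 1) k => inv v c)]
    have e5 : ∑ c ∈ univ.filter (fun c : Cl (n + 1) k => inv v c), (h c - Y) ≤ 0 := by
      refine Finset.sum_nonpos fun c hc => ?_
      have := h0 c (Finset.mem_filter.1 hc).2
      linarith
    have e6 : ∑ c ∈ univ.filter (fun c : Cl (n + 1) k => ¬ inv v c), (h c - Y) =
        ∑ c : Cl n k, (h (clift v c) - Y) := by
      have : univ.filter (fun c : Cl (n + 1) k => ¬ inv v c) =
          univ.image (clift v : Cl n k → Cl (n + 1) k) := by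
        ext c
        simp only [Finset.mem_filter, Finset.mem_univ, true_and, Finset.mem_image]
        constructor
        · exact fun hc => exists_clift v c hc
        · rintro ⟨c', rfl⟩
          exact clift_ninv v c'
      rw [this, Finset.sum_image (fun x _ y _ hxy => clift_inj v hxy)]
    rw [e6]
    linarith
  have e5 : E (fun c : Cl (n + 1) k => h c - Y) ≤ 0 := by
    unfold E
    exact div_nonpos_of_nonpos_of_nonneg e4 (by positivity)
  linarith

theorem base_cons_clift {n k M : ℕ} (v : Fin (n + 1)) (c : Cl n k) (G : Fin M → Cl (n + 1) k) :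
    base v (Fin.cons (clift v c) G : Fin (M + 1) → Cl (n + 1) k) =
      {a | sc a c} ∩ base v G := by
  rw [base_cons_ninv v _ G (clift_ninv v c)]
  congr 1
  ext a
  exact clift_sc v true c a

theorem Sol_cons {n k M : ℕ} (c : Cl n k) (G : Fin M → Cl n k) :
    Sol (Fin.cons c G : Fin (M + 1) → Cl n k) = {a | sc a c} ∩ Sol G := by
  ext a
  simp only [Sol, Set.mem_ofPred_eq, Set.mem_inter_iff]
  rw [Fin.forall_fin_succ]
  simp only [Fin.cons_zero, Fin.cons_succ]

theorem br : S_BR := by
  intro n k M v f Y hn h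
  induction M generalizing f with
  | zero =>
    have h0 := h 0 le_rfl
    have e1 : ∀ G : Fin 0 → Cl n k, f (Sol G) = f Set.univ := by
      intro G
      congr 1
      ext a
      simp only [Sol, Set.mem_ofPred_eq, Set.mem_univ, iff_true]
      exact fun j => j.elim0
    have e2 : ∀ G : Fin 0 → Cl (n + 1) k, f (base v G) = f Set.univ := by
      intro G
      congr 1
      ext a
      simp only [base, Set.mem_ofPred_eq, Set.mem_univ, iff_true]
      exact fun j => j.elim0
    rw [E_congr e1, E_const] at h0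
    rw [E_congr e2, E_const]
    exact h0
  | succ M ih =>
    rw [E_cons]
    refine split_le v _ Y hn ?_ ?_
    · intro c hc
      refine le_trans (le_of_eq ?_) (ih f (fun m hm => h m (by omega)))
      refine E_congr fun G => ?_
      rw [base_cons_inv v c G hc]
    · rw [E_comm]
      refine le_trans (le_of_eq ?_) (ih (fun B => E (fun c : Cl n k => f ({a | sc a c} ∩ B))) ?_)
      · refine E_congr fun G => E_congr fun c => ?_
        rw [base_cons_clift]
      · intro m hm
        rw [E_comm]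
        refine le_trans (le_of_eq ?_) (h (m + 1) (by omega))
        rw [E_cons]
        refine E_congr fun c => E_congr fun G => ?_
        rw [Sol_cons]

theorem isU_inv {n : ℕ} (v : Fin (n + 1)) (b : Bool) (y : Lit n) (c : Cl (n + 1) 2)
    (h : isU v b y c) : inv v c := by
  rcases h with h | h
  · exact ⟨0, by rw [h.1]⟩
  · exact ⟨1, by rw [h.1]⟩

theorem isU_mean {n : ℕ} (v : Fin (n + 1)) (b : Bool) (y : Lit n) :
    E (fun c : Cl (n + 1) 2 => ind (isU v b y c)) ≤ 2 * (1 / (2 * ((n : ℝ) + 1))) ^ 2 := by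
  have h : ∀ c : Cl (n + 1) 2, ind (isU v b y c) ≤
      ∏ p : Fin 2, ind (c p = (if p = 0 then (v, !b) else lif v y)) +
      ∏ p : Fin 2, ind (c p = (if p = 1 then (v, !b) else lif v y)) := by
    intro c
    refine (ind_or_le _ _).trans (le_of_eq ?_)
    rw [Fin.prod_univ_two, Fin.prod_univ_two, ind_and, ind_and]
    simp
    ring
  refine (E_mono h).trans (le_of_eq ?_)
  rw [E_add, E_pi (fun p (l : Lit (n + 1)) => ind (l = (if p = 0 then (v, !b) else lif v y))),
    E_pi (fun p (l : Lit (n + 1)) => ind (l = (if p = 1 then (v, !b) else lif v y)))]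
  simp only [ft_point (Nat.succ_pos n), Finset.prod_const, Finset.card_univ, Fintype.card_fin]
  push_cast
  ring

theorem base_insertNth_inv {n k M : ℕ} (v : Fin (n + 1)) (j : Fin (M + 1)) (c : Cl (n + 1) k)
    (G : Fin M → Cl (n + 1) k) (hc : inv v c) :
    base v (j.insertNth c G : Fin (M + 1) → Cl (n + 1) k) = base v G := by
  ext a
  simp only [base, Set.mem_ofPred_eq]
  constructor
  · intro h i hi
    have := h (j.succAbove i)
    rw [Fin.insertNth_apply_succAbove] at this
    exact this hi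
  · intro h i
    rcases Fin.eq_self_or_eq_succAbove j i with rfl | ⟨i', rfl⟩
    · rw [Fin.insertNth_apply_same]
      exact fun h' => absurd hc h'
    · rw [Fin.insertNth_apply_succAbove]
      exact h i'

theorem XX_nonneg' (n m2 m3 s : ℕ) (lam : ℝ) : 0 ≤ XX n m2 m3 s lam :=
  E_nonneg fun _ => E_nonneg fun _ => E_nonneg fun _ => ind_nonneg _

theorem si_base {n M2 M3 s : ℕ} (lam Y : ℝ) (v : Fin (n + 1)) (hn : 0 < n)
    (h : ∀ m2 ≤ M2, ∀ m3 ≤ M3, XX n m2 m3 s lam ≤ Y) :
    E (fun G2 : Fin M2 → Cl (n + 1) 2 => E (fun G3 : Fin M3 → Cl (n + 1) 3 =>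
      E (fun y : Lit n => ind (lam ≤ DD s (base v G2 ∩ base v G3) y)))) ≤ Y := by
  refine br n 2 M2 v (fun B => E (fun G3 : Fin M3 → Cl (n + 1) 3 =>
      E (fun y : Lit n => ind (lam ≤ DD s (B ∩ base v G3) y)))) Y hn ?_
  intro m2 hm2
  rw [E_comm]
  refine br n 3 M3 v (fun B => E (fun G2 : Fin m2 → Cl n 2 =>
      E (fun y : Lit n => ind (lam ≤ DD s (Sol G2 ∩ B) y)))) Y hn ?_
  intro m3 hm3
  rw [E_comm]
  exact h m2 hm2 m3 hm3

theorem si : S_SI := by
  intro n M2 M3 s lam Y v b hn h
  have hn1 : (0 : ℝ) < (n : ℝ) + 1 := by positivity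
  have hY : 0 ≤ Y := (XX_nonneg' n 0 0 s lam).trans (h 0 (Nat.zero_le _) 0 (Nat.zero_le _))
  have hpt : ∀ (G2 : Fin M2 → Cl (n + 1) 2) (G3 : Fin M3 → Cl (n + 1) 3),
      ind (∃ y ∈ un v b G2, lam ≤ DD s (base v G2 ∩ base v G3) y) ≤
      ∑ j : Fin M2, ∑ y : Lit n, ind (isU v b y (G2 j)) *
        ind (lam ≤ DD s (base v G2 ∩ base v G3) y) := by
    intro G2 G3
    by_cases hex : ∃ y ∈ un v b G2, lam ≤ DD s (base v G2 ∩ base v G3) y
    · obtain ⟨y, hy, hl⟩ := hex
      rw [ind_true ⟨y, hy, hl⟩]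
      have hy' : ∃ j, isU v b y (G2 j) := by
        simp only [un, Finset.mem_filter, Finset.mem_univ, true_and] at hy
        exact hy
      obtain ⟨j, hj⟩ := hy'
      calc (1 : ℝ) = ind (isU v b y (G2 j)) * ind (lam ≤ DD s (base v G2 ∩ base v G3) y) := by
            rw [ind_true hj, ind_true hl, one_mul]
        _ ≤ ∑ y : Lit n, ind (isU v b y (G2 j)) *
              ind (lam ≤ DD s (base v G2 ∩ base v G3) y) :=
            Finset.single_le_sum (f := fun y : Lit n => ind (isU v b y (G2 j)) *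
              ind (lam ≤ DD s (base v G2 ∩ base v G3) y))
              (fun y _ => mul_nonneg (ind_nonneg _) (ind_nonneg _)) (Finset.mem_univ y)
        _ ≤ _ := Finset.single_le_sum (f := fun j : Fin M2 => ∑ y : Lit n,
              ind (isU v b y (G2 j)) * ind (lam ≤ DD s (base v G2 ∩ base v G3) y))
              (fun j _ => Finset.sum_nonneg fun y _ => mul_nonneg (ind_nonneg _) (ind_nonneg _))
              (Finset.mem_univ j)
    · rw [ind_false hex]
      exact Finset.sum_nonneg fun j _ => Finset.sum_nonneg fun y _ =>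
        mul_nonneg (ind_nonneg _) (ind_nonneg _)
  refine (E_mono fun G2 => E_mono fun G3 => hpt G2 G3).trans ?_
  have e1 : E (fun G2 : Fin M2 → Cl (n + 1) 2 => E (fun G3 : Fin M3 → Cl (n + 1) 3 =>
      ∑ j : Fin M2, ∑ y : Lit n, ind (isU v b y (G2 j)) *
        ind (lam ≤ DD s (base v G2 ∩ base v G3) y))) =
      ∑ j : Fin M2, E (fun G2 : Fin M2 → Cl (n + 1) 2 => E (fun G3 : Fin M3 → Cl (n + 1) 3 =>
      ∑ y : Lit n, ind (isU v b y (G2 j)) *
        ind (lam ≤ DD s (base v G2 ∩ base v G3) y))) := by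
    rw [← E_sum]
    refine E_congr fun G2 => ?_
    rw [← E_sum]
  rw [e1]
  have hj : ∀ j ∈ (univ : Finset (Fin M2)), E (fun G2 : Fin M2 → Cl (n + 1) 2 =>
      E (fun G3 : Fin M3 → Cl (n + 1) 3 => ∑ y : Lit n, ind (isU v b y (G2 j)) *
        ind (lam ≤ DD s (base v G2 ∩ base v G3) y))) ≤ 1 / ((n : ℝ) + 1) * Y := by
    intro j _
    cases M2 with
    | zero => exact j.elim0
    | succ M =>
      rw [E_insertNth j]
      have e2 : ∀ (c : Cl (n + 1) 2) (G : Fin M → Cl (n + 1) 2),
          E (fun G3 : Fin M3 → Cl (n + 1) 3 => ∑ y : Lit n,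
            ind (isU v b y ((j.insertNth c G : Fin (M + 1) → Cl (n + 1) 2) j)) *
            ind (lam ≤ DD s (base v (j.insertNth c G : Fin (M + 1) → Cl (n + 1) 2) ∩
              base v G3) y)) =
          ∑ y : Lit n, ind (isU v b y c) * E (fun G3 : Fin M3 → Cl (n + 1) 3 =>
            ind (lam ≤ DD s (base v G ∩ base v G3) y)) := by
        intro c G
        rw [E_sum]
        refine Finset.sum_congr rfl fun y _ => ?_
        rw [← E_mul_left]
        refine E_congr fun G3 => ?_
        rw [Fin.insertNth_apply_same]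
        by_cases hu : isU v b y c
        · rw [base_insertNth_inv v j c G (isU_inv v b y c hu)]
        · rw [ind_false hu, zero_mul, zero_mul]
      rw [E_congr fun c => E_congr fun G => e2 c G]
      have e3 : E (fun c : Cl (n + 1) 2 => E (fun G : Fin M → Cl (n + 1) 2 =>
          ∑ y : Lit n, ind (isU v b y c) * E (fun G3 : Fin M3 → Cl (n + 1) 3 =>
            ind (lam ≤ DD s (base v G ∩ base v G3) y)))) =
          ∑ y : Lit n, E (fun c : Cl (n + 1) 2 => ind (isU v b y c)) *
            E (fun G : Fin M → Cl (n + 1) 2 => E (fun G3 : Fin M3 → Cl (n + 1) 3 =>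
            ind (lam ≤ DD s (base v G ∩ base v G3) y))) := by
        rw [← Finset.sum_congr rfl fun y _ => E_mul_right _ _]
        rw [← E_sum]
        refine E_congr fun c => ?_
        rw [E_sum]
        refine Finset.sum_congr rfl fun y _ => ?_
        rw [E_mul_left]
      rw [e3]
      have e4 : ∑ y : Lit n, E (fun c : Cl (n + 1) 2 => ind (isU v b y c)) *
            E (fun G : Fin M → Cl (n + 1) 2 => E (fun G3 : Fin M3 → Cl (n + 1) 3 =>
            ind (lam ≤ DD s (base v G ∩ base v G3) y))) ≤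
          ∑ y : Lit n, 2 * (1 / (2 * ((n : ℝ) + 1))) ^ 2 *
            E (fun G : Fin M → Cl (n + 1) 2 => E (fun G3 : Fin M3 → Cl (n + 1) 3 =>
            ind (lam ≤ DD s (base v G ∩ base v G3) y))) :=
        Finset.sum_le_sum fun y _ => mul_le_mul_of_nonneg_right (isU_mean v b y)
          (E_nonneg fun _ => E_nonneg fun _ => ind_nonneg _)
      refine e4.trans ?_
      rw [← Finset.mul_sum]
      have e5 : ∑ y : Lit n, E (fun G : Fin M → Cl (n + 1) 2 =>
          E (fun G3 : Fin M3 → Cl (n + 1) 3 => ind (lam ≤ DD s (base v G ∩ base v G3) y))) =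
          2 * (n : ℝ) * E (fun G : Fin M → Cl (n + 1) 2 => E (fun G3 : Fin M3 → Cl (n + 1) 3 =>
            E (fun y : Lit n => ind (lam ≤ DD s (base v G ∩ base v G3) y)))) := by
        have e6 : E (fun G : Fin M → Cl (n + 1) 2 => E (fun G3 : Fin M3 → Cl (n + 1) 3 =>
            E (fun y : Lit n => ind (lam ≤ DD s (base v G ∩ base v G3) y)))) =
            E (fun y : Lit n => E (fun G : Fin M → Cl (n + 1) 2 =>
              E (fun G3 : Fin M3 → Cl (n + 1) 3 =>
              ind (lam ≤ DD s (base v G ∩ base v G3) y)))) := by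
          rw [E_comm (fun (y : Lit n) (G : Fin M → Cl (n + 1) 2) =>
            E (fun G3 : Fin M3 → Cl (n + 1) 3 => ind (lam ≤ DD s (base v G ∩ base v G3) y)))]
          refine E_congr fun G => ?_
          rw [E_comm]
        rw [e6]
        have hn0 : (n : ℝ) ≠ 0 := by positivity
        rw [show E (fun y : Lit n => E (fun G : Fin M → Cl (n + 1) 2 =>
              E (fun G3 : Fin M3 → Cl (n + 1) 3 =>
              ind (lam ≤ DD s (base v G ∩ base v G3) y)))) =
              (∑ y : Lit n, E (fun G : Fin M → Cl (n + 1) 2 =>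
              E (fun G3 : Fin M3 → Cl (n + 1) 3 =>
              ind (lam ≤ DD s (base v G ∩ base v G3) y)))) / (Fintype.card (Lit n) : ℝ) from rfl]
        have hcard : (Fintype.card (Lit n) : ℝ) = 2 * (n : ℝ) := by
          rw [Fintype.card_prod, Fintype.card_fin, Fintype.card_bool]
          push_cast; ring
        rw [hcard]
        field_simp
      rw [e5]
      have e6 := si_base (s := s) lam Y v hn (M2 := M) (M3 := M3)
        (fun m2 hm2 m3 hm3 => h m2 (by omega) m3 hm3)
      have e7 : 2 * (1 / (2 * ((n : ℝ) + 1))) ^ 2 * (2 * (n : ℝ) *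
          E (fun G : Fin M → Cl (n + 1) 2 => E (fun G3 : Fin M3 → Cl (n + 1) 3 =>
            E (fun y : Lit n => ind (lam ≤ DD s (base v G ∩ base v G3) y))))) ≤
          2 * (1 / (2 * ((n : ℝ) + 1))) ^ 2 * (2 * (n : ℝ) * Y) :=
        mul_le_mul_of_nonneg_left (mul_le_mul_of_nonneg_left e6 (by positivity)) (by positivity)
      refine e7.trans ?_
      have e8 : 2 * (1 / (2 * ((n : ℝ) + 1))) ^ 2 * (2 * (n : ℝ) * Y) =
          (n : ℝ) / ((n : ℝ) + 1) * (1 / ((n : ℝ) + 1) * Y) := by
        field_simp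
      rw [e8]
      have e9 : (n : ℝ) / ((n : ℝ) + 1) ≤ 1 := by
        rw [div_le_one hn1]; linarith
      exact mul_le_of_le_one_left (by positivity) e9
  refine (Finset.sum_le_sum hj).trans (le_of_eq ?_)
  rw [Finset.sum_const, Finset.card_univ, Fintype.card_fin, nsmul_eq_mul]
  ring

end Pool.Agent.W840.TP
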