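import Pool.Agent.H999R2.KSat.Defs2

/-!
# Random (2+p)-SAT: existence of the satisfiability threshold

Definitions and statements of the tasks.  `E` (average over a finite type), `ind` (indicator),
`Lit`, `Cl`, `Asg`, `sc`, `Sol`, `RA`, `KK`, `inv` are those of `Pool.Agent.H999R2.KSat`.
-/

set_option autoImplicit false

namespace Pool.Agent.W840.TP

open Finset Filter Pool.Agent.H999R2.KSat

/-! ### the model of independent literals -/

/-- probability that `m2` uniform 2-clauses and `m3` uniform 3-clauses (tuples of independent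
uniform literals) over `n` variables are simultaneously satisfiable -/
noncomputable def pm (n m2 m3 : ℕ) : ℝ :=
  E (fun F2 : Fin m2 → Cl n 2 => E (fun F3 : Fin m3 → Cl n 3 =>
    ind ((Sol F2 ∩ Sol F3).Nonempty)))

/-- the effect of the literal `l` on the set `A` -/
noncomputable def DD {n : ℕ} (s : ℕ) (A : Set (Asg n)) (l : Lit n) : ℝ :=
  RA 2 s A - RA 2 s (A ∩ {a | a l.1 = l.2})

/-- probability that a random literal has effect at least `lam` on a random formula -/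
noncomputable def XX (n m2 m3 s : ℕ) (lam : ℝ) : ℝ :=
  E (fun F2 : Fin m2 → Cl n 2 => E (fun F3 : Fin m3 → Cl n 3 => E (fun l : Lit n =>
    ind (lam ≤ DD s (Sol F2 ∩ Sol F3) l))))

/-- the bound for the mean effect of a random literal -/
noncomputable def LL (s : ℕ) : ℝ := ((Nat.sqrt s + 1 : ℕ) : ℝ) + (s : ℝ) / ((Nat.sqrt s + 1 : ℕ) : ℝ)

/-! ### removing the variable `v` -/

/-- a literal over `n` variables seen over `n + 1` variables, avoiding `v` -/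
def lif {n : ℕ} (v : Fin (n + 1)) (l : Lit n) : Lit (n + 1) := (v.succAbove l.1, l.2)

/-- the assignment with the value `b` inserted at `v` -/
def ext {n : ℕ} (v : Fin (n + 1)) (b : Bool) (a : Asg n) : Asg (n + 1) :=
  Fin.insertNth (α := fun _ => Bool) v b a

/-- assignments of the other variables satisfying all clauses of `G` that avoid `v` -/
def base {n k M : ℕ} (v : Fin (n + 1)) (G : Fin M → Cl (n + 1) k) : Set (Asg n) :=
  {a | ∀ j, ¬ inv v (G j) → sc (ext v true a) (G j)}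

/-- assignments of the other variables which together with the value `b` at `v` satisfy all
clauses of `G` that contain `v` -/
def tch {n k M : ℕ} (v : Fin (n + 1)) (b : Bool) (G : Fin M → Cl (n + 1) k) : Set (Asg n) :=
  {a | ∀ j, inv v (G j) → sc (ext v b a) (G j)}

/-- the 2-clause `c` consists of `(v, !b)` and the literal `y` of another variable: it forces `y`
when `v` has the value `b` -/
def isU {n : ℕ} (v : Fin (n + 1)) (b : Bool) (y : Lit n) (c : Cl (n + 1) 2) : Prop :=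
  (c 0 = (v, !b) ∧ c 1 = lif v y) ∨ (c 1 = (v, !b) ∧ c 0 = lif v y)

open Classical in
/-- the literals forced by the clauses of `G` when `v` has the value `b` -/
noncomputable def un {n M : ℕ} (v : Fin (n + 1)) (b : Bool) (G : Fin M → Cl (n + 1) 2) :
    Finset (Lit n) :=
  univ.filter (fun y => ∃ j, isU v b y (G j))

/-- assignments satisfying all literals of `S` -/
def us {n : ℕ} (S : Finset (Lit n)) : Set (Asg n) := {a | ∀ l ∈ S, a l.1 = l.2}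

/-- the effect of `S` on `B` is at least `lam`, but no single literal of `S` has effect
`(1 - θ) lam` -/
def Bad {n : ℕ} (s : ℕ) (lam θ : ℝ) (B : Set (Asg n)) (S : Finset (Lit n)) : Prop :=
  lam ≤ RA 2 s B - RA 2 s (B ∩ us S) ∧
    ∀ l ∈ S, RA 2 s B - RA 2 s (B ∩ {a | a l.1 = l.2}) < (1 - θ) * lam

/-! ### abstract hypotheses for the convergence argument -/

/-- as `Pool.Agent.H224R2.CT.HypC`, with `4 m ≤ d^2` replaced by `A m ≤ d^2` -/
structure HypA (A c : ℝ) (s : ℕ → ℕ) (n1 : ℕ) (p : ℕ → ℕ → ℝ) : Prop where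
  hA : 4 ≤ A
  hc0 : 0 < c
  hc2 : c ≤ 1 / 2
  hn1 : 2 ≤ n1
  h0 : ∀ n : ℕ, p n 0 = 1
  hnn : ∀ n m : ℕ, 0 ≤ p n m
  hanti : ∀ n m : ℕ, p n (m + 1) ≤ p n m
  hfm : ∃ B r : ℝ, 1 ≤ B ∧ 0 < r ∧ r < 1 ∧ ∀ n m : ℕ, n1 ≤ n → p n m ≤ B ^ n * r ^ m
  hwin : ∀ n : ℕ, n1 ≤ n → (s n : ℝ) ≤ (n : ℝ) ^ (1 - c)
  hsharp : ∀ Λ δ : ℝ, 0 < δ → ∃ n0 : ℕ, ∀ n m : ℕ, n0 ≤ n → (m : ℝ) + s n ≤ Λ * n →
      (1 - p n m) * p n (m + s n) ^ 2 ≤ δ
  hone : ∀ n m : ℕ, n1 ≤ n → (((n : ℝ) - 1) / n) ^ m * p n m ≤ p (n + 1) m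
  htwo : ∀ (N1 N2 m m1 m2 : ℕ) (d : ℝ), n1 ≤ N1 → n1 ≤ N2 → 0 ≤ d → A * (m : ℝ) ≤ d ^ 2 →
      m * (N1 : ℝ) / (N1 + N2) + d ≤ m1 → m * (N2 : ℝ) / (N1 + N2) + d ≤ m2 →
      1 / 2 * ((((N1 : ℝ) - 1) / N1) ^ m1 * p N1 m1) * ((((N2 : ℝ) - 1) / N2) ^ m2 * p N2 m2) ≤
        p (N1 + N2) m

/-! ### the model of the problem -/

/-- a `k`-clause: a choice of `k` variables (those with `c i ≠ none`), each with a sign
(`c i = some true`: the literal `x_i`, `c i = some false`: its negation) -/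
def Clause (n k : ℕ) : Type :=
  {c : Fin n → Option Bool // (Finset.univ.filter (fun i => c i ≠ none)).card = k}

/-- the assignment `a` makes a literal of `c` true -/
def Satisfies {n k : ℕ} (a : Fin n → Bool) (c : Clause n k) : Prop := ∃ i, c.1 i = some (a i)

/-- the probability that `F_{2,3}(n, m2, m3)` is satisfiable -/
noncomputable def satP (n m2 m3 : ℕ) : ℝ :=
  (Nat.card {F : (Fin m2 → Clause n 2) × (Fin m3 → Clause n 3) //
      ∃ a : Fin n → Bool, (∀ j, Satisfies a (F.1 j)) ∧ ∀ j, Satisfies a (F.2 j)} : ℝ) /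
    (Nat.card ((Fin m2 → Clause n 2) × (Fin m3 → Clause n 3)) : ℝ)

/-! ### statements of the tasks -/

/-- SP: a random set of `d` elements has a large loss without a single element with a large loss
only with quadratically small probability -/
def S_SP : Prop := ∀ (V : Type) [Fintype V] [DecidableEq V] [Nonempty V] (ρ : Finset V → ℝ)
    (L lam θ : ℝ), 0 < L → 0 < lam → 0 < θ → θ < 1 →
    (∀ S T : Finset V, S ⊆ T → ρ T ≤ ρ S) →
    (∀ S : Finset V, E (fun v => ρ S - ρ (insert v S)) ≤ L) → ∀ d : ℕ,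
    E (fun v : Fin d → V => ind (lam ≤ ρ ∅ - ρ (univ.image v) ∧
      ∀ j, ρ ∅ - ρ {v j} < (1 - θ) * lam)) ≤ 200 * 8 ^ d * (L / (θ * lam)) ^ 2

/-- SG: the same for the literals forced by a random 2-CNF formula -/
def S_SG : Prop := ∀ (n s M d : ℕ) (lam θ : ℝ) (v : Fin (n + 1)) (b : Bool) (B : Set (Asg n)),
    0 < n → 0 < lam → 0 < θ → θ < 1 →
    E (fun y : Fin d → Lit n => E (fun G : Fin M → Cl (n + 1) 2 =>
      ind (Bad s lam θ (B ∩ base v G) (univ.image y ∪ un v b G)))) ≤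
      200 * 8 ^ d * (1 + 8 / ((n : ℝ) + 1)) ^ M * (LL s / (θ * lam)) ^ 2

/-- UB: mean effect of a random literal -/
def S_UB : Prop := ∀ (n s : ℕ) (B : Set (Asg n)), 0 < n → E (fun l : Lit n => DD s B l) ≤ LL s

/-- CB: mean effect of a random 2-clause -/
def S_CB : Prop := ∀ (n s : ℕ) (B : Set (Asg n)), 0 < n →
    E (fun c : Cl n 2 => RA 2 s B - RA 2 s (B ∩ {a | sc a c})) ≤ 1

/-- QE: mean effect of the 3-clauses containing `v` -/
def S_QE : Prop := ∀ (n s M : ℕ) (v : Fin (n + 1)) (b : Bool) (B : Set (Asg n)), 0 < n → s ≤ n →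
    E (fun G : Fin M → Cl (n + 1) 3 =>
      RA 2 s (B ∩ base v G) - RA 2 s (B ∩ base v G ∩ tch v b G)) ≤ 30 * (M : ℝ) / ((n : ℝ) + 1)

/-- PJ: projection along `v` -/
def S_PJ : Prop := ∀ (n s T : ℕ) (v : Fin (n + 1)) (b : Bool) (A : Set (Asg (n + 1)))
    (A0 A1 : Set (Asg n)), 0 < n → 1 ≤ T → T ≤ n + 1 →
    (∀ a ∈ A, (fun i => a (v.succAbove i)) ∈ A0) → (∀ a ∈ A1, ext v b a ∈ A) →
    DD s A (v, b) ≤ (((n : ℝ) + 1) / n) ^ 2 * (RA 2 s A0 - RA 2 s A1) +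
      s * (1 / ((n : ℝ) + 1) * KK 1 s T)

/-- BR: the clauses avoiding `v` form a random formula with fewer clauses over `n` variables -/
def S_BR : Prop := ∀ (n k M : ℕ) (v : Fin (n + 1)) (f : Set (Asg n) → ℝ) (Y : ℝ), 0 < n →
    (∀ m ≤ M, E (fun G : Fin m → Cl n k => f (Sol G)) ≤ Y) →
    E (fun G : Fin M → Cl (n + 1) k => f (base v G)) ≤ Y

/-- SI: the probability that a forced literal has a large effect -/
def S_SI : Prop := ∀ (n M2 M3 s : ℕ) (lam Y : ℝ) (v : Fin (n + 1)) (b : Bool), 0 < n →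
    (∀ m2 ≤ M2, ∀ m3 ≤ M3, XX n m2 m3 s lam ≤ Y) →
    E (fun G2 : Fin M2 → Cl (n + 1) 2 => E (fun G3 : Fin M3 → Cl (n + 1) 3 =>
      ind (∃ y ∈ un v b G2, lam ≤ DD s (base v G2 ∩ base v G3) y))) ≤
      (M2 : ℝ) / ((n : ℝ) + 1) * Y

/-- SUP1: one more variable -/
def S_SUP1 : Prop := ∀ n m2 m3 : ℕ, 0 < n →
    ((n : ℝ) / (n + 1)) ^ (m2 + m3) * pm n m2 m3 ≤ pm (n + 1) m2 m3

/-- SUP2: two blocks of variables -/
def S_SUP2 : Prop := ∀ (N1 N2 m2 m3 a2 a3 b2 b3 : ℕ) (d2 d3 : ℝ), 0 < N1 → 0 < N2 →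
    0 ≤ d2 → 0 ≤ d3 → 8 * (m2 : ℝ) ≤ d2 ^ 2 → 8 * (m3 : ℝ) ≤ d3 ^ 2 →
    m2 * (N1 : ℝ) / (N1 + N2) + d2 ≤ a2 → m2 * (N2 : ℝ) / (N1 + N2) + d2 ≤ b2 →
    m3 * (N1 : ℝ) / (N1 + N2) + d3 ≤ a3 → m3 * (N2 : ℝ) / (N1 + N2) + d3 ≤ b3 →
    1 / 2 * pm N1 a2 a3 * pm N2 b2 b3 ≤ pm (N1 + N2) m2 m3

/-- CONV: convergence -/
def S_CONV : Prop := ∀ (A c : ℝ) (s : ℕ → ℕ) (n1 : ℕ) (p : ℕ → ℕ → ℝ), HypA A c s n1 p →
    ∃ rs : ℝ, (∀ r, r < rs → Tendsto (fun n : ℕ => p n ⌊r * (n : ℝ)⌋₊) atTop (nhds 1)) ∧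
      (∀ r, rs < r → Tendsto (fun n : ℕ => p n ⌊r * (n : ℝ)⌋₊) atTop (nhds 0))

/-- POS: sparse random 2-CNF formulas are satisfiable with probability at least `1/2` -/
def S_POS : Prop := ∃ r : ℝ, 0 < r ∧ ∃ n0 : ℕ, ∀ n m : ℕ, n0 ≤ n → (m : ℝ) ≤ r * n →
    1 / 2 ≤ ps n 2 m

/-- TWO: random 2-SAT is unsatisfiable above the density one -/
def S_TWO : Prop := ∀ r : ℝ, 1 < r → Tendsto (fun n : ℕ => satP n ⌊r * (n : ℝ)⌋₊ 0) atTop (nhds 0)

/-- MO: monotonicity in the numbers of clauses -/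
def S_MO : Prop := ∀ n m2 m3 m2' m3' : ℕ, m2 ≤ m2' → m3 ≤ m3' → 3 ≤ n →
    satP n m2' m3' ≤ satP n m2 m3

/-- TR: comparison of the two models -/
def S_TR : Prop := ∀ Λ : ℝ, ∃ c : ℝ, 0 < c ∧ ∃ n0 : ℕ, ∀ n m2 m3 : ℕ, n0 ≤ n →
    (m2 : ℝ) ≤ Λ * n → (m3 : ℝ) ≤ Λ * n →
    satP n m2 m3 ≤ pm n m2 m3 / c ∧ 1 - satP n m2 m3 ≤ (1 - pm n m2 m3) / c

end Pool.Agent.W840.TP
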