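import Pool.Agent.W840.TP.Sharp
import Pool.Agent.H224R2.CT.Conv

/-! # Existence of the threshold (assembly) -/

set_option autoImplicit false

namespace Pool.Agent.W840.TP

open Finset Filter Pool.Agent.H999R2.KSat Pool.Agent.H224R2.CT

/-! ### monotonicity of `pm` -/

theorem pm_succ2 (n m2 m3 : ℕ) : pm n (m2 + 1) m3 ≤ pm n m2 m3 := by
  rcases isEmpty_or_nonempty (Cl n 2) with hX | hX
  · have : IsEmpty (Fin (m2 + 1) → Cl n 2) := ⟨fun F => hX.false (F 0)⟩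
    have h0 : pm n (m2 + 1) m3 = 0 := by simp [pm, E]
    rw [h0]
    exact pm_nonneg n m2 m3
  · unfold pm
    rw [E_cons]
    refine E_le_const fun x => E_mono fun G => E_mono fun G3 => ind_mono ?_
    rintro ⟨a, ha, h3⟩
    refine ⟨a, fun j => ?_, h3⟩
    have := ha j.succ
    rwa [Fin.cons_succ] at this

theorem pm_succ3 (n m2 m3 : ℕ) : pm n m2 (m3 + 1) ≤ pm n m2 m3 := by
  rcases isEmpty_or_nonempty (Cl n 3) with hX | hX
  · have : IsEmpty (Fin (m3 + 1) → Cl n 3) := ⟨fun F => hX.false (F 0)⟩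
    have h0 : pm n m2 (m3 + 1) = 0 := by simp [pm, E]
    rw [h0]
    exact pm_nonneg n m2 m3
  · unfold pm
    refine E_mono fun G2 => ?_
    rw [E_cons]
    refine E_le_const fun x => E_mono fun G => ind_mono ?_
    rintro ⟨a, h2, ha⟩
    refine ⟨a, h2, fun j => ?_⟩
    have := ha j.succ
    rwa [Fin.cons_succ] at this

theorem pm_anti (n : ℕ) {m2 m3 m2' m3' : ℕ} (h2 : m2 ≤ m2') (h3 : m3 ≤ m3') :
    pm n m2' m3' ≤ pm n m2 m3 :=
  (antitone_nat_of_succ_le (f := fun m => pm n m m3') (fun m => pm_succ2 n m m3') h2).trans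
    (antitone_nat_of_succ_le (f := fun m => pm n m2 m) (fun m => pm_succ3 n m2 m) h3)

theorem pm_zero (n : ℕ) : pm n 0 0 = 1 := by
  unfold pm
  have h : ∀ F : Fin 0 → Cl n 2, E (fun G : Fin 0 → Cl n 3 => ind ((Sol F ∩ Sol G).Nonempty)) = 1 := by
    intro F
    have h2 : ∀ G : Fin 0 → Cl n 3, ind ((Sol F ∩ Sol G).Nonempty) = 1 := fun G =>
      ind_true ⟨fun _ => true, fun j => j.elim0, fun j => j.elim0⟩
    rw [E_congr h2]
    exact E_const 1
  rw [E_congr h]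
  exact E_const 1

/-- shortening the 3-clauses -/
theorem ps_le_pm (n m2 m3 : ℕ) (hn : 0 < n) : ps n 2 (m2 + m3) ≤ pm n m2 m3 := by
  have hne : Nonempty (Lit n) := ⟨(⟨0, hn⟩, true)⟩
  unfold ps pm
  rw [E_append (X := Cl n 2) (fun F => ind ((Sol F).Nonempty))]
  refine E_mono fun F2 => ?_
  -- induction on the number of 3-clauses, for all backgrounds
  have key : ∀ (m : ℕ) (B : Set (Asg n)), E (fun W : Fin m → Cl n 2 => ind ((B ∩ Sol W).Nonempty)) ≤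
      E (fun W : Fin m → Cl n 3 => ind ((B ∩ Sol W).Nonempty)) := by
    intro m
    induction m with
    | zero =>
      intro B
      have h2 : ∀ W : Fin 0 → Cl n 2, ind ((B ∩ Sol W).Nonempty) = ind B.Nonempty := by
        intro W
        have : Sol W = Set.univ := by ext a; simp [Sol]
        rw [this, Set.inter_univ]
      have h3 : ∀ W : Fin 0 → Cl n 3, ind ((B ∩ Sol W).Nonempty) = ind B.Nonempty := by
        intro W
        have : Sol W = Set.univ := by ext a; simp [Sol]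
        rw [this, Set.inter_univ]
      rw [E_congr h2, E_congr h3, E_const, E_const]
    | succ m ih =>
      intro B
      rw [E_cons, E_cons (X := Cl n 3), E_cons (X := Lit n) (m := 2)]
      refine le_E_const fun l => E_mono fun c => ?_
      have hs : ∀ (k : ℕ) (x : Cl n k) (G : Fin m → Cl n k),
          B ∩ Sol (Fin.cons x G : Fin (m + 1) → Cl n k) = (B ∩ {a | sc a x}) ∩ Sol G := by
        intro k x G
        ext a
        constructor
        · rintro ⟨h1, h2⟩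
          refine ⟨⟨h1, ?_⟩, fun j => ?_⟩
          · have := h2 0; rwa [Fin.cons_zero] at this
          · have := h2 j.succ; rwa [Fin.cons_succ] at this
        · rintro ⟨⟨h1, h2⟩, h3⟩
          refine ⟨h1, fun j => ?_⟩
          refine Fin.cases ?_ (fun j => ?_) j
          · rw [Fin.cons_zero]; exact h2
          · rw [Fin.cons_succ]; exact h3 j
      calc E (fun G : Fin m → Cl n 2 => ind ((B ∩ Sol (Fin.cons c G : Fin (m + 1) → Cl n 2)).Nonempty))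
          = E (fun G : Fin m → Cl n 2 => ind (((B ∩ {a | sc a c}) ∩ Sol G).Nonempty)) :=
            E_congr fun G => by rw [hs]
        _ ≤ E (fun G : Fin m → Cl n 3 => ind (((B ∩ {a | sc a c}) ∩ Sol G).Nonempty)) := ih _
        _ ≤ _ := by
            refine E_mono fun G => ind_mono ?_
            rintro ⟨a, ⟨h1, p, hp⟩, h3⟩
            rw [hs]
            refine ⟨a, ⟨h1, p.succ, ?_⟩, h3⟩
            rw [Fin.cons_succ]; exact hp
  refine le_trans (le_of_eq ?_) (key m3 (Sol F2))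
  refine E_congr fun W => ind_congr ?_
  constructor
  · rintro ⟨a, ha⟩
    refine ⟨a, fun j => ?_, fun j => ?_⟩
    · have := ha (Fin.castAdd m3 j); rwa [Fin.append_left] at this
    · have := ha (Fin.natAdd m2 j); rwa [Fin.append_right] at this
  · rintro ⟨a, h2, h3⟩
    refine ⟨a, fun j => ?_⟩
    refine Fin.addCases (fun i => ?_) (fun i => ?_) j
    · rw [Fin.append_left]; exact h2 i
    · rw [Fin.append_right]; exact h3 i

/-! ### the one-parameter family -/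

/-- `m` clauses, a proportion `p` of which are 3-clauses -/
noncomputable def PP (p : ℝ) (n m : ℕ) : ℝ := pm n ⌊(1 - p) * (m : ℝ)⌋₊ ⌊p * (m : ℝ)⌋₊

open Classical in
/-- the same, cut at the density `Λ0` -/
noncomputable def PC (p Λ0 : ℝ) (n m : ℕ) : ℝ := if (m : ℝ) ≤ Λ0 * n then PP p n m else 0

theorem PC_of_le {p Λ0 : ℝ} {n m : ℕ} (h : (m : ℝ) ≤ Λ0 * n) : PC p Λ0 n m = PP p n m := if_pos h
theorem PC_of_lt {p Λ0 : ℝ} {n m : ℕ} (h : Λ0 * n < (m : ℝ)) : PC p Λ0 n m = 0 :=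
  if_neg (not_le.2 h)

theorem PP_nonneg (p : ℝ) (n m : ℕ) : 0 ≤ PP p n m := pm_nonneg _ _ _
theorem PP_le_one (p : ℝ) (n m : ℕ) : PP p n m ≤ 1 := pm_le_one _ _ _

theorem PP_anti (p : ℝ) (hp0 : 0 ≤ p) (hp1 : p ≤ 1) (n : ℕ) {m m' : ℕ} (h : m ≤ m') :
    PP p n m' ≤ PP p n m := by
  have h' : (m : ℝ) ≤ m' := by exact_mod_cast h
  refine pm_anti n (Nat.floor_le_floor ?_) (Nat.floor_le_floor ?_)
  · exact mul_le_mul_of_nonneg_left h' (by linarith)
  · exact mul_le_mul_of_nonneg_left h' hp0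

theorem PC_nonneg (p Λ0 : ℝ) (n m : ℕ) : 0 ≤ PC p Λ0 n m := by
  unfold PC
  split_ifs
  · exact PP_nonneg _ _ _
  · exact le_rfl

theorem PC_le_PP (p Λ0 : ℝ) (n m : ℕ) : PC p Λ0 n m ≤ PP p n m := by
  unfold PC
  split_ifs
  · exact le_rfl
  · exact PP_nonneg _ _ _

theorem floor_add_ge {x y : ℝ} (hx : 0 ≤ x) (hy : 0 ≤ y) : ⌊x⌋₊ + ⌊y⌋₊ ≤ ⌊x + y⌋₊ := by
  apply Nat.le_floor
  push_cast
  exact add_le_add (Nat.floor_le hx) (Nat.floor_le hy)

/-- smallness of the sharpness bound in the window -/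
theorem win_small' (κ C : ℝ) (hκ : 0 < κ) (hC : 0 < C) :
    Tendsto (fun n : ℕ => C * ((n : ℝ) * (κ * (win n : ℝ)) ^ (-(9 / 8) : ℝ))) atTop (nhds 0) := by
  have h1 := win_small.const_mul (C * κ ^ (-(9 / 8) : ℝ))
  rw [mul_zero] at h1
  refine squeeze_zero' (Eventually.of_forall fun n => by positivity) ?_ h1
  filter_upwards [eventually_gt_atTop 0] with n hn
  have hn0 : (0 : ℝ) < n := by exact_mod_cast hn
  rw [Real.mul_rpow hκ.le (Nat.cast_nonneg _)]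
  have h2 : 0 ≤ (win n : ℝ) / n := by positivity
  have h3 : 0 ≤ C * κ ^ (-(9 / 8) : ℝ) := by positivity
  have e : C * ((n : ℝ) * (κ ^ (-(9 / 8) : ℝ) * (win n : ℝ) ^ (-(9 / 8) : ℝ))) =
      C * κ ^ (-(9 / 8) : ℝ) * ((n : ℝ) * (win n : ℝ) ^ (-(9 / 8) : ℝ)) := by ring
  rw [e]
  apply mul_le_mul_of_nonneg_left _ h3
  linarith

theorem hyp_sharp (hSH : S_SHARP) (p Λ0 : ℝ) (hp0 : 0 < p) (hp1 : p < 1) (hΛ0 : 0 < Λ0)
    (hsub : (1 - p) * Λ0 < 1) (ε : ℝ) (hε : 0 < ε) : ∃ n0 : ℕ, ∀ n m : ℕ, n0 ≤ n →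
      (1 - PC p Λ0 n m) * PC p Λ0 n (m + win n) ^ 2 ≤ ε := by
  set κ : ℝ := min p (1 - p) with hκd
  have hκ : 0 < κ := lt_min hp0 (by linarith)
  have hκ1 : κ ≤ p := min_le_left _ _
  have hκ2 : κ ≤ 1 - p := min_le_right _ _
  have hκ3 : κ ≤ 1 / 2 := by linarith
  set δ : ℝ := min (1 - (1 - p) * Λ0) (1 / 2) with hδd
  have hδ : 0 < δ := lt_min (by linarith) (by norm_num)
  have hδ1 : δ < 1 := lt_of_le_of_lt (min_le_right _ _) (by norm_num)
  have hδ2 : (1 - p) * Λ0 ≤ 1 - δ := by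
    have := min_le_left (1 - (1 - p) * Λ0) (1 / 2 : ℝ)
    linarith
  obtain ⟨C, hC, n0, hs⟩ := hSH δ (p * Λ0 + 1) hδ hδ1 (by positivity)
  have hlim := win_small' (κ / 2) C (by positivity) hC
  have hwt : Tendsto (fun n : ℕ => (win n : ℝ)) atTop atTop := by
    have h1 : Tendsto (fun n : ℕ => (n : ℝ) ^ ((17 : ℝ) / 18) / 2) atTop atTop := by
      apply Tendsto.atTop_div_const (by norm_num)
      exact (tendsto_rpow_atTop (by norm_num)).comp tendsto_natCast_atTop_atTop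
    refine tendsto_atTop_mono' _ ?_ h1
    filter_upwards [eventually_gt_atTop 0] with n hn
    exact win_ge n hn
  have hev := (hlim.eventually_lt_const hε).and ((hwt.eventually_ge_atTop (2 / κ)).and
    ((eventually_ge_atTop n0).and (eventually_ge_atTop 1)))
  obtain ⟨n1, hn1⟩ := eventually_atTop.1 hev
  refine ⟨n1, fun n m hn => ?_⟩
  obtain ⟨a1, a2, a3, a4⟩ := hn1 n hn
  rcases lt_or_ge (Λ0 * n) ((m + win n : ℕ) : ℝ) with hlt | hge
  · rw [PC_of_lt hlt]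
    simpa using hε.le
  have hm : (m : ℝ) ≤ Λ0 * n := by
    have : (m : ℝ) ≤ ((m + win n : ℕ) : ℝ) := by push_cast; linarith [Nat.cast_nonneg (α := ℝ) (win n)]
    linarith
  rw [PC_of_le hge, PC_of_le hm]
  have hnR : (0 : ℝ) < n := by exact_mod_cast a4
  have hwn : (win n : ℝ) ≤ n := by exact_mod_cast win_le n a4
  have hw0 : (0 : ℝ) ≤ win n := Nat.cast_nonneg _
  have hκw : 2 ≤ κ * (win n : ℝ) := by
    rw [div_le_iff₀ hκ] at a2
    linarith
  set s' : ℕ := ⌊κ * (win n : ℝ)⌋₊ with hs'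
  have hs1 : (s' : ℝ) ≤ κ * win n := Nat.floor_le (by positivity)
  have hs2 : κ * win n < s' + 1 := Nat.lt_floor_add_one _
  have hs3 : κ / 2 * (win n : ℝ) ≤ s' := by linarith
  have hs4 : 1 ≤ s' := by
    have : (1 : ℝ) ≤ s' := by linarith
    exact_mod_cast this
  have hs5 : 2 * s' ≤ n := by
    have : (2 : ℝ) * s' ≤ n := by nlinarith
    exact_mod_cast this
  have hm0 : (0 : ℝ) ≤ m := Nat.cast_nonneg m
  have h1p : 0 < 1 - p := by linarith
  have hA := hs n ⌊(1 - p) * (m : ℝ)⌋₊ ⌊p * (m : ℝ)⌋₊ s' a3 hs4 hs5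
    (by
      refine (Nat.floor_le (by positivity)).trans ?_
      calc (1 - p) * (m : ℝ) ≤ (1 - p) * (Λ0 * n) := mul_le_mul_of_nonneg_left hm h1p.le
        _ = ((1 - p) * Λ0) * n := by ring
        _ ≤ (1 - δ) * n := mul_le_mul_of_nonneg_right hδ2 hnR.le)
    (by
      refine (Nat.floor_le (by positivity)).trans ?_
      calc p * (m : ℝ) ≤ p * (Λ0 * n) := mul_le_mul_of_nonneg_left hm hp0.le
        _ ≤ (p * Λ0 + 1) * n := by nlinarith)
  have hB : PP p n (m + win n) ≤ pm n (⌊(1 - p) * (m : ℝ)⌋₊ + s') ⌊p * (m : ℝ)⌋₊ := by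
    unfold PP
    apply pm_anti
    · have h1 : s' ≤ ⌊(1 - p) * (win n : ℝ)⌋₊ :=
        Nat.floor_le_floor (mul_le_mul_of_nonneg_right hκ2 hw0)
      refine (Nat.add_le_add_left h1 _).trans ?_
      refine (floor_add_ge (by positivity) (by positivity)).trans (le_of_eq ?_)
      congr 1
      push_cast
      ring
    · apply Nat.floor_le_floor
      apply mul_le_mul_of_nonneg_left _ hp0.le
      push_cast
      linarith
  have hC' : PP p n (m + win n) ^ 2 ≤ pm n (⌊(1 - p) * (m : ℝ)⌋₊ + s') ⌊p * (m : ℝ)⌋₊ ^ 2 :=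
    pow_le_pow_left₀ (PP_nonneg _ _ _) hB 2
  have h1 : 0 ≤ 1 - PP p n m := by linarith [PP_le_one p n m]
  have hκw2 : 0 < κ / 2 * (win n : ℝ) := by linarith
  have h2 : (s' : ℝ) ^ (-(9 / 8) : ℝ) ≤ (κ / 2 * (win n : ℝ)) ^ (-(9 / 8) : ℝ) :=
    Real.rpow_le_rpow_of_nonpos hκw2 hs3 (by norm_num)
  calc (1 - PP p n m) * PP p n (m + win n) ^ 2 ≤
      (1 - PP p n m) * pm n (⌊(1 - p) * (m : ℝ)⌋₊ + s') ⌊p * (m : ℝ)⌋₊ ^ 2 :=
        mul_le_mul_of_nonneg_left hC' h1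
    _ ≤ C * (n * (s' : ℝ) ^ (-(9 / 8) : ℝ)) := hA
    _ ≤ C * (n * (κ / 2 * (win n : ℝ)) ^ (-(9 / 8) : ℝ)) := by
        apply mul_le_mul_of_nonneg_left _ hC.le
        exact mul_le_mul_of_nonneg_left h2 hnR.le
    _ ≤ ε := a1.le

theorem hyp_two (hS2 : S_SUP2) (p Λ0 : ℝ) (hp0 : 0 < p) (hp1 : p < 1)
    (N1 N2 m m1 m2 : ℕ) (d : ℝ) (h1 : 2 ≤ N1) (h2 : 2 ≤ N2) (hd : 0 ≤ d)
    (hdm : 64 / (min p (1 - p)) ^ 2 * (m : ℝ) ≤ d ^ 2)
    (hm1 : m * (N1 : ℝ) / (N1 + N2) + d ≤ m1) (hm2 : m * (N2 : ℝ) / (N1 + N2) + d ≤ m2) :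
    1 / 2 * ((((N1 : ℝ) - 1) / N1) ^ m1 * PC p Λ0 N1 m1) *
      ((((N2 : ℝ) - 1) / N2) ^ m2 * PC p Λ0 N2 m2) ≤ PC p Λ0 (N1 + N2) m := by
  have hN1 : (0 : ℝ) < N1 := by
    have : 0 < N1 := by omega
    exact_mod_cast this
  have hN2 : (0 : ℝ) < N2 := by
    have : 0 < N2 := by omega
    exact_mod_cast this
  have hN1' : (2 : ℝ) ≤ N1 := by exact_mod_cast h1
  have hN2' : (2 : ℝ) ≤ N2 := by exact_mod_cast h2
  rcases lt_or_ge (Λ0 * N1) (m1 : ℝ) with hc1 | hc1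
  · rw [PC_of_lt hc1]
    have := PC_nonneg p Λ0 (N1 + N2) m
    simpa using this
  rcases lt_or_ge (Λ0 * N2) (m2 : ℝ) with hc2 | hc2
  · rw [PC_of_lt hc2]
    have := PC_nonneg p Λ0 (N1 + N2) m
    simpa using this
  have hmΛ : (m : ℝ) ≤ Λ0 * ((N1 + N2 : ℕ) : ℝ) := by
    have h3 : m * (N1 : ℝ) / (N1 + N2) ≤ Λ0 * N1 := by linarith
    have h4 : (m : ℝ) / (N1 + N2) * N1 ≤ Λ0 * N1 := by
      calc (m : ℝ) / (N1 + N2) * N1 = m * (N1 : ℝ) / (N1 + N2) := by ring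
        _ ≤ _ := h3
    have h5 := le_of_mul_le_mul_right h4 hN1
    rw [div_le_iff₀ (by positivity)] at h5
    push_cast
    exact h5
  rw [PC_of_le hc1, PC_of_le hc2, PC_of_le hmΛ]
  have hf : ∀ (N : ℕ) (k : ℕ), 2 ≤ N → 0 ≤ ((N : ℝ) - 1) / N ∧ (((N : ℝ) - 1) / N) ^ k ≤ 1 := by
    intro N k hN
    have hN' : (2 : ℝ) ≤ N := by exact_mod_cast hN
    have a1 : 0 ≤ ((N : ℝ) - 1) / N := div_nonneg (by linarith) (by linarith)
    have a2 : ((N : ℝ) - 1) / N ≤ 1 := by rw [div_le_one (by linarith)]; linarith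
    exact ⟨a1, pow_le_one₀ a1 a2⟩
  have g1 : (((N1 : ℝ) - 1) / N1) ^ m1 * PP p N1 m1 ≤ PP p N1 m1 := by
    have := mul_le_mul_of_nonneg_right (hf N1 m1 h1).2 (PP_nonneg p N1 m1)
    linarith
  have g2 : (((N2 : ℝ) - 1) / N2) ^ m2 * PP p N2 m2 ≤ PP p N2 m2 := by
    have := mul_le_mul_of_nonneg_right (hf N2 m2 h2).2 (PP_nonneg p N2 m2)
    linarith
  have g3 : 0 ≤ (((N2 : ℝ) - 1) / N2) ^ m2 * PP p N2 m2 :=
    mul_nonneg (pow_nonneg (hf N2 m2 h2).1 _) (PP_nonneg _ _ _)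
  have g4 : 1 / 2 * ((((N1 : ℝ) - 1) / N1) ^ m1 * PP p N1 m1) *
      ((((N2 : ℝ) - 1) / N2) ^ m2 * PP p N2 m2) ≤ 1 / 2 * PP p N1 m1 * PP p N2 m2 :=
    mul_le_mul (mul_le_mul_of_nonneg_left g1 (by norm_num)) g2 g3
      (mul_nonneg (by norm_num) (PP_nonneg _ _ _))
  refine g4.trans ?_
  -- the two numbers of clauses
  set κ : ℝ := min p (1 - p) with hκd
  have hκ : 0 < κ := lt_min hp0 (by linarith)
  have hκ1 : κ ≤ p := min_le_left _ _
  have hκ2 : κ ≤ 1 - p := min_le_right _ _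
  have hm10 : (0 : ℝ) ≤ m1 := Nat.cast_nonneg _
  have hm20 : (0 : ℝ) ≤ m2 := Nat.cast_nonneg _
  rcases Nat.eq_zero_or_pos m with hm0 | hmpos
  · subst hm0
    have := hS2 N1 N2 ⌊(1 - p) * ((0 : ℕ) : ℝ)⌋₊ ⌊p * ((0 : ℕ) : ℝ)⌋₊ ⌊(1 - p) * (m1 : ℝ)⌋₊
      ⌊p * (m1 : ℝ)⌋₊ ⌊(1 - p) * (m2 : ℝ)⌋₊ ⌊p * (m2 : ℝ)⌋₊ 0 0 (by omega) (by omega) le_rfl le_rfl
      (by simp) (by simp) (by simp) (by simp) (by simp) (by simp)
    exact this
  · have hmR : (1 : ℝ) ≤ m := by exact_mod_cast hmpos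
    have hd2 : 64 ≤ (κ * d) ^ 2 := by
      have h3 : 64 / κ ^ 2 * 1 ≤ 64 / κ ^ 2 * (m : ℝ) :=
        mul_le_mul_of_nonneg_left hmR (by positivity)
      have h4 : 64 / κ ^ 2 ≤ d ^ 2 := by linarith
      rw [div_le_iff₀ (by positivity)] at h4
      rw [mul_pow]; linarith
    have hκd0 : 0 ≤ κ * d := by positivity
    have hκd8 : 8 ≤ κ * d := by nlinarith
    -- one type of clauses
    have key : ∀ q : ℝ, κ ≤ q → q ≤ 1 → ∀ (N : ℝ) (M : ℕ), 0 ≤ N / ((N1 : ℝ) + N2) →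
        m * N / (N1 + N2) + d ≤ M →
        ((⌊q * (m : ℝ)⌋₊ : ℕ) : ℝ) * N / (N1 + N2) + (q * d - 1) ≤ ((⌊q * (M : ℝ)⌋₊ : ℕ) : ℝ) := by
      intro q hq hq1 N M hN hM
      have hq0 : 0 < q := by linarith
      have b1 : ((⌊q * (m : ℝ)⌋₊ : ℕ) : ℝ) ≤ q * m := Nat.floor_le (by positivity)
      have b2 : q * (M : ℝ) < ((⌊q * (M : ℝ)⌋₊ : ℕ) : ℝ) + 1 := Nat.lt_floor_add_one _
      have b3 : ((⌊q * (m : ℝ)⌋₊ : ℕ) : ℝ) * N / (N1 + N2) ≤ q * (m * N / (N1 + N2)) := by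
        calc ((⌊q * (m : ℝ)⌋₊ : ℕ) : ℝ) * N / (N1 + N2) =
            ((⌊q * (m : ℝ)⌋₊ : ℕ) : ℝ) * (N / (N1 + N2)) := by ring
          _ ≤ (q * m) * (N / (N1 + N2)) := mul_le_mul_of_nonneg_right b1 hN
          _ = q * (m * N / (N1 + N2)) := by ring
      have b4 : q * (m * N / (N1 + N2) + d) ≤ q * M := mul_le_mul_of_nonneg_left hM hq0.le
      linarith
    have key2 : ∀ q : ℝ, κ ≤ q → q ≤ 1 → 0 ≤ q * d - 1 ∧
        8 * ((⌊q * (m : ℝ)⌋₊ : ℕ) : ℝ) ≤ (q * d - 1) ^ 2 := by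
      intro q hq hq1
      have hq0 : 0 < q := by linarith
      have c1 : 8 ≤ q * d := by
        have := mul_le_mul_of_nonneg_right hq hd
        linarith
      have c2 : (7 / 8) * (q * d) ≤ q * d - 1 := by linarith
      have c3 : ((7 / 8) * (q * d)) ^ 2 ≤ (q * d - 1) ^ 2 := pow_le_pow_left₀ (by positivity) c2 2
      have c4 : ((⌊q * (m : ℝ)⌋₊ : ℕ) : ℝ) ≤ q * m := Nat.floor_le (by positivity)
      have c5 : 64 * (m : ℝ) ≤ κ ^ 2 * d ^ 2 := by
        have := hdm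
        rw [div_mul_eq_mul_div, div_le_iff₀ (by positivity)] at this
        linarith
      have c6 : κ ^ 2 * d ^ 2 ≤ q * d ^ 2 := by
        apply mul_le_mul_of_nonneg_right _ (sq_nonneg d)
        nlinarith
      have c7 : 8 * (q * (m : ℝ)) ≤ q * (q * d ^ 2) / 8 := by
        have : 64 * (m : ℝ) ≤ q * d ^ 2 := c5.trans c6
        have := mul_le_mul_of_nonneg_left this hq0.le
        linarith
      refine ⟨by linarith, ?_⟩
      nlinarith [sq_nonneg (q * d)]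
    have e1 := key2 (1 - p) hκ2 (by linarith)
    have e2 := key2 p hκ1 hp1.le
    have hNN : (0 : ℝ) < (N1 : ℝ) + N2 := by positivity
    exact hS2 N1 N2 ⌊(1 - p) * (m : ℝ)⌋₊ ⌊p * (m : ℝ)⌋₊ ⌊(1 - p) * (m1 : ℝ)⌋₊
      ⌊p * (m1 : ℝ)⌋₊ ⌊(1 - p) * (m2 : ℝ)⌋₊ ⌊p * (m2 : ℝ)⌋₊ ((1 - p) * d - 1) (p * d - 1)
      (by omega) (by omega) e1.1 e2.1 e1.2 e2.2
      (key (1 - p) hκ2 (by linarith) N1 m1 (by positivity) hm1)
      (key (1 - p) hκ2 (by linarith) N2 m2 (by positivity) hm2)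
      (key p hκ1 hp1.le N1 m1 (by positivity) hm1)
      (key p hκ1 hp1.le N2 m2 (by positivity) hm2)

theorem hyp_one (hS1 : S_SUP1) (p Λ0 : ℝ) (hp0 : 0 < p) (hp1 : p < 1) (hΛ0 : 0 < Λ0) (n m : ℕ)
    (hn : 2 ≤ n) : (((n : ℝ) - 1) / n) ^ m * PC p Λ0 n m ≤ PC p Λ0 (n + 1) m := by
  have hn' : (2 : ℝ) ≤ n := by exact_mod_cast hn
  rcases lt_or_ge (Λ0 * n) (m : ℝ) with hc | hc
  · rw [PC_of_lt hc, mul_zero]
    exact PC_nonneg _ _ _ _
  · have hc' : (m : ℝ) ≤ Λ0 * ((n + 1 : ℕ) : ℝ) := by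
      push_cast
      nlinarith
    rw [PC_of_le hc, PC_of_le hc']
    unfold PP
    refine le_trans ?_ (hS1 n _ _ (by omega))
    apply mul_le_mul_of_nonneg_right _ (pm_nonneg _ _ _)
    have hm0 : (0 : ℝ) ≤ m := Nat.cast_nonneg m
    have h1 : ⌊(1 - p) * (m : ℝ)⌋₊ + ⌊p * (m : ℝ)⌋₊ ≤ m := by
      have := floor_add_ge (x := (1 - p) * (m : ℝ)) (y := p * (m : ℝ))
        (mul_nonneg (by linarith) hm0) (by positivity)
      refine this.trans (le_of_eq ?_)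
      have e : (1 - p) * (m : ℝ) + p * m = m := by ring
      rw [e, Nat.floor_natCast]
    have h2 : ((n : ℝ) - 1) / n ≤ (n : ℝ) / (n + 1) := by
      rw [div_le_div_iff₀ (by linarith) (by linarith)]
      nlinarith
    have h3 : 0 ≤ ((n : ℝ) - 1) / n := div_nonneg (by linarith) (by linarith)
    have h4 : (n : ℝ) / (n + 1) ≤ 1 := by rw [div_le_one (by linarith)]; linarith
    calc (((n : ℝ) - 1) / n) ^ m ≤ ((n : ℝ) / (n + 1)) ^ m := pow_le_pow_left₀ h3 h2 m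
      _ ≤ _ := pow_le_pow_of_le_one (by positivity) h4 h1

theorem hyp_all (hSH : S_SHARP) (hS1 : S_SUP1) (hS2 : S_SUP2) (p Λ0 : ℝ) (hp0 : 0 < p)
    (hp1 : p < 1) (hΛ0 : 0 < Λ0) (hsub : (1 - p) * Λ0 < 1) :
    HypA (64 / (min p (1 - p)) ^ 2) (1 / 18) win 2 (fun n m => PC p Λ0 n m) := by
  have hκ : 0 < min p (1 - p) := lt_min hp0 (by linarith)
  have hκ3 : min p (1 - p) ≤ 1 := (min_le_left _ _).trans hp1.le
  refine
    { hA := ?_
      hc0 := by norm_num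
      hc2 := by norm_num
      hn1 := le_rfl
      h0 := ?_
      hnn := fun n m => PC_nonneg _ _ _ _
      hanti := ?_
      hfm := ?_
      hwin := ?_
      hsharp := ?_
      hone := fun n m hn => hyp_one hS1 p Λ0 hp0 hp1 hΛ0 n m hn
      htwo := fun N1 N2 m m1 m2 d h1 h2 hd hdm hm1 hm2 =>
        hyp_two hS2 p Λ0 hp0 hp1 N1 N2 m m1 m2 d h1 h2 hd hdm hm1 hm2 }
  · rw [le_div_iff₀ (by positivity)]
    nlinarith
  · intro n
    have h : ((0 : ℕ) : ℝ) ≤ Λ0 * n := by simp; positivity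
    show PC p Λ0 n 0 = 1
    rw [PC_of_le h]
    unfold PP
    simp [pm_zero]
  · intro n m
    rcases lt_or_ge (Λ0 * n) (((m + 1 : ℕ)) : ℝ) with hc | hc
    · show PC p Λ0 n (m + 1) ≤ PC p Λ0 n m
      rw [PC_of_lt hc]; exact PC_nonneg _ _ _ _
    · have hc' : (m : ℝ) ≤ Λ0 * n := by push_cast at hc; linarith
      show PC p Λ0 n (m + 1) ≤ PC p Λ0 n m
      rw [PC_of_le hc, PC_of_le hc']
      exact PP_anti p hp0.le hp1.le n (Nat.le_succ m)
  · refine ⟨2 ^ Λ0, 1 / 2, Real.one_le_rpow (by norm_num) hΛ0.le, by norm_num, by norm_num, ?_⟩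
    intro n m _
    show PC p Λ0 n m ≤ _
    rcases lt_or_ge (Λ0 * n) (m : ℝ) with hc | hc
    · rw [PC_of_lt hc]; positivity
    · refine (PC_le_PP _ _ _ _).trans ((PP_le_one _ _ _).trans ?_)
      rw [← Real.rpow_natCast ((2 : ℝ) ^ Λ0) n, ← Real.rpow_mul (by norm_num), one_div,
        inv_pow, ← Real.rpow_natCast (2 : ℝ) m, ← Real.rpow_neg (by norm_num), ← Real.rpow_add (by norm_num)]
      exact Real.one_le_rpow (by norm_num) (by linarith)
  · intro n _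
    have := win_le_rpow n
    norm_num at this ⊢
    exact this
  · intro Λ δ hδ
    obtain ⟨n0, h⟩ := hyp_sharp hSH p Λ0 hp0 hp1 hΛ0 hsub δ hδ
    exact ⟨n0, fun n m hn _ => h n m hn⟩

/-! ### the threshold in the model of independent literals -/

/-- threshold below the 2-SAT line -/
theorem thr_pm (hSH : S_SHARP) (hS1 : S_SUP1) (hS2 : S_SUP2) (hCV : S_CONV) (hPOS : S_POS)
    (p : ℝ) (hp0 : 0 < p) (hp1 : p < 1) :
    ∃ αs : ℝ, 0 < αs ∧ αs ≤ 1 / (1 - p) ∧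
      (∀ r : ℝ, 0 < r → r < αs → Tendsto (fun n : ℕ => PP p n ⌊r * (n : ℝ)⌋₊) atTop (nhds 1)) ∧
      (αs < 1 / (1 - p) → ∀ r : ℝ, αs < r →
        Tendsto (fun n : ℕ => PP p n ⌊r * (n : ℝ)⌋₊) atTop (nhds 0)) := by
  have h1p : 0 < 1 - p := by linarith
  set T : ℝ := 1 / (1 - p) with hT
  have hT0 : 0 < T := by positivity
  have hconv : ∀ Λ0 : ℝ, 0 < Λ0 → Λ0 < T → ∃ rs : ℝ,
      (∀ r, r < rs → Tendsto (fun n : ℕ => PC p Λ0 n ⌊r * (n : ℝ)⌋₊) atTop (nhds 1)) ∧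
      (∀ r, rs < r → Tendsto (fun n : ℕ => PC p Λ0 n ⌊r * (n : ℝ)⌋₊) atTop (nhds 0)) := by
    intro Λ0 h0 h1
    have hsub : (1 - p) * Λ0 < 1 := by
      rw [hT, lt_div_iff₀ h1p] at h1
      linarith
    exact hCV _ _ _ _ _ (hyp_all hSH hS1 hS2 p Λ0 hp0 hp1 h0 hsub)
  choose! rs hrs1 hrs0 using hconv
  have hle : ∀ (r Λ0 : ℝ) (n : ℕ), 0 ≤ r → r ≤ Λ0 → ((⌊r * (n : ℝ)⌋₊ : ℕ) : ℝ) ≤ Λ0 * n := by
    intro r Λ0 n h0 h1
    refine (Nat.floor_le (by positivity)).trans ?_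
    exact mul_le_mul_of_nonneg_right h1 (Nat.cast_nonneg n)
  by_cases hcase : ∃ Λ0, 0 < Λ0 ∧ Λ0 < T ∧ rs Λ0 < Λ0
  · obtain ⟨Λ0, h0, h1, h2⟩ := hcase
    have hlow : ∀ r : ℝ, 0 < r → r < rs Λ0 →
        Tendsto (fun n : ℕ => PP p n ⌊r * (n : ℝ)⌋₊) atTop (nhds 1) := by
      intro r hr0 hr
      have h := hrs1 Λ0 h0 h1 r hr
      refine h.congr fun n => ?_
      rw [PC_of_le (hle r Λ0 n hr0.le (by linarith))]
    have hup : ∀ r : ℝ, 0 < r → rs Λ0 < r →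
        Tendsto (fun n : ℕ => PP p n ⌊r * (n : ℝ)⌋₊) atTop (nhds 0) := by
      intro r hr0 hr
      set r' : ℝ := min r ((max (rs Λ0) 0 + Λ0) / 2) with hr'
      have hmx : max (rs Λ0) 0 < Λ0 := max_lt h2 h0
      have a1 : rs Λ0 < r' := by
        apply lt_min hr
        have : rs Λ0 ≤ max (rs Λ0) 0 := le_max_left _ _
        linarith
      have a2 : 0 < r' := by
        apply lt_min hr0
        have : 0 ≤ max (rs Λ0) 0 := le_max_right _ _
        linarith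
      have a3 : r' ≤ Λ0 := by
        refine (min_le_right _ _).trans ?_
        linarith
      have h := hrs0 Λ0 h0 h1 r' a1
      refine squeeze_zero (fun n => PP_nonneg _ _ _) (fun n => ?_) h
      rw [PC_of_le (hle r' Λ0 n a2.le a3)]
      apply PP_anti p hp0.le hp1.le
      apply Nat.floor_le_floor
      exact mul_le_mul_of_nonneg_right (min_le_left _ _) (Nat.cast_nonneg n)
    have hpos : 0 < rs Λ0 := by
      by_contra hcon
      push Not at hcon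
      obtain ⟨r0, hr0, n0, hps⟩ := hPOS
      have h := hup r0 hr0 (by linarith)
      have hev := (h.eventually_lt_const (show (0 : ℝ) < 1 / 2 by norm_num)).and
        ((eventually_ge_atTop n0).and (eventually_ge_atTop 1))
      obtain ⟨n, hn1, hn2, hn3⟩ := hev.exists
      have h3 : 1 / 2 ≤ PP p n ⌊r0 * (n : ℝ)⌋₊ := by
        unfold PP
        refine le_trans ?_ (ps_le_pm n _ _ (by omega))
        apply hps n _ hn2
        have hm0 : (0 : ℝ) ≤ ((⌊r0 * (n : ℝ)⌋₊ : ℕ) : ℝ) := Nat.cast_nonneg _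
        have b1 : ((⌊(1 - p) * ((⌊r0 * (n : ℝ)⌋₊ : ℕ) : ℝ)⌋₊ : ℕ) : ℝ) ≤
            (1 - p) * ((⌊r0 * (n : ℝ)⌋₊ : ℕ) : ℝ) := Nat.floor_le (by positivity)
        have b2 : ((⌊p * ((⌊r0 * (n : ℝ)⌋₊ : ℕ) : ℝ)⌋₊ : ℕ) : ℝ) ≤
            p * ((⌊r0 * (n : ℝ)⌋₊ : ℕ) : ℝ) := Nat.floor_le (by positivity)
        have b3 : ((⌊r0 * (n : ℝ)⌋₊ : ℕ) : ℝ) ≤ r0 * n := Nat.floor_le (by positivity)
        push_cast
        linarith
      linarith
    exact ⟨rs Λ0, hpos, by linarith, hlow, fun _ r hr => hup r (by linarith) hr⟩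
  · push Not at hcase
    refine ⟨T, hT0, le_rfl, fun r hr0 hr => ?_, fun h => absurd h (lt_irrefl _)⟩
    have a1 : 0 < (r + T) / 2 := by positivity
    have a2 : (r + T) / 2 < T := by linarith
    have h := hrs1 ((r + T) / 2) a1 a2 r (lt_of_lt_of_le (by linarith) (hcase _ a1 a2))
    refine h.congr fun n => ?_
    rw [PC_of_le (hle r _ n hr0.le (by linarith))]

/-! ### the theorem -/

theorem satP_nonneg (n m2 m3 : ℕ) : 0 ≤ satP n m2 m3 := by unfold satP; positivity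

theorem satP_le_one (n m2 m3 : ℕ) : satP n m2 m3 ≤ 1 := by
  unfold satP
  have : Finite (Clause n 2) := by unfold Clause; infer_instance
  have : Finite (Clause n 3) := by unfold Clause; infer_instance
  apply div_le_one_of_le₀ _ (Nat.cast_nonneg _)
  exact_mod_cast Nat.card_le_card_of_injective _ Subtype.val_injective

theorem main (hSH : S_SHARP) (hS1 : S_SUP1) (hS2 : S_SUP2) (hCV : S_CONV) (hPOS : S_POS)
    (hTWO : S_TWO) (hMO : S_MO) (hTR : S_TR) :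
    ∀ p : ℝ, 0 ≤ p → p ≤ 1 → ∃ αs : ℝ, 0 < αs ∧ ∀ α2 α3 : ℝ, 0 < α2 → 0 < α3 →
      α3 / (α2 + α3) = p →
      (α2 + α3 < αs →
        Tendsto (fun n : ℕ => satP n ⌊α2 * (n : ℝ)⌋₊ ⌊α3 * (n : ℝ)⌋₊) atTop (nhds 1)) ∧
      (αs < α2 + α3 →
        Tendsto (fun n : ℕ => satP n ⌊α2 * (n : ℝ)⌋₊ ⌊α3 * (n : ℝ)⌋₊) atTop (nhds 0)) := by
  intro p hp0 hp1
  by_cases hpp : 0 < p ∧ p < 1
  swap
  · refine ⟨1, one_pos, fun α2 α3 h2 h3 hp => absurd ⟨?_, ?_⟩ hpp⟩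
    · rw [← hp]; positivity
    · rw [← hp, div_lt_one (by positivity)]; linarith
  obtain ⟨hp0', hp1'⟩ := hpp
  have h1p : 0 < 1 - p := by linarith
  obtain ⟨αs, hα0, hαT, hlow, hup⟩ := thr_pm hSH hS1 hS2 hCV hPOS p hp0' hp1'
  refine ⟨αs, hα0, fun α2 α3 h2 h3 hp => ?_⟩
  set α : ℝ := α2 + α3 with hα
  have hαpos : 0 < α := by positivity
  have e3 : α3 = p * α := by
    rw [← hp]; field_simp
  have e2 : α2 = (1 - p) * α := by
    have : α2 = α - α3 := by rw [hα]; ring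
    rw [this, e3]; ring
  obtain ⟨c, hc, n0, hcmp⟩ := hTR α
  have hcmp' : ∀ n : ℕ, n0 ≤ n →
      satP n ⌊α2 * (n : ℝ)⌋₊ ⌊α3 * (n : ℝ)⌋₊ ≤ pm n ⌊α2 * (n : ℝ)⌋₊ ⌊α3 * (n : ℝ)⌋₊ / c ∧
      1 - satP n ⌊α2 * (n : ℝ)⌋₊ ⌊α3 * (n : ℝ)⌋₊ ≤
        (1 - pm n ⌊α2 * (n : ℝ)⌋₊ ⌊α3 * (n : ℝ)⌋₊) / c := by
    intro n hn
    have hn0 : (0 : ℝ) ≤ n := Nat.cast_nonneg n
    apply hcmp n _ _ hn
    · refine (Nat.floor_le (by positivity)).trans ?_
      exact mul_le_mul_of_nonneg_right (by linarith) hn0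
    · refine (Nat.floor_le (by positivity)).trans ?_
      exact mul_le_mul_of_nonneg_right (by linarith) hn0
  constructor
  · intro hlt
    set r : ℝ := (α + αs) / 2 with hr
    have hr1 : α < r := by rw [hr]; linarith
    have hr2 : r < αs := by rw [hr]; linarith
    have hr0 : 0 < r := by linarith
    have h := hlow r hr0 hr2
    -- eventually fewer clauses
    have hev : ∀ᶠ n : ℕ in atTop, PP p n ⌊r * (n : ℝ)⌋₊ ≤
        pm n ⌊α2 * (n : ℝ)⌋₊ ⌊α3 * (n : ℝ)⌋₊ := by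
      have hbig : ∀ᶠ n : ℕ in atTop, 1 / (r - α) ≤ (n : ℝ) :=
        tendsto_natCast_atTop_atTop.eventually_ge_atTop _
      filter_upwards [hbig] with n hn
      have hn0 : (0 : ℝ) ≤ n := Nat.cast_nonneg n
      have h1 : 1 ≤ (r - α) * n := by
        rw [div_le_iff₀ (by linarith)] at hn
        linarith
      have h4 : r * n - 1 < ((⌊r * (n : ℝ)⌋₊ : ℕ) : ℝ) := by
        have := Nat.lt_floor_add_one (r * (n : ℝ))
        linarith
      have h5 : α * n ≤ ((⌊r * (n : ℝ)⌋₊ : ℕ) : ℝ) := by nlinarith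
      unfold PP
      apply pm_anti
      · apply Nat.floor_le_floor
        rw [e2]
        calc (1 - p) * α * n = (1 - p) * (α * n) := by ring
          _ ≤ _ := mul_le_mul_of_nonneg_left h5 h1p.le
      · apply Nat.floor_le_floor
        rw [e3]
        calc p * α * n = p * (α * n) := by ring
          _ ≤ _ := mul_le_mul_of_nonneg_left h5 hp0
    have hpm : Tendsto (fun n : ℕ => (1 - PP p n ⌊r * (n : ℝ)⌋₊) / c) atTop (nhds 0) := by
      have h1 : Tendsto (fun n : ℕ => (1 - PP p n ⌊r * (n : ℝ)⌋₊) / c) atTop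
          (nhds ((1 - 1) / c)) := (tendsto_const_nhds.sub h).div_const c
      simpa using h1
    have h6 : Tendsto (fun n : ℕ => 1 - satP n ⌊α2 * (n : ℝ)⌋₊ ⌊α3 * (n : ℝ)⌋₊) atTop (nhds 0) := by
      refine squeeze_zero' (Eventually.of_forall fun n => ?_) ?_ hpm
      · linarith [satP_le_one n ⌊α2 * (n : ℝ)⌋₊ ⌊α3 * (n : ℝ)⌋₊]
      · filter_upwards [hev, eventually_ge_atTop n0] with n hn hn'
        refine (hcmp' n hn').2.trans ?_
        exact div_le_div_of_nonneg_right (by linarith) hc.le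
    have h7 := (tendsto_const_nhds (x := (1 : ℝ))).sub h6
    simpa using h7
  · intro hgt
    rcases lt_or_eq_of_le hαT with hcase | hcase
    · set r : ℝ := (α + αs) / 2 with hr
      have hr1 : r < α := by rw [hr]; linarith
      have hr2 : αs < r := by rw [hr]; linarith
      have hr0 : 0 < r := by linarith
      have h := hup hcase r hr2
      have hpm : Tendsto (fun n : ℕ => PP p n ⌊r * (n : ℝ)⌋₊ / c) atTop (nhds 0) := by
        have := h.div_const c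
        simpa using this
      refine squeeze_zero' (Eventually.of_forall fun n => satP_nonneg _ _ _) ?_ hpm
      filter_upwards [eventually_ge_atTop n0] with n hn
      refine (hcmp' n hn).1.trans ?_
      apply div_le_div_of_nonneg_right _ hc.le
      have hn0 : (0 : ℝ) ≤ n := Nat.cast_nonneg n
      have h4 : ((⌊r * (n : ℝ)⌋₊ : ℕ) : ℝ) ≤ r * n := Nat.floor_le (by positivity)
      have h5 : ((⌊r * (n : ℝ)⌋₊ : ℕ) : ℝ) ≤ α * n :=
        h4.trans (mul_le_mul_of_nonneg_right hr1.le hn0)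
      unfold PP
      apply pm_anti
      · apply Nat.floor_le_floor
        rw [e2]
        calc (1 - p) * ((⌊r * (n : ℝ)⌋₊ : ℕ) : ℝ) ≤ (1 - p) * (α * n) :=
              mul_le_mul_of_nonneg_left h5 h1p.le
          _ = _ := by ring
      · apply Nat.floor_le_floor
        rw [e3]
        calc p * ((⌊r * (n : ℝ)⌋₊ : ℕ) : ℝ) ≤ p * (α * n) :=
              mul_le_mul_of_nonneg_left h5 hp0
          _ = _ := by ring
    · have h21 : 1 < α2 := by
        rw [e2]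
        rw [hcase, div_lt_iff₀ h1p] at hgt
        linarith
      refine squeeze_zero' (Eventually.of_forall fun n => satP_nonneg _ _ _) ?_ (hTWO α2 h21)
      filter_upwards [eventually_ge_atTop 3] with n hn
      exact hMO n _ _ _ _ le_rfl (Nat.zero_le _) hn

end Pool.Agent.W840.TP
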