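import Pool.Agent.W840.TP.Rec
import Pool.Agent.H999R2.KSat.TE

/-! # Mean effects -/

set_option autoImplicit false

namespace Pool.Agent.W840.TP

open Finset Filter Pool.Agent.H999R2.KSat

/-- clauses of one literal -/
theorem E_cl_one {n : ℕ} (f : Cl n 1 → ℝ) : E f = E (fun l : Lit n => f (fun _ => l)) := by
  rw [← E_equiv (Equiv.funUnique (Fin 1) (Lit n)).symm f]
  refine E_congr fun l => ?_
  congr 1

theorem ub : S_UB := by
  intro n s B hn
  have h := tail_effect 1 s (Nat.sqrt s + 1) hn (by omega) B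
  rw [pow_one] at h
  refine le_trans (le_of_eq ?_) h
  rw [E_cl_one]
  refine E_congr fun l => ?_
  unfold DD
  congr 2
  ext a
  simp only [Set.mem_inter_iff, Set.mem_ofPred_eq, sc, exists_const]

/-- **mean effect of a random 2-clause** -/
theorem cb : S_CB := by
  intro n s A hn
  have hne : Nonempty (Cl n 2) := ⟨fun _ => (⟨0, hn⟩, true)⟩
  set a : ℕ → ℝ := fun u => E (fun W : Fin s → Cl n 2 =>
    ind (∃ σ ∈ A, ∀ l : Fin s, l.val < u → sc σ (W l))) with ha
  have h1 : RA 2 s A = ∑ u ∈ range s, a u := by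
    unfold RA
    rw [E_sum]
  have h2 : E (fun e : Cl n 2 => RA 2 s (A ∩ {σ | sc σ e})) = ∑ u ∈ range s, a (u + 1) := by
    unfold RA
    have h3 : ∀ e : Cl n 2, E (fun W : Fin s → Cl n 2 => ∑ u ∈ range s,
        ind (∃ σ ∈ A ∩ {σ | sc σ e}, ∀ l : Fin s, l.val < u → sc σ (W l))) =
        ∑ u ∈ range s, E (fun W : Fin s → Cl n 2 =>
          ind (∃ σ ∈ A ∩ {σ | sc σ e}, ∀ l : Fin s, l.val < u → sc σ (W l))) := fun e => by
      rw [E_sum]
    rw [E_congr h3, E_sum]
    refine Finset.sum_congr rfl fun u hu => ?_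
    rw [mem_range] at hu
    rw [E_comm]
    simp only [ha]
    rw [E_update (X := Cl n 2) (⟨u, hu⟩ : Fin s) (fun W => ind (∃ σ ∈ A, ∀ l : Fin s,
      l.val < u + 1 → sc σ (W l)))]
    refine E_congr fun W => E_congr fun e => ind_congr ?_
    constructor
    · rintro ⟨σ, ⟨hσ, hσe⟩, hW⟩
      refine ⟨σ, hσ, fun l hl => ?_⟩
      by_cases hlu : l = ⟨u, hu⟩
      · subst hlu
        rw [Function.update_self]
        exact hσe
      · rw [Function.update_of_ne hlu]
        have : l.val ≠ u := fun h => hlu (Fin.ext h)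
        exact hW l (by omega)
    · rintro ⟨σ, hσ, hW⟩
      refine ⟨σ, ⟨hσ, ?_⟩, fun l hl => ?_⟩
      · have := hW ⟨u, hu⟩ (Nat.lt_succ_self u)
        rwa [Function.update_self] at this
      · have hlu : l ≠ ⟨u, hu⟩ := fun h => by
          have : l.val = u := congrArg Fin.val h
          omega
        have := hW l (by omega)
        rwa [Function.update_of_ne hlu] at this
  rw [E_sub, E_const, h2, h1, ← Finset.sum_sub_distrib, Finset.sum_range_sub']
  have h4 : a 0 ≤ 1 := E_le_of_nonneg zero_le_one fun _ => ind_le_one _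
  have h5 : 0 ≤ a s := E_nonneg fun _ => ind_nonneg _
  linarith

/-! ### literals over `n + 1` variables -/

theorem E_lit_succ {n : ℕ} (v : Fin (n + 1)) (hn : 0 < n) (g : Lit (n + 1) → ℝ) :
    E g = (1 / (2 * ((n : ℝ) + 1))) * (g (v, true) + g (v, false)) +
      ((n : ℝ) / (n + 1)) * E (fun l : Lit n => g (lif v l)) := by
  have hn' : (0 : ℝ) < n := by exact_mod_cast hn
  unfold E lif
  rw [Fintype.sum_prod_type, Fintype.sum_prod_type, Fin.sum_univ_succAbove _ v]
  simp only [Fintype.card_prod, Fintype.card_fin, Fintype.card_bool, Fintype.sum_bool]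
  push_cast
  field_simp

/-- upper bound for the mean over literals over `n + 1` variables of a function which vanishes at
`(v, b)` -/
theorem E_lit_le {n : ℕ} (v : Fin (n + 1)) (b : Bool) (hn : 0 < n) (g : Lit (n + 1) → ℝ)
    (h0 : g (v, b) = 0) :
    E g = (1 / (2 * ((n : ℝ) + 1))) * g (v, !b) +
      ((n : ℝ) / (n + 1)) * E (fun l : Lit n => g (lif v l)) := by
  rw [E_lit_succ v hn]
  cases b
  · simp only [Bool.not_false]; rw [h0, add_zero]
  · simp only [Bool.not_true]; rw [h0, zero_add]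

theorem ratio_le_one (n : ℕ) : (n : ℝ) / (n + 1) ≤ 1 := by
  rw [div_le_one (by positivity)]; linarith

theorem LL_le (n s : ℕ) (hn : 0 < n) (hs : s ≤ n) : LL s ≤ 3 * ((n : ℝ) + 1) := by
  have hn' : (1 : ℝ) ≤ n := by exact_mod_cast hn
  rcases Nat.eq_zero_or_pos s with h | h
  · subst h
    unfold LL
    norm_num
    linarith
  · obtain ⟨h1, _, _⟩ := sqrt_facts s h
    have hs' : (s : ℝ) ≤ n := by exact_mod_cast hs
    have h2 : Real.sqrt s ≤ n := by
      rw [Real.sqrt_le_left (by linarith)]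
      nlinarith
    linarith

/-- the clause made of the two literals `l1`, `l2`, with `b` inserted at `v` -/
def two {n : ℕ} (v : Fin (n + 1)) (b : Bool) (l1 l2 : Lit (n + 1)) : Set (Asg n) :=
  {a | ext v b a l1.1 = l1.2 ∨ ext v b a l2.1 = l2.2}

theorem two_mean {n : ℕ} (s : ℕ) (v : Fin (n + 1)) (b : Bool) (B : Set (Asg n)) (hn : 0 < n)
    (hs : s ≤ n) :
    E (fun l1 : Lit (n + 1) => E (fun l2 : Lit (n + 1) => RA 2 s B - RA 2 s (B ∩ two v b l1 l2))) ≤
      5 := by
  have hn' : (0 : ℝ) < n := by exact_mod_cast hn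
  have hn1 : (0 : ℝ) < (n : ℝ) + 1 := by linarith
  have hneL : Nonempty (Lit n) := ⟨(⟨0, hn⟩, true)⟩
  have hneL1 : Nonempty (Lit (n + 1)) := ⟨(0, true)⟩
  set g : Lit (n + 1) → Lit (n + 1) → ℝ := fun l1 l2 => RA 2 s B - RA 2 s (B ∩ two v b l1 l2)
    with hg
  have hz1 : ∀ l2, g (v, b) l2 = 0 := by
    intro l2
    rw [hg]
    simp only
    have : B ∩ two v b (v, b) l2 = B := by
      ext a
      simp only [two, Set.mem_inter_iff, Set.mem_ofPred_eq, ext_self, true_or, and_true]
    rw [this, sub_self]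
  have hz2 : ∀ l1, g l1 (v, b) = 0 := by
    intro l1
    rw [hg]
    simp only
    have : B ∩ two v b l1 (v, b) = B := by
      ext a
      simp only [two, Set.mem_inter_iff, Set.mem_ofPred_eq, ext_self, or_true, and_true]
    rw [this, sub_self]
  have hgs : ∀ l1 l2, g l1 l2 ≤ s := by
    intro l1 l2
    rw [hg]
    simp only
    have h1 : RA 2 s B ≤ s := by
      unfold RA
      refine E_le_of_nonneg (Nat.cast_nonneg s) fun W => ?_
      calc _ ≤ ∑ u ∈ range s, (1 : ℝ) := Finset.sum_le_sum fun u _ => ind_le_one _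
        _ = s := by simp
    have h2 := RA_nonneg 2 s (B ∩ two v b l1 l2)
    linarith
  have hg0 : ∀ l1 l2, 0 ≤ g l1 l2 := fun l1 l2 => sub_nonneg.2 (RA_mono 2 s Set.inter_subset_left)
  have hnb : (!b) ≠ b := by cases b <;> simp
  -- one literal at `v`
  have hu1 : E (fun l : Lit n => g (v, !b) (lif v l)) ≤ LL s := by
    refine le_trans (le_of_eq (E_congr fun l => ?_)) (ub n s B hn)
    rw [hg]
    unfold DD
    simp only
    congr 2
    ext a
    simp only [two, lif, Set.mem_inter_iff, Set.mem_ofPred_eq, ext_self, ext_apply]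
    have : ¬ (b = !b) := fun h => hnb h.symm
    tauto
  have hu2 : E (fun l : Lit n => g (lif v l) (v, !b)) ≤ LL s := by
    refine le_trans (le_of_eq (E_congr fun l => ?_)) (ub n s B hn)
    rw [hg]
    unfold DD
    simp only
    congr 2
    ext a
    simp only [two, lif, Set.mem_inter_iff, Set.mem_ofPred_eq, ext_self, ext_apply]
    have : ¬ (b = !b) := fun h => hnb h.symm
    tauto
  -- no literal at `v`
  have hu3 : E (fun l1 : Lit n => E (fun l2 : Lit n => g (lif v l1) (lif v l2))) ≤ 1 := by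
    refine le_trans (le_of_eq ?_) (cb n s B hn)
    rw [E_cons (X := Lit n) (m := 1)]
    refine E_congr fun l1 => ?_
    rw [E_cl_one]
    refine E_congr fun l2 => ?_
    rw [hg]
    simp only
    congr 2
    ext a
    simp only [two, lif, Set.mem_inter_iff, Set.mem_ofPred_eq, ext_apply, sc]
    rw [Fin.exists_fin_two]
    simp
  have hg1 : ∀ l1, E (fun l2 => g l1 l2) = (1 / (2 * ((n : ℝ) + 1))) * g l1 (v, !b) +
      ((n : ℝ) / (n + 1)) * E (fun l : Lit n => g l1 (lif v l)) := fun l1 =>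
    E_lit_le v b hn (g l1) (hz2 l1)
  have e : E (fun l1 => E (fun l2 => g l1 l2)) =
      (1 / (2 * ((n : ℝ) + 1))) * ((1 / (2 * ((n : ℝ) + 1))) * g (v, !b) (v, !b) +
        ((n : ℝ) / (n + 1)) * E (fun l : Lit n => g (v, !b) (lif v l))) +
      ((n : ℝ) / (n + 1)) * ((1 / (2 * ((n : ℝ) + 1))) * E (fun l1 : Lit n => g (lif v l1) (v, !b)) +
        ((n : ℝ) / (n + 1)) * E (fun l1 : Lit n => E (fun l2 : Lit n => g (lif v l1) (lif v l2)))) := by
    rw [E_lit_le v b hn (fun l1 => E (fun l2 => g l1 l2)) (by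
      rw [E_congr (fun l2 => hz1 l2), E_zero])]
    rw [hg1]
    congr 2
    rw [E_congr (fun l : Lit n => hg1 (lif v l)), E_add, E_mul_left, E_mul_left]
  rw [e]
  have hr := ratio_le_one n
  have hr0 : 0 ≤ (n : ℝ) / (n + 1) := by positivity
  have hLL := LL_le n s hn hs
  have hc : 0 < 1 / (2 * ((n : ℝ) + 1)) := by positivity
  set c := 1 / (2 * ((n : ℝ) + 1)) with hcdef
  have hcL : c * LL s ≤ 3 / 2 := by
    rw [hcdef, one_div_mul_eq_div, div_le_iff₀ (by positivity)]
    linarith
  have hLL0 : 0 ≤ LL s := by unfold LL; positivity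
  have hs' : (s : ℝ) ≤ n := by exact_mod_cast hs
  have hcs : c * (c * s) ≤ 1 := by
    have h1 : c * s ≤ 1 := by
      rw [hcdef, one_div_mul_eq_div, div_le_iff₀ (by positivity)]
      linarith
    have h2 : c ≤ 1 := by
      rw [hcdef, div_le_iff₀ (by positivity)]
      linarith
    nlinarith
  set r := (n : ℝ) / (n + 1) with hrdef
  set x1 := E (fun l : Lit n => g (v, !b) (lif v l)) with hx1
  set x2 := E (fun l1 : Lit n => g (lif v l1) (v, !b)) with hx2
  set x3 := E (fun l1 : Lit n => E (fun l2 : Lit n => g (lif v l1) (lif v l2))) with hx3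
  have hx10 : 0 ≤ x1 := E_nonneg fun _ => hg0 _ _
  have hx20 : 0 ≤ x2 := E_nonneg fun _ => hg0 _ _
  have hx30 : 0 ≤ x3 := E_nonneg fun _ => E_nonneg fun _ => hg0 _ _
  have b1 : c * (c * g (v, !b) (v, !b)) ≤ 1 := by
    have := hgs (v, !b) (v, !b)
    have := mul_le_mul_of_nonneg_left this hc.le
    have := mul_le_mul_of_nonneg_left this hc.le
    linarith
  have b2 : c * (r * x1) ≤ 3 / 2 := by
    have h1 : r * x1 ≤ 1 * LL s := mul_le_mul hr hu1 hx10 zero_le_one
    have := mul_le_mul_of_nonneg_left h1 hc.le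
    linarith
  have b3 : r * (c * x2) ≤ 3 / 2 := by
    have h1 : c * x2 ≤ c * LL s := mul_le_mul_of_nonneg_left hu2 hc.le
    have h2 : 0 ≤ c * x2 := by positivity
    nlinarith
  have b4 : r * (r * x3) ≤ 1 := by
    have h1 : r * x3 ≤ 1 * 1 := mul_le_mul hr hu3 hx30 zero_le_one
    have h2 : 0 ≤ r * x3 := by positivity
    nlinarith
  have e2 : c * (c * g (v, !b) (v, !b) + r * x1) + r * (c * x2 + r * x3) =
      c * (c * g (v, !b) (v, !b)) + c * (r * x1) + r * (c * x2) + r * (r * x3) := by ring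
  rw [e2]
  linarith

end Pool.Agent.W840.TP
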