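import Pool.Agent.W840.TP.ME

/-! # Mean effect of the 3-clauses containing `v` -/

set_option autoImplicit false

namespace Pool.Agent.W840.TP

open Finset Filter Pool.Agent.H999R2.KSat

theorem lit_opp {n : ℕ} (v : Fin (n + 1)) (b : Bool) (l : Lit (n + 1)) (h1 : l.1 = v)
    (h2 : l ≠ (v, b)) : l = (v, !b) := by
  refine Prod.ext h1 ?_
  show l.2 = !b
  have : l.2 ≠ b := fun h => h2 (Prod.ext h1 h)
  cases hb : b <;> cases hc : l.2 <;> simp_all

theorem qe_clause {n : ℕ} (s : ℕ) (v : Fin (n + 1)) (b : Bool) (B : Set (Asg n)) (hn : 0 < n)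
    (hs : s ≤ n) :
    E (fun c : Cl (n + 1) 3 => ind (inv v c) * (RA 2 s B - RA 2 s (B ∩ {a | sc (ext v b a) c}))) ≤
      30 / ((n : ℝ) + 1) := by
  have hn1 : (0 : ℝ) < (n : ℝ) + 1 := by positivity
  have hpt : ∀ c : Cl (n + 1) 3,
      ind (inv v c) * (RA 2 s B - RA 2 s (B ∩ {a | sc (ext v b a) c})) ≤
      ∑ p : Fin 3, ind (c p = (v, !b)) * (RA 2 s B -
        RA 2 s (B ∩ two v b (c (p.succAbove 0)) (c (p.succAbove 1)))) := by
    intro c
    have hterm : ∀ p : Fin 3, 0 ≤ ind (c p = (v, !b)) * (RA 2 s B -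
        RA 2 s (B ∩ two v b (c (p.succAbove 0)) (c (p.succAbove 1)))) := fun p =>
      mul_nonneg (ind_nonneg _) (sub_nonneg.2 (RA_mono 2 s Set.inter_subset_left))
    by_cases hi : inv v c
    · rw [ind_true hi, one_mul]
      by_cases hb : ∃ p, c p = (v, b)
      · obtain ⟨p, hp⟩ := hb
        have : B ∩ {a | sc (ext v b a) c} = B := by
          ext a
          simp only [Set.mem_inter_iff, Set.mem_ofPred_eq, and_iff_left_iff_imp]
          intro _
          refine ⟨p, ?_⟩
          rw [hp]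
          exact ext_self v b a
        rw [this, sub_self]
        exact Finset.sum_nonneg fun p _ => hterm p
      · obtain ⟨p, hp⟩ := hi
        have hpe : c p = (v, !b) := lit_opp v b (c p) hp (fun h => hb ⟨p, h⟩)
        refine le_trans ?_ (Finset.single_le_sum (f := fun p : Fin 3 => ind (c p = (v, !b)) *
          (RA 2 s B - RA 2 s (B ∩ two v b (c (p.succAbove 0)) (c (p.succAbove 1)))))
          (fun p _ => hterm p) (Finset.mem_univ p))
        rw [ind_true hpe, one_mul]
        have : RA 2 s (B ∩ two v b (c (p.succAbove 0)) (c (p.succAbove 1))) ≤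
            RA 2 s (B ∩ {a | sc (ext v b a) c}) := by
          refine RA_mono 2 s ?_
          rintro a ⟨h1, h2 | h2⟩
          · exact ⟨h1, p.succAbove 0, h2⟩
          · exact ⟨h1, p.succAbove 1, h2⟩
        linarith
    · rw [ind_false hi, zero_mul]
      exact Finset.sum_nonneg fun p _ => hterm p
  refine (E_mono hpt).trans ?_
  rw [E_sum]
  have hp : ∀ p ∈ (univ : Finset (Fin 3)), E (fun c : Cl (n + 1) 3 => ind (c p = (v, !b)) *
      (RA 2 s B - RA 2 s (B ∩ two v b (c (p.succAbove 0)) (c (p.succAbove 1))))) ≤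
      1 / (2 * ((n : ℝ) + 1)) * 5 := by
    intro p _
    rw [E_insertNth p]
    have e : ∀ x : Lit (n + 1), E (fun G : Fin 2 → Lit (n + 1) =>
        ind ((p.insertNth x G : Cl (n + 1) 3) p = (v, !b)) *
        (RA 2 s B - RA 2 s (B ∩ two v b ((p.insertNth x G : Cl (n + 1) 3) (p.succAbove 0))
          ((p.insertNth x G : Cl (n + 1) 3) (p.succAbove 1))))) =
        ind (x = (v, !b)) * E (fun G : Fin 2 → Lit (n + 1) =>
          RA 2 s B - RA 2 s (B ∩ two v b (G 0) (G 1))) := by
      intro x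
      rw [← E_mul_left]
      refine E_congr fun G => ?_
      rw [Fin.insertNth_apply_same, Fin.insertNth_apply_succAbove, Fin.insertNth_apply_succAbove]
    rw [E_congr e, E_mul_right, ft_point (Nat.succ_pos n)]
    have h2 : E (fun G : Fin 2 → Lit (n + 1) => RA 2 s B - RA 2 s (B ∩ two v b (G 0) (G 1))) ≤ 5 := by
      refine le_trans (le_of_eq ?_) (two_mean s v b B hn hs)
      rw [E_cons (X := Lit (n + 1)) (m := 1)]
      refine E_congr fun l1 => ?_
      rw [E_cl_one]
      refine E_congr fun l2 => ?_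
      simp
    push_cast
    exact mul_le_mul_of_nonneg_left h2 (by positivity)
  refine (Finset.sum_le_sum hp).trans ?_
  rw [Finset.sum_const, Finset.card_univ, Fintype.card_fin, nsmul_eq_mul]
  rw [le_div_iff₀ hn1]
  push_cast
  have : 3 * (1 / (2 * ((n : ℝ) + 1)) * 5) * ((n : ℝ) + 1) = 15 / 2 := by field_simp; norm_num
  rw [this]
  norm_num

theorem base_cons_inv {n k M : ℕ} (v : Fin (n + 1)) (c : Cl (n + 1) k) (G : Fin M → Cl (n + 1) k)
    (hc : inv v c) : base v (Fin.cons c G : Fin (M + 1) → Cl (n + 1) k) = base v G := by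
  ext a
  simp only [base, Set.mem_ofPred_eq]
  rw [Fin.forall_fin_succ]
  simp only [Fin.cons_zero, Fin.cons_succ]
  constructor
  · exact fun h => h.2
  · exact fun h => ⟨fun h' => absurd hc h', h⟩

theorem base_cons_ninv {n k M : ℕ} (v : Fin (n + 1)) (c : Cl (n + 1) k)
    (G : Fin M → Cl (n + 1) k) (hc : ¬ inv v c) :
    base v (Fin.cons c G : Fin (M + 1) → Cl (n + 1) k) = {a | sc (ext v true a) c} ∩ base v G := by
  ext a
  simp only [base, Set.mem_ofPred_eq, Set.mem_inter_iff]
  rw [Fin.forall_fin_succ]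
  simp only [Fin.cons_zero, Fin.cons_succ]
  constructor
  · rintro ⟨h1, h2⟩
    exact ⟨h1 hc, h2⟩
  · rintro ⟨h1, h2⟩
    exact ⟨fun _ => h1, h2⟩

theorem tch_cons_inv {n k M : ℕ} (v : Fin (n + 1)) (b : Bool) (c : Cl (n + 1) k)
    (G : Fin M → Cl (n + 1) k) (hc : inv v c) :
    tch v b (Fin.cons c G : Fin (M + 1) → Cl (n + 1) k) = {a | sc (ext v b a) c} ∩ tch v b G := by
  ext a
  simp only [tch, Set.mem_ofPred_eq, Set.mem_inter_iff]
  rw [Fin.forall_fin_succ]
  simp only [Fin.cons_zero, Fin.cons_succ]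
  constructor
  · rintro ⟨h1, h2⟩
    exact ⟨h1 hc, h2⟩
  · rintro ⟨h1, h2⟩
    exact ⟨fun _ => h1, h2⟩

theorem tch_cons_ninv {n k M : ℕ} (v : Fin (n + 1)) (b : Bool) (c : Cl (n + 1) k)
    (G : Fin M → Cl (n + 1) k) (hc : ¬ inv v c) :
    tch v b (Fin.cons c G : Fin (M + 1) → Cl (n + 1) k) = tch v b G := by
  ext a
  simp only [tch, Set.mem_ofPred_eq]
  rw [Fin.forall_fin_succ]
  simp only [Fin.cons_zero, Fin.cons_succ]
  constructor
  · exact fun h => h.2
  · exact fun h => ⟨fun h' => absurd h' hc, h⟩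

theorem qe : S_QE := by
  intro n s M v b B hn hs
  have hn1 : (0 : ℝ) < (n : ℝ) + 1 := by positivity
  have hne : Nonempty (Cl (n + 1) 3) := ⟨fun _ => (0, true)⟩
  induction M generalizing B with
  | zero =>
    have h : ∀ G : Fin 0 → Cl (n + 1) 3,
        RA 2 s (B ∩ base v G) - RA 2 s (B ∩ base v G ∩ tch v b G) = 0 := by
      intro G
      have : tch v b G = Set.univ := by
        ext a
        simp only [tch, Set.mem_ofPred_eq, Set.mem_univ, iff_true]
        exact fun j => j.elim0
      rw [this, Set.inter_univ, sub_self]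
    rw [E_congr h, E_zero]
    simp
  | succ M ih =>
    rw [E_cons]
    have hpt : ∀ (c : Cl (n + 1) 3) (G : Fin M → Cl (n + 1) 3),
        RA 2 s (B ∩ base v (Fin.cons c G : Fin (M + 1) → Cl (n + 1) 3)) -
          RA 2 s (B ∩ base v (Fin.cons c G : Fin (M + 1) → Cl (n + 1) 3) ∩
            tch v b (Fin.cons c G : Fin (M + 1) → Cl (n + 1) 3)) ≤
        (RA 2 s ((B ∩ {a | ¬ inv v c → sc (ext v true a) c}) ∩ base v G) -
          RA 2 s ((B ∩ {a | ¬ inv v c → sc (ext v true a) c}) ∩ base v G ∩ tch v b G)) +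
        ind (inv v c) * (RA 2 s (B ∩ base v G ∩ tch v b G) -
          RA 2 s (B ∩ base v G ∩ tch v b G ∩ {a | sc (ext v b a) c})) := by
      intro c G
      by_cases hc : inv v c
      · rw [base_cons_inv v c G hc, tch_cons_inv v b c G hc, ind_true hc, one_mul]
        have e1 : B ∩ {a | ¬ inv v c → sc (ext v true a) c} = B := by
          ext a
          simp only [Set.mem_inter_iff, Set.mem_ofPred_eq, and_iff_left_iff_imp]
          exact fun _ h => absurd hc h
        have e2 : B ∩ base v G ∩ ({a | sc (ext v b a) c} ∩ tch v b G) =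
            B ∩ base v G ∩ tch v b G ∩ {a | sc (ext v b a) c} := by
          ext a
          simp only [Set.mem_inter_iff]
          tauto
        rw [e1, e2]
        linarith
      · rw [base_cons_ninv v c G hc, tch_cons_ninv v b c G hc, ind_false hc, zero_mul, add_zero]
        have e1 : {a : Asg n | ¬ inv v c → sc (ext v true a) c} = {a | sc (ext v true a) c} := by
          ext a
          simp only [Set.mem_ofPred_eq]
          exact ⟨fun h => h hc, fun h _ => h⟩
        rw [e1, ← Set.inter_assoc]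
    refine (E_mono fun c => E_mono fun G => hpt c G).trans ?_
    have hs1 : ∀ c : Cl (n + 1) 3, E (fun G : Fin M → Cl (n + 1) 3 =>
        (RA 2 s ((B ∩ {a | ¬ inv v c → sc (ext v true a) c}) ∩ base v G) -
          RA 2 s ((B ∩ {a | ¬ inv v c → sc (ext v true a) c}) ∩ base v G ∩ tch v b G)) +
        ind (inv v c) * (RA 2 s (B ∩ base v G ∩ tch v b G) -
          RA 2 s (B ∩ base v G ∩ tch v b G ∩ {a | sc (ext v b a) c}))) ≤
        30 * (M : ℝ) / ((n : ℝ) + 1) + E (fun G : Fin M → Cl (n + 1) 3 =>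
        ind (inv v c) * (RA 2 s (B ∩ base v G ∩ tch v b G) -
          RA 2 s (B ∩ base v G ∩ tch v b G ∩ {a | sc (ext v b a) c}))) := by
      intro c
      rw [E_add]
      have := ih (B ∩ {a | ¬ inv v c → sc (ext v true a) c})
      linarith
    refine (E_mono hs1).trans ?_
    rw [E_add, E_const, E_comm]
    have h2 : E (fun G : Fin M → Cl (n + 1) 3 => E (fun c : Cl (n + 1) 3 =>
        ind (inv v c) * (RA 2 s (B ∩ base v G ∩ tch v b G) -
          RA 2 s (B ∩ base v G ∩ tch v b G ∩ {a | sc (ext v b a) c})))) ≤ 30 / ((n : ℝ) + 1) := by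
      refine E_le_of_nonneg (by positivity) fun G => ?_
      exact qe_clause s v b _ hn hs
    have e : 30 * ((M + 1 : ℕ) : ℝ) / ((n : ℝ) + 1) =
        30 * (M : ℝ) / ((n : ℝ) + 1) + 30 / ((n : ℝ) + 1) := by push_cast; ring
    rw [e]
    linarith

end Pool.Agent.W840.TP
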