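import Pool.Agent.W840.TP.Defs
import Pool.Agent.H999R2.KSat.BA
import Pool.Agent.H999R2.KSat.FT

/-! # The recursion for the probability of a large effect -/

set_option autoImplicit false

namespace Pool.Agent.W840.TP

open Finset Filter Pool.Agent.H999R2.KSat

/-- both literals of the clause are `(v, !b)` -/
def badc {n : ℕ} (v : Fin (n + 1)) (b : Bool) (c : Cl (n + 1) 2) : Prop :=
  c 0 = (v, !b) ∧ c 1 = (v, !b)

theorem marg {X : Type} [Fintype X] [Nonempty X] {m : ℕ} (j : Fin m) (f : X → ℝ) :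
    E (fun G : Fin m → X => f (G j)) = E f := by
  rw [E_update j]
  have h : ∀ G : Fin m → X, E (fun y : X => f (Function.update G j y j)) = E f :=
    fun G => E_congr fun y => by rw [Function.update_self]
  rw [E_congr h, E_const]

theorem badc_mean {n : ℕ} (v : Fin (n + 1)) (b : Bool) :
    E (fun c : Cl (n + 1) 2 => ind (badc v b c)) = (1 / (2 * ((n : ℝ) + 1))) ^ 2 := by
  have h : ∀ c : Cl (n + 1) 2, ind (badc v b c) = ∏ p, ind (c p = (v, !b)) := by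
    intro c
    unfold badc
    rw [Fin.prod_univ_two, ind_and]
  rw [E_congr h, E_pi (fun _ (l : Lit (n + 1)) => ind (l = (v, !b)))]
  simp only [ft_point (Nat.succ_pos n), Finset.prod_const, Finset.card_univ, Fintype.card_fin]
  push_cast
  rfl

theorem bad_mean {n : ℕ} (M : ℕ) (v : Fin (n + 1)) (b : Bool) :
    E (fun G : Fin M → Cl (n + 1) 2 => ind (∃ j, badc v b (G j))) ≤
      M * (1 / (2 * ((n : ℝ) + 1))) ^ 2 := by
  have : Nonempty (Cl (n + 1) 2) := ⟨fun _ => (0, true)⟩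
  refine (E_mono fun G => ind_exists_le _).trans ?_
  rw [E_sum]
  have h : ∀ j ∈ (univ : Finset (Fin M)), E (fun G : Fin M → Cl (n + 1) 2 => ind (badc v b (G j)))
      = (1 / (2 * ((n : ℝ) + 1))) ^ 2 := by
    intro j _
    rw [marg j (fun c => ind (badc v b c)), badc_mean]
  rw [Finset.sum_congr rfl h]
  simp

theorem ext_restrict {n : ℕ} (v : Fin (n + 1)) (b : Bool) (a : Asg (n + 1)) (i : Fin n) :
    ext v b (fun i => a (v.succAbove i)) (v.succAbove i) = a (v.succAbove i) := by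
  unfold ext
  rw [Fin.insertNth_apply_succAbove]

theorem ext_apply {n : ℕ} (v : Fin (n + 1)) (b : Bool) (a : Asg n) (i : Fin n) :
    ext v b a (v.succAbove i) = a i := by
  unfold ext
  rw [Fin.insertNth_apply_succAbove]

theorem ext_self {n : ℕ} (v : Fin (n + 1)) (b : Bool) (a : Asg n) :
    ext v b a v = b := by
  unfold ext
  rw [Fin.insertNth_apply_same]

/-- a clause avoiding `v` does not see the value at `v` -/
theorem sc_avoid {n k : ℕ} (v : Fin (n + 1)) (c : Cl (n + 1) k) (hc : ¬ inv v c)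
    (a a' : Asg (n + 1)) (h : ∀ i, a (v.succAbove i) = a' (v.succAbove i)) (hs : sc a c) :
    sc a' c := by
  obtain ⟨p, hp⟩ := hs
  refine ⟨p, ?_⟩
  have hne : (c p).1 ≠ v := fun h => hc ⟨p, h⟩
  obtain ⟨i, hi⟩ := Fin.exists_succAbove_eq hne
  rw [← hi] at hp ⊢
  rw [← h i]
  exact hp

theorem rec_h0 {n M2 M3 : ℕ} (v : Fin (n + 1)) (G2 : Fin M2 → Cl (n + 1) 2)
    (G3 : Fin M3 → Cl (n + 1) 3) :
    ∀ a ∈ Sol G2 ∩ Sol G3, (fun i => a (v.succAbove i)) ∈ base v G2 ∩ base v G3 := by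
  rintro a ⟨h2, h3⟩
  constructor
  · intro j hj
    refine sc_avoid v (G2 j) hj a _ (fun i => ?_) (h2 j)
    rw [ext_restrict]
  · intro j hj
    refine sc_avoid v (G3 j) hj a _ (fun i => ?_) (h3 j)
    rw [ext_restrict]

theorem rec_h1 {n M2 M3 : ℕ} (v : Fin (n + 1)) (b : Bool) (G2 : Fin M2 → Cl (n + 1) 2)
    (G3 : Fin M3 → Cl (n + 1) 3) (hbad : ¬ ∃ j, badc v b (G2 j)) :
    ∀ a ∈ base v G2 ∩ base v G3 ∩ us (un v b G2) ∩ tch v b G3, ext v b a ∈ Sol G2 ∩ Sol G3 := by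
  classical
  rintro a ⟨⟨⟨h2, h3⟩, hu⟩, ht⟩
  constructor
  · intro j
    by_cases hj : inv v (G2 j)
    · -- the clause contains `v`
      by_cases hb0 : G2 j 0 = (v, b)
      · refine ⟨0, ?_⟩
        rw [hb0]
        exact ext_self v b a
      by_cases hb1 : G2 j 1 = (v, b)
      · refine ⟨1, ?_⟩
        rw [hb1]
        exact ext_self v b a
      have hpos : ∀ p, (G2 j p).1 = v → G2 j p ≠ (v, b) → G2 j p = (v, !b) := by
        intro p hp hne
        refine Prod.ext hp ?_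
        show (G2 j p).2 = !b
        have : (G2 j p).2 ≠ b := fun h => hne (Prod.ext hp h)
        cases hb : b <;> cases hc : (G2 j p).2 <;> simp_all
      by_cases hv0 : (G2 j 0).1 = v
      · have e0 := hpos 0 hv0 hb0
        by_cases hv1 : (G2 j 1).1 = v
        · exact absurd ⟨j, e0, hpos 1 hv1 hb1⟩ hbad
        · obtain ⟨i, hi⟩ := Fin.exists_succAbove_eq hv1
          refine ⟨1, ?_⟩
          have hy : ((i, (G2 j 1).2) : Lit n) ∈ un v b G2 := by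
            unfold un
            exact mem_filter.2 ⟨mem_univ _, j, Or.inl ⟨e0, Prod.ext hi.symm rfl⟩⟩
          have := hu _ hy
          rw [← hi, ext_apply]
          exact this
      · have hv1 : (G2 j 1).1 = v := by
          obtain ⟨p, hp⟩ := hj
          fin_cases p
          · exact absurd hp hv0
          · exact hp
        have e1 := hpos 1 hv1 hb1
        obtain ⟨i, hi⟩ := Fin.exists_succAbove_eq hv0
        refine ⟨0, ?_⟩
        have hy : ((i, (G2 j 0).2) : Lit n) ∈ un v b G2 := by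
          unfold un
          exact mem_filter.2 ⟨mem_univ _, j, Or.inr ⟨e1, Prod.ext hi.symm rfl⟩⟩
        have := hu _ hy
        rw [← hi, ext_apply]
        exact this
    · exact sc_avoid v (G2 j) hj (ext v true a) _ (fun i => by rw [ext_apply, ext_apply]) (h2 j hj)
  · intro j
    by_cases hj : inv v (G3 j)
    · exact ht j hj
    · exact sc_avoid v (G3 j) hj (ext v true a) _ (fun i => by rw [ext_apply, ext_apply]) (h3 j hj)

theorem sqrt_facts (s : ℕ) (hs : 1 ≤ s) : LL s ≤ 3 * Real.sqrt s ∧ KK 1 s (Nat.sqrt s + 1) ≤ 9 * Real.sqrt s ∧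
    1 ≤ Real.sqrt s := by
  have hs' : (1 : ℝ) ≤ s := by exact_mod_cast hs
  have h1 : 1 ≤ Real.sqrt s := by rw [Real.one_le_sqrt]; exact hs'
  have h2 : (Nat.sqrt s : ℝ) ≤ Real.sqrt s := Real.nat_sqrt_le_real_sqrt
  have h3 : Real.sqrt s ≤ (Nat.sqrt s : ℝ) + 1 := by
    exact_mod_cast (Real.real_sqrt_le_nat_sqrt_succ (a := s))
  have hT : (0 : ℝ) < ((Nat.sqrt s + 1 : ℕ) : ℝ) := by positivity
  have h4 : (s : ℝ) / ((Nat.sqrt s + 1 : ℕ) : ℝ) ≤ Real.sqrt s := by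
    rw [div_le_iff₀ hT]
    push_cast
    have h5 : Real.sqrt s * Real.sqrt s = s := Real.mul_self_sqrt (by positivity)
    nlinarith
  have hT2 : ((Nat.sqrt s + 1 : ℕ) : ℝ) ≤ 2 * Real.sqrt s := by
    push_cast; linarith
  refine ⟨?_, ?_, h1⟩
  · unfold LL; linarith
  · unfold KK
    rw [pow_one]
    norm_num
    norm_num at h4 hT2
    linarith

/-- the constant of the recursion -/
noncomputable def CC (θ Λ : ℝ) : ℝ := 86400000 / θ ^ 2 + 60 * Λ / θ + 1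

theorem rec_point {n M2 M3 s : ℕ} (hPJ : S_PJ) (lam θ : ℝ) (v : Fin (n + 1)) (b : Bool)
    (hn : 0 < n) (hθ : 0 < θ) (hθ1 : θ ≤ 1 / 2) (hs1 : 1 ≤ s) (hsn : s ≤ n) (hnθ : 8 / θ ≤ n)
    (hlam : 0 < lam) (hbig : 20 * Real.sqrt s ≤ θ * lam)
    (G2 : Fin M2 → Cl (n + 1) 2) (G3 : Fin M3 → Cl (n + 1) 3) :
    ind (lam ≤ DD s (Sol G2 ∩ Sol G3) (v, b)) ≤ ind (∃ j, badc v b (G2 j)) +
      (1 / (θ * ((1 - θ) * lam))) * (RA 2 s (base v G2 ∩ us (un v b G2) ∩ base v G3) -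
        RA 2 s (base v G2 ∩ us (un v b G2) ∩ base v G3 ∩ tch v b G3)) +
      ind (Bad s ((1 - θ) ^ 2 * lam) θ (base v G3 ∩ base v G2) (un v b G2)) +
      ind (∃ y ∈ un v b G2, (1 - θ) ^ 3 * lam ≤ DD s (base v G2 ∩ base v G3) y) := by
  have hn' : (0 : ℝ) < n := by exact_mod_cast hn
  have h1θ : 0 < 1 - θ := by linarith
  set A0 := base v G2 ∩ base v G3 with hA0
  set U := un v b G2 with hU
  have eAU : base v G2 ∩ us U ∩ base v G3 = A0 ∩ us U := by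
    rw [hA0]; ext a; simp only [Set.mem_inter_iff]; tauto
  have eA0 : base v G3 ∩ base v G2 = A0 := by rw [hA0, Set.inter_comm]
  rw [eAU, eA0]
  have hQ0 : 0 ≤ RA 2 s (A0 ∩ us U) - RA 2 s (A0 ∩ us U ∩ tch v b G3) :=
    sub_nonneg.2 (RA_mono 2 s Set.inter_subset_left)
  have hμ : 0 < θ * ((1 - θ) * lam) := by positivity
  have t1 := ind_nonneg (∃ j, badc v b (G2 j))
  have t2 : 0 ≤ (1 / (θ * ((1 - θ) * lam))) * (RA 2 s (A0 ∩ us U) -
    RA 2 s (A0 ∩ us U ∩ tch v b G3)) := mul_nonneg (by positivity) hQ0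
  have t3 := ind_nonneg (Bad s ((1 - θ) ^ 2 * lam) θ A0 U)
  have t4 := ind_nonneg (∃ y ∈ U, (1 - θ) ^ 3 * lam ≤ DD s A0 y)
  by_cases hl : lam ≤ DD s (Sol G2 ∩ Sol G3) (v, b)
  swap
  · rw [ind_false hl]; linarith
  by_cases hbad : ∃ j, badc v b (G2 j)
  · have := ind_le_one (lam ≤ DD s (Sol G2 ∩ Sol G3) (v, b))
    rw [ind_true hbad]; linarith
  rw [ind_true hl]
  -- projection
  obtain ⟨hLL, hKK, hsq1⟩ := sqrt_facts s hs1
  have hT1 : 1 ≤ Nat.sqrt s + 1 := by omega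
  have hT2 : Nat.sqrt s + 1 ≤ n + 1 := by
    have := Nat.sqrt_le_self s
    omega
  have hpj := hPJ n s (Nat.sqrt s + 1) v b (Sol G2 ∩ Sol G3) A0 (A0 ∩ us U ∩ tch v b G3) hn hT1 hT2
    (rec_h0 v G2 G3) (rec_h1 v b G2 G3 hbad)
  have he : (s : ℝ) * (1 / ((n : ℝ) + 1) * KK 1 s (Nat.sqrt s + 1)) ≤ 9 * Real.sqrt s := by
    have hsn' : (s : ℝ) ≤ n := by exact_mod_cast hsn
    have hs0 : (0 : ℝ) ≤ s := Nat.cast_nonneg s
    have hK0 : 0 ≤ KK 1 s (Nat.sqrt s + 1) := by unfold KK; positivity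
    calc (s : ℝ) * (1 / ((n : ℝ) + 1) * KK 1 s (Nat.sqrt s + 1)) =
          (s / ((n : ℝ) + 1)) * KK 1 s (Nat.sqrt s + 1) := by ring
      _ ≤ 1 * KK 1 s (Nat.sqrt s + 1) := by
          apply mul_le_mul_of_nonneg_right _ hK0
          rw [div_le_one (by positivity)]
          linarith
      _ ≤ 9 * Real.sqrt s := by linarith
  have hq : (((n : ℝ) + 1) / n) ^ 2 ≤ 1 + 3 / 8 * θ := by
    have h8 : 1 / (n : ℝ) ≤ θ / 8 := by
      rw [div_le_div_iff₀ hn' (by norm_num)]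
      rw [div_le_iff₀ hθ] at hnθ
      linarith
    have e : ((n : ℝ) + 1) / n = 1 + 1 / n := by field_simp
    rw [e]
    have h0 : 0 < 1 / (n : ℝ) := by positivity
    have h9 : 1 / (n : ℝ) ≤ 1 := by linarith
    nlinarith
  set Z := RA 2 s A0 - RA 2 s (A0 ∩ us U ∩ tch v b G3) with hZ
  have hZ0 : 0 ≤ Z := by
    rw [hZ]
    refine sub_nonneg.2 (RA_mono 2 s ?_)
    exact Set.inter_subset_left.trans Set.inter_subset_left
  have hZμ : (1 - θ) * lam ≤ Z := by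
    have h1 : lam ≤ (1 + 3 / 8 * θ) * Z + 9 * Real.sqrt s := by
      have := mul_le_mul_of_nonneg_right hq hZ0
      linarith
    have h2 : 9 * Real.sqrt s ≤ 9 / 20 * (θ * lam) := by linarith
    have h3 : (1 - 9 / 20 * θ) * lam ≤ (1 + 3 / 8 * θ) * Z := by linarith
    have h4 : (1 + 3 / 8 * θ) * ((1 - θ) * lam) ≤ (1 - 9 / 20 * θ) * lam := by
      have h5 : (1 + 3 / 8 * θ) * (1 - θ) ≤ 1 - 9 / 20 * θ := by nlinarith
      calc (1 + 3 / 8 * θ) * ((1 - θ) * lam) = ((1 + 3 / 8 * θ) * (1 - θ)) * lam := by ring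
        _ ≤ _ := mul_le_mul_of_nonneg_right h5 hlam.le
    have h6 : 0 < 1 + 3 / 8 * θ := by positivity
    exact le_of_mul_le_mul_left (h4.trans h3) h6
  by_cases hQ : θ * ((1 - θ) * lam) ≤ RA 2 s (A0 ∩ us U) - RA 2 s (A0 ∩ us U ∩ tch v b G3)
  · have : 1 ≤ (1 / (θ * ((1 - θ) * lam))) * (RA 2 s (A0 ∩ us U) -
        RA 2 s (A0 ∩ us U ∩ tch v b G3)) := by
      rw [one_div, inv_mul_eq_div, le_div_iff₀ hμ]
      linarith
    linarith
  · push Not at hQ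
    have hU' : (1 - θ) ^ 2 * lam ≤ RA 2 s A0 - RA 2 s (A0 ∩ us U) := by
      have : (1 - θ) ^ 2 * lam = (1 - θ) * lam - θ * ((1 - θ) * lam) := by ring
      rw [this]
      linarith
    by_cases hsg : ∃ y ∈ U, (1 - θ) ^ 3 * lam ≤ DD s A0 y
    · rw [ind_true hsg]; linarith
    · have hB : Bad s ((1 - θ) ^ 2 * lam) θ A0 U := by
        refine ⟨hU', fun l hl' => ?_⟩
        by_contra hcon
        push Not at hcon
        exact hsg ⟨l, hl', by unfold DD; calc (1 - θ) ^ 3 * lam = (1 - θ) * ((1 - θ) ^ 2 * lam) := by ring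
          _ ≤ _ := hcon⟩
      rw [ind_true hB]; linarith

theorem rec_lit {n M2 M3 s : ℕ} (hSG : S_SG) (hQE : S_QE) (hPJ : S_PJ) (hSI : S_SI)
    (lam θ Y Λ : ℝ) (v : Fin (n + 1)) (b : Bool)
    (hn : 0 < n) (hθ : 0 < θ) (hθ1 : θ ≤ 1 / 2) (hs1 : 1 ≤ s) (hsn : s ≤ n) (hnθ : 8 / θ ≤ n)
    (hM2 : (M2 : ℝ) ≤ n + 1) (hΛ : 0 ≤ Λ) (hM3 : (M3 : ℝ) ≤ Λ * (n + 1))
    (hlam : 0 < lam) (hlams : lam ≤ s) (hbig : 20 * Real.sqrt s ≤ θ * lam)
    (hY : ∀ m2 ≤ M2, ∀ m3 ≤ M3, XX n m2 m3 s ((1 - θ) ^ 3 * lam) ≤ Y) :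
    E (fun G2 : Fin M2 → Cl (n + 1) 2 => E (fun G3 : Fin M3 → Cl (n + 1) 3 =>
      ind (lam ≤ DD s (Sol G2 ∩ Sol G3) (v, b)))) ≤
      (M2 : ℝ) / ((n : ℝ) + 1) * Y + CC θ Λ * (s / lam ^ 2) := by
  have hn' : (0 : ℝ) < n := by exact_mod_cast hn
  have hn1 : (0 : ℝ) < (n : ℝ) + 1 := by linarith
  have h1θ : 0 < 1 - θ := by linarith
  have hs0 : (0 : ℝ) < s := by exact_mod_cast hs1
  have hs1' : (1 : ℝ) ≤ s := by exact_mod_cast hs1
  have hsn' : (s : ℝ) ≤ n := by exact_mod_cast hsn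
  obtain ⟨hLL, hKK, hsq1⟩ := sqrt_facts s hs1
  have hne2 : Nonempty (Cl (n + 1) 2) := ⟨fun _ => (0, true)⟩
  have hne3 : Nonempty (Cl (n + 1) 3) := ⟨fun _ => (0, true)⟩
  -- sum of the four parts
  have hpt := fun (G2 : Fin M2 → Cl (n + 1) 2) (G3 : Fin M3 → Cl (n + 1) 3) =>
    rec_point (M2 := M2) (M3 := M3) hPJ lam θ v b hn hθ hθ1 hs1 hsn hnθ hlam hbig G2 G3
  refine (E_mono fun G2 => E_mono fun G3 => hpt G2 G3).trans ?_
  have hsplit : E (fun G2 : Fin M2 → Cl (n + 1) 2 => E (fun G3 : Fin M3 → Cl (n + 1) 3 =>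
      ind (∃ j, badc v b (G2 j)) +
      (1 / (θ * ((1 - θ) * lam))) * (RA 2 s (base v G2 ∩ us (un v b G2) ∩ base v G3) -
        RA 2 s (base v G2 ∩ us (un v b G2) ∩ base v G3 ∩ tch v b G3)) +
      ind (Bad s ((1 - θ) ^ 2 * lam) θ (base v G3 ∩ base v G2) (un v b G2)) +
      ind (∃ y ∈ un v b G2, (1 - θ) ^ 3 * lam ≤ DD s (base v G2 ∩ base v G3) y))) =
      E (fun G2 : Fin M2 → Cl (n + 1) 2 => ind (∃ j, badc v b (G2 j))) +
      (1 / (θ * ((1 - θ) * lam))) * E (fun G2 : Fin M2 → Cl (n + 1) 2 =>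
        E (fun G3 : Fin M3 → Cl (n + 1) 3 => RA 2 s (base v G2 ∩ us (un v b G2) ∩ base v G3) -
        RA 2 s (base v G2 ∩ us (un v b G2) ∩ base v G3 ∩ tch v b G3))) +
      E (fun G2 : Fin M2 → Cl (n + 1) 2 => E (fun G3 : Fin M3 → Cl (n + 1) 3 =>
        ind (Bad s ((1 - θ) ^ 2 * lam) θ (base v G3 ∩ base v G2) (un v b G2)))) +
      E (fun G2 : Fin M2 → Cl (n + 1) 2 => E (fun G3 : Fin M3 → Cl (n + 1) 3 =>
        ind (∃ y ∈ un v b G2, (1 - θ) ^ 3 * lam ≤ DD s (base v G2 ∩ base v G3) y))) := by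
    rw [← E_mul_left, ← E_add, ← E_add, ← E_add]
    refine E_congr fun G2 => ?_
    rw [E_add, E_add, E_add, E_const, E_mul_left]
  rw [hsplit]
  -- part 1
  have hp1 : E (fun G2 : Fin M2 → Cl (n + 1) 2 => ind (∃ j, badc v b (G2 j))) ≤
      1 * (s / lam ^ 2) := by
    refine (bad_mean M2 v b).trans ?_
    have h1 : (M2 : ℝ) * (1 / (2 * ((n : ℝ) + 1))) ^ 2 ≤ 1 / ((n : ℝ) + 1) := by
      have e : (M2 : ℝ) * (1 / (2 * ((n : ℝ) + 1))) ^ 2 =
          (M2 / ((n : ℝ) + 1)) * (1 / 4 * (1 / ((n : ℝ) + 1))) := by field_simp; ring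
      rw [e]
      have h2 : (M2 : ℝ) / ((n : ℝ) + 1) ≤ 1 := by rw [div_le_one hn1]; exact hM2
      have h3 : 0 ≤ 1 / ((n : ℝ) + 1) := by positivity
      have h4 : 0 ≤ (M2 : ℝ) / ((n : ℝ) + 1) := by positivity
      nlinarith
    have h2 : 1 / ((n : ℝ) + 1) ≤ s / lam ^ 2 := by
      rw [div_le_div_iff₀ hn1 (by positivity)]
      nlinarith
    linarith
  -- part 2
  have hp2 : (1 / (θ * ((1 - θ) * lam))) * E (fun G2 : Fin M2 → Cl (n + 1) 2 =>
        E (fun G3 : Fin M3 → Cl (n + 1) 3 => RA 2 s (base v G2 ∩ us (un v b G2) ∩ base v G3) -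
        RA 2 s (base v G2 ∩ us (un v b G2) ∩ base v G3 ∩ tch v b G3))) ≤
      60 * Λ / θ * (s / lam ^ 2) := by
    have h1 : E (fun G2 : Fin M2 → Cl (n + 1) 2 =>
        E (fun G3 : Fin M3 → Cl (n + 1) 3 => RA 2 s (base v G2 ∩ us (un v b G2) ∩ base v G3) -
        RA 2 s (base v G2 ∩ us (un v b G2) ∩ base v G3 ∩ tch v b G3))) ≤ 30 * Λ := by
      refine E_le_of_nonneg (by positivity) fun G2 => ?_
      refine (hQE n s M3 v b (base v G2 ∩ us (un v b G2)) hn hsn).trans ?_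
      rw [div_le_iff₀ hn1]
      linarith
    have hμ : 0 < θ * ((1 - θ) * lam) := by positivity
    have h2 : 1 / (θ * ((1 - θ) * lam)) ≤ 2 / (θ * lam) := by
      rw [div_le_div_iff₀ hμ (by positivity)]
      have : 0 < θ * lam := by positivity
      nlinarith
    calc (1 / (θ * ((1 - θ) * lam))) * _ ≤ (1 / (θ * ((1 - θ) * lam))) * (30 * Λ) :=
          mul_le_mul_of_nonneg_left h1 (by positivity)
      _ ≤ (2 / (θ * lam)) * (30 * Λ) := mul_le_mul_of_nonneg_right h2 (by positivity)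
      _ = 60 * Λ / θ * (1 / lam) := by field_simp; ring
      _ ≤ 60 * Λ / θ * (s / lam ^ 2) := by
          apply mul_le_mul_of_nonneg_left _ (by positivity)
          rw [div_le_div_iff₀ hlam (by positivity)]
          nlinarith
  -- part 3
  have hp3 : E (fun G2 : Fin M2 → Cl (n + 1) 2 => E (fun G3 : Fin M3 → Cl (n + 1) 3 =>
        ind (Bad s ((1 - θ) ^ 2 * lam) θ (base v G3 ∩ base v G2) (un v b G2)))) ≤
      86400000 / θ ^ 2 * (s / lam ^ 2) := by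
    rw [E_comm]
    refine E_le_of_nonneg (by positivity) fun G3 => ?_
    have h1 := hSG n s M2 0 ((1 - θ) ^ 2 * lam) θ v b (base v G3) hn (by positivity) hθ
      (by linarith)
    have h2 : ∀ y : Fin 0 → Lit n, E (fun G : Fin M2 → Cl (n + 1) 2 =>
      ind (Bad s ((1 - θ) ^ 2 * lam) θ (base v G3 ∩ base v G) (univ.image y ∪ un v b G))) =
      E (fun G : Fin M2 → Cl (n + 1) 2 =>
      ind (Bad s ((1 - θ) ^ 2 * lam) θ (base v G3 ∩ base v G) (un v b G))) := by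
      intro y
      refine E_congr fun G => ?_
      have : univ.image y = ∅ := by simp
      rw [this, Finset.empty_union]
    rw [E_congr h2, E_const] at h1
    refine h1.trans ?_
    have h3 : (1 + 8 / ((n : ℝ) + 1)) ^ M2 ≤ 3000 := by
      have h4 : 1 + 8 / ((n : ℝ) + 1) ≤ Real.exp (8 / ((n : ℝ) + 1)) := by
        have := Real.add_one_le_exp (8 / ((n : ℝ) + 1)); linarith
      calc (1 + 8 / ((n : ℝ) + 1)) ^ M2 ≤ Real.exp (8 / ((n : ℝ) + 1)) ^ M2 :=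
            pow_le_pow_left₀ (by positivity) h4 _
        _ = Real.exp (M2 * (8 / ((n : ℝ) + 1))) := by rw [← Real.exp_nat_mul]
        _ ≤ Real.exp 8 := by
            apply Real.exp_le_exp.2
            rw [mul_div_assoc', div_le_iff₀ hn1]
            linarith
        _ = Real.exp 1 ^ 8 := by rw [← Real.exp_nat_mul]; norm_num
        _ ≤ (2.7182818286 : ℝ) ^ 8 := pow_le_pow_left₀ (Real.exp_pos _).le Real.exp_one_lt_d9.le _
        _ ≤ 3000 := by norm_num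
    have h5 : (LL s / (θ * ((1 - θ) ^ 2 * lam))) ^ 2 ≤ 144 / θ ^ 2 * (s / lam ^ 2) := by
      have h6 : 0 ≤ LL s := by unfold LL; positivity
      have h7 : θ * lam / 4 ≤ θ * ((1 - θ) ^ 2 * lam) := by
        have : (1 : ℝ) / 4 ≤ (1 - θ) ^ 2 := by nlinarith
        have h8 : 0 < θ * lam := by positivity
        nlinarith
      have h8 : LL s / (θ * ((1 - θ) ^ 2 * lam)) ≤ 12 * Real.sqrt s / (θ * lam) := by
        rw [div_le_div_iff₀ (by positivity) (by positivity)]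
        have h9 : 0 < θ * lam := by positivity
        have h10 : 0 ≤ Real.sqrt s := Real.sqrt_nonneg _
        calc LL s * (θ * lam) ≤ (3 * Real.sqrt s) * (θ * lam) :=
              mul_le_mul_of_nonneg_right hLL h9.le
          _ = 12 * Real.sqrt s * (θ * lam / 4) := by ring
          _ ≤ 12 * Real.sqrt s * (θ * ((1 - θ) ^ 2 * lam)) :=
              mul_le_mul_of_nonneg_left h7 (by positivity)
      have h11 : 0 ≤ LL s / (θ * ((1 - θ) ^ 2 * lam)) := by positivity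
      refine (pow_le_pow_left₀ h11 h8 2).trans (le_of_eq ?_)
      rw [div_pow, mul_pow, mul_pow, Real.sq_sqrt hs0.le]
      field_simp
      norm_num
    have h6 : (0 : ℝ) ≤ (LL s / (θ * ((1 - θ) ^ 2 * lam))) ^ 2 := sq_nonneg _
    calc 200 * 8 ^ 0 * (1 + 8 / ((n : ℝ) + 1)) ^ M2 * (LL s / (θ * ((1 - θ) ^ 2 * lam))) ^ 2
        ≤ 200 * 8 ^ 0 * 3000 * (144 / θ ^ 2 * (s / lam ^ 2)) := by
          apply mul_le_mul _ h5 h6 (by norm_num)
          exact mul_le_mul_of_nonneg_left h3 (by norm_num)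
      _ = 86400000 / θ ^ 2 * (s / lam ^ 2) := by ring
  -- part 4
  have hp4 := hSI n M2 M3 s ((1 - θ) ^ 3 * lam) Y v b hn hY
  have hCC : CC θ Λ * (s / lam ^ 2) = 1 * (s / lam ^ 2) + 60 * Λ / θ * (s / lam ^ 2) +
      86400000 / θ ^ 2 * (s / lam ^ 2) := by unfold CC; ring
  rw [hCC]
  linarith

/-- **The recursion.** -/
theorem rec_step (hSG : S_SG) (hQE : S_QE) (hPJ : S_PJ) (hSI : S_SI) (n M2 M3 s : ℕ)
    (lam θ Y Λ : ℝ) (hn : 0 < n) (hθ : 0 < θ) (hθ1 : θ ≤ 1 / 2) (hs1 : 1 ≤ s) (hsn : s ≤ n)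
    (hnθ : 8 / θ ≤ n) (hM2 : (M2 : ℝ) ≤ n + 1) (hΛ : 0 ≤ Λ) (hM3 : (M3 : ℝ) ≤ Λ * (n + 1))
    (hlam : 0 < lam) (hlams : lam ≤ s) (hbig : 20 * Real.sqrt s ≤ θ * lam)
    (hY : ∀ m2 ≤ M2, ∀ m3 ≤ M3, XX n m2 m3 s ((1 - θ) ^ 3 * lam) ≤ Y) :
    XX (n + 1) M2 M3 s lam ≤ (M2 : ℝ) / ((n : ℝ) + 1) * Y + CC θ Λ * (s / lam ^ 2) := by
  have e : XX (n + 1) M2 M3 s lam = E (fun l : Lit (n + 1) => E (fun G2 : Fin M2 → Cl (n + 1) 2 =>
      E (fun G3 : Fin M3 → Cl (n + 1) 3 => ind (lam ≤ DD s (Sol G2 ∩ Sol G3) l)))) := by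
    unfold XX
    rw [E_comm (fun (l : Lit (n + 1)) (G2 : Fin M2 → Cl (n + 1) 2) =>
      E (fun G3 : Fin M3 → Cl (n + 1) 3 => ind (lam ≤ DD s (Sol G2 ∩ Sol G3) l)))]
    refine E_congr fun G2 => ?_
    rw [E_comm]
  rw [e]
  have : Nonempty (Lit (n + 1)) := ⟨(0, true)⟩
  refine E_le_const fun l => ?_
  obtain ⟨v, b⟩ := l
  exact rec_lit hSG hQE hPJ hSI lam θ Y Λ v b hn hθ hθ1 hs1 hsn hnθ hM2 hΛ hM3 hlam hlams hbig hY

end Pool.Agent.W840.TP
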