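import Pool.Agent.W840.TP.XB
import Pool.Agent.H999R2.KSat.ES

/-! # The sharpness inequality -/

set_option autoImplicit false

namespace Pool.Agent.W840.TP

open Finset Filter Pool.Agent.H999R2.KSat

/-- the effect of a clause -/
noncomputable def DC {n k : ℕ} (s : ℕ) (A : Set (Asg n)) (c : Cl n k) : ℝ :=
  RA 2 s A - RA 2 s (A ∩ {a | sc a c})

theorem DC_nonneg {n k : ℕ} (s : ℕ) (A : Set (Asg n)) (c : Cl n k) : 0 ≤ DC s A c :=
  sub_nonneg.2 (RA_mono 2 s Set.inter_subset_left)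

theorem DC_le_s {n k : ℕ} (s : ℕ) (A : Set (Asg n)) (c : Cl n k) : DC s A c ≤ s := by
  unfold DC
  have h1 := RA_le_s 2 s A
  have h2 := RA_nonneg 2 s (A ∩ {a | sc a c})
  linarith

theorem DC_le_DD {n k : ℕ} (s : ℕ) (A : Set (Asg n)) (c : Cl n k) (p : Fin k) :
    DC s A c ≤ DD s A (c p) := by
  unfold DC DD
  have : RA 2 s (A ∩ {a | a (c p).1 = (c p).2}) ≤ RA 2 s (A ∩ {a | sc a c}) := by
    refine RA_mono 2 s ?_
    rintro a ⟨h1, h2⟩
    exact ⟨h1, p, h2⟩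
  linarith

theorem markov_lit (hUB : S_UB) {n : ℕ} (s : ℕ) (lam : ℝ) (hn : 0 < n) (hlam : 0 < lam)
    (A : Set (Asg n)) : E (fun l : Lit n => ind (lam ≤ DD s A l)) ≤ LL s / lam := by
  rw [le_div_iff₀ hlam, mul_comm, ← E_mul_left]
  refine le_trans (E_mono fun l => ?_) (hUB n s A hn)
  by_cases h : lam ≤ DD s A l
  · rw [ind_true h]; linarith
  · rw [ind_false h, mul_zero]; exact DD_nonneg s A l

theorem dc_sq (hUB : S_UB) (hCB : S_CB) {n : ℕ} (s : ℕ) (lam : ℝ) (hn : 0 < n) (hlam : 0 < lam)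
    (A : Set (Asg n)) :
    E (fun c : Cl n 2 => DC s A c ^ 2) ≤
      lam + (s : ℝ) ^ 2 * (LL s / lam) * E (fun l : Lit n => ind (lam ≤ DD s A l)) := by
  have h1 : ∀ c : Cl n 2, DC s A c ^ 2 ≤
      lam * DC s A c + (s : ℝ) ^ 2 * ∏ p, ind (lam ≤ DD s A (c p)) := by
    intro c
    have h0 := DC_nonneg s A c
    have hs := DC_le_s s A c
    have hP : 0 ≤ ∏ p, ind (lam ≤ DD s A (c p)) := Finset.prod_nonneg fun _ _ => ind_nonneg _
    rcases lt_or_ge (DC s A c) lam with h | h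
    · have h2 : DC s A c ^ 2 ≤ lam * DC s A c := by
        rw [sq]; exact mul_le_mul_of_nonneg_right h.le h0
      have h3 : 0 ≤ (s : ℝ) ^ 2 * ∏ p, ind (lam ≤ DD s A (c p)) := by positivity
      linarith
    · have h2 : ∏ p, ind (lam ≤ DD s A (c p)) = 1 := by
        refine Finset.prod_eq_one fun p _ => ind_true ?_
        exact h.trans (DC_le_DD s A c p)
      rw [h2, mul_one]
      have h3 : DC s A c ^ 2 ≤ (s : ℝ) ^ 2 := pow_le_pow_left₀ h0 hs 2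
      have h4 : 0 ≤ lam * DC s A c := by positivity
      linarith
  refine (E_mono h1).trans ?_
  rw [E_add, E_mul_left, E_mul_left, E_pi (fun _ (l : Lit n) => ind (lam ≤ DD s A l))]
  simp only [Finset.prod_const, Finset.card_univ, Fintype.card_fin]
  have h2 : E (fun c : Cl n 2 => DC s A c) ≤ 1 := hCB n s A hn
  have h3 := markov_lit hUB s lam hn hlam A
  set x := E (fun l : Lit n => ind (lam ≤ DD s A l)) with hx
  have hx0 : 0 ≤ x := E_nonneg fun _ => ind_nonneg _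
  have h4 : x ^ 2 ≤ LL s / lam * x := by rw [sq]; exact mul_le_mul_of_nonneg_right h3 hx0
  have h5 : (s : ℝ) ^ 2 * x ^ 2 ≤ (s : ℝ) ^ 2 * (LL s / lam * x) :=
    mul_le_mul_of_nonneg_left h4 (by positivity)
  have h6 : lam * E (fun c : Cl n 2 => DC s A c) ≤ lam * 1 := mul_le_mul_of_nonneg_left h2 hlam.le
  linarith

/-- 3-clauses have a smaller effect than 2-clauses -/
theorem dc_three {n : ℕ} (s : ℕ) (hn : 0 < n) (A : Set (Asg n)) :
    E (fun c : Cl n 3 => DC s A c ^ 2) ≤ E (fun c : Cl n 2 => DC s A c ^ 2) := by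
  have hne : Nonempty (Lit n) := ⟨(⟨0, hn⟩, true)⟩
  rw [E_cons]
  refine E_le_const fun l => E_mono fun c => ?_
  refine pow_le_pow_left₀ (DC_nonneg s A _) ?_ 2
  unfold DC
  have : RA 2 s (A ∩ {a | sc a c}) ≤ RA 2 s (A ∩ {a | sc a (Fin.cons l c : Cl n 3)}) := by
    refine RA_mono 2 s ?_
    rintro a ⟨h1, p, hp⟩
    refine ⟨h1, p.succ, ?_⟩
    rw [Fin.cons_succ]; exact hp
  linarith

/-- mean square of the effect of a random 2-clause on a random formula -/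
noncomputable def SQ (n m2 m3 s : ℕ) : ℝ :=
  E (fun G2 : Fin m2 → Cl n 2 => E (fun G3 : Fin m3 → Cl n 3 =>
    E (fun c : Cl n 2 => DC s (Sol G2 ∩ Sol G3) c ^ 2)))

theorem SQ_nonneg (n m2 m3 s : ℕ) : 0 ≤ SQ n m2 m3 s :=
  E_nonneg fun _ => E_nonneg fun _ => E_nonneg fun _ => sq_nonneg _

theorem SQ_le (hUB : S_UB) (hCB : S_CB) (n m2 m3 s : ℕ) (lam : ℝ) (hn : 0 < n) (hlam : 0 < lam) :
    SQ n m2 m3 s ≤ lam + (s : ℝ) ^ 2 * (LL s / lam) * XX n m2 m3 s lam := by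
  have hne : Nonempty (Lit n) := ⟨(⟨0, hn⟩, true)⟩
  unfold SQ XX
  calc _ ≤ E (fun G2 : Fin m2 → Cl n 2 => E (fun G3 : Fin m3 → Cl n 3 =>
        lam + (s : ℝ) ^ 2 * (LL s / lam) * E (fun l : Lit n =>
          ind (lam ≤ DD s (Sol G2 ∩ Sol G3) l)))) :=
        E_mono fun G2 => E_mono fun G3 => dc_sq hUB hCB s lam hn hlam _
    _ = _ := by
        rw [← E_mul_left]
        have h : ∀ G2 : Fin m2 → Cl n 2, E (fun G3 : Fin m3 → Cl n 3 =>
            lam + (s : ℝ) ^ 2 * (LL s / lam) * E (fun l : Lit n =>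
              ind (lam ≤ DD s (Sol G2 ∩ Sol G3) l))) =
            lam + (s : ℝ) ^ 2 * (LL s / lam) * E (fun G3 : Fin m3 → Cl n 3 => E (fun l : Lit n =>
              ind (lam ≤ DD s (Sol G2 ∩ Sol G3) l))) := by
          intro G2
          rw [E_add, E_const, E_mul_left]
        rw [E_congr h, E_add, E_const]

theorem sol_insertNth {n k M : ℕ} (j : Fin (M + 1)) (x : Cl n k) (G : Fin M → Cl n k) :
    Sol (j.insertNth x G : Fin (M + 1) → Cl n k) = Sol G ∩ {a | sc a x} := by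
  ext a
  simp only [Sol, Set.mem_ofPred_eq, Set.mem_inter_iff]
  rw [Fin.forall_iff_succAbove j]
  simp only [Fin.insertNth_apply_same, Fin.insertNth_apply_succAbove]
  tauto

/-- Efron-Stein for one type of clauses and a fixed background -/
theorem es_one {n k : ℕ} (m : ℕ) (f : Set (Asg n) → ℝ) :
    E (fun F : Fin m → Cl n k => f (Sol F) ^ 2) - (E (fun F : Fin m → Cl n k => f (Sol F))) ^ 2 ≤
      (m : ℝ) * E (fun G : Fin (m - 1) → Cl n k => E (fun c : Cl n k =>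
        (f (Sol G) - f (Sol G ∩ {a | sc a c})) ^ 2)) := by
  rcases m with _ | M
  · have h : ∀ g : (Fin 0 → Cl n k) → ℝ, E g = g default := by
      intro g
      unfold E
      rw [Fintype.card_unique, Fintype.sum_unique]
      simp
    rw [h, h]
    simp
  · have h1 := efron_stein (M + 1) (fun F : Fin (M + 1) → Cl n k => f (Sol F))
      (fun j F => f (Sol (j.removeNth F))) (by
        intro j F y
        simp only [Fin.removeNth_update])
    refine h1.trans ?_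
    have h2 : ∀ j : Fin (M + 1), E (fun F : Fin (M + 1) → Cl n k =>
        (f (Sol F) - f (Sol (j.removeNth F))) ^ 2) =
        E (fun G : Fin M → Cl n k => E (fun c : Cl n k =>
          (f (Sol G) - f (Sol G ∩ {a | sc a c})) ^ 2)) := by
      intro j
      rw [E_insertNth j, E_comm]
      refine E_congr fun G => E_congr fun C => ?_
      rw [sol_insertNth, Fin.removeNth_insertNth]
      ring
    rw [Finset.sum_congr rfl (fun j _ => h2 j), Finset.sum_const, Finset.card_univ,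
      Fintype.card_fin, nsmul_eq_mul, Nat.add_sub_cancel]

theorem var_upper (n m2 m3 s : ℕ) (hn : 0 < n) :
    E (fun F2 : Fin m2 → Cl n 2 => E (fun F3 : Fin m3 → Cl n 3 => RA 2 s (Sol F2 ∩ Sol F3) ^ 2)) -
      (E (fun F2 : Fin m2 → Cl n 2 => E (fun F3 : Fin m3 → Cl n 3 =>
        RA 2 s (Sol F2 ∩ Sol F3)))) ^ 2 ≤
      (m2 : ℝ) * SQ n (m2 - 1) m3 s + (m3 : ℝ) * SQ n m2 (m3 - 1) s := by
  set g : Set (Asg n) → ℝ := fun B => E (fun F3 : Fin m3 → Cl n 3 => RA 2 s (B ∩ Sol F3)) with hg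
  -- the variance of the 3-clauses
  have h1 : ∀ F2 : Fin m2 → Cl n 2, E (fun F3 : Fin m3 → Cl n 3 => RA 2 s (Sol F2 ∩ Sol F3) ^ 2) ≤
      g (Sol F2) ^ 2 + (m3 : ℝ) * E (fun G : Fin (m3 - 1) → Cl n 3 =>
        E (fun c : Cl n 2 => DC s (Sol F2 ∩ Sol G) c ^ 2)) := by
    intro F2
    have h := es_one (n := n) (k := 3) m3 (fun B => RA 2 s (Sol F2 ∩ B))
    have h2 : E (fun G : Fin (m3 - 1) → Cl n 3 => E (fun c : Cl n 3 =>
        (RA 2 s (Sol F2 ∩ Sol G) - RA 2 s (Sol F2 ∩ (Sol G ∩ {a | sc a c}))) ^ 2)) ≤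
        E (fun G : Fin (m3 - 1) → Cl n 3 =>
        E (fun c : Cl n 2 => DC s (Sol F2 ∩ Sol G) c ^ 2)) := by
      refine E_mono fun G => ?_
      refine le_trans (le_of_eq ?_) (dc_three s hn (Sol F2 ∩ Sol G))
      refine E_congr fun c => ?_
      unfold DC
      rw [Set.inter_assoc]
    have h3 := mul_le_mul_of_nonneg_left h2 (Nat.cast_nonneg (α := ℝ) m3)
    have e : g (Sol F2) = E (fun F : Fin m3 → Cl n 3 => RA 2 s (Sol F2 ∩ Sol F)) := rfl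
    rw [e]
    linarith
  -- the variance of the mean over the 3-clauses
  have h2 : E (fun F2 : Fin m2 → Cl n 2 => g (Sol F2) ^ 2) -
      (E (fun F2 : Fin m2 → Cl n 2 => g (Sol F2))) ^ 2 ≤ (m2 : ℝ) * SQ n (m2 - 1) m3 s := by
    refine (es_one (n := n) (k := 2) m2 g).trans ?_
    refine mul_le_mul_of_nonneg_left ?_ (Nat.cast_nonneg _)
    unfold SQ
    refine E_mono fun G => ?_
    rw [E_comm]
    refine E_mono fun c => ?_
    have e : g (Sol G) - g (Sol G ∩ {a | sc a c}) =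
        E (fun F3 : Fin m3 → Cl n 3 => DC s (Sol G ∩ Sol F3) c) := by
      rw [hg]
      simp only
      rw [← E_sub]
      refine E_congr fun F3 => ?_
      unfold DC
      congr 2
      ext a
      simp only [Set.mem_inter_iff]
      tauto
    rw [e]
    exact sq_E_le _
  have h3 : E (fun F2 : Fin m2 → Cl n 2 => E (fun F3 : Fin m3 → Cl n 3 =>
      RA 2 s (Sol F2 ∩ Sol F3) ^ 2)) ≤ E (fun F2 : Fin m2 → Cl n 2 => g (Sol F2) ^ 2) +
      (m3 : ℝ) * SQ n m2 (m3 - 1) s := by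
    refine (E_mono h1).trans ?_
    rw [E_add, E_mul_left]
    exact le_rfl
  have e : E (fun F2 : Fin m2 → Cl n 2 => E (fun F3 : Fin m3 → Cl n 3 =>
        RA 2 s (Sol F2 ∩ Sol F3))) = E (fun F2 : Fin m2 → Cl n 2 => g (Sol F2)) := rfl
  rw [e]
  linarith

theorem pm_nonneg (n m2 m3 : ℕ) : 0 ≤ pm n m2 m3 := E_nonneg fun _ => E_nonneg fun _ => ind_nonneg _

theorem pm_le_one (n m2 m3 : ℕ) : pm n m2 m3 ≤ 1 :=
  E_le_of_nonneg zero_le_one fun _ => E_le_of_nonneg zero_le_one fun _ => ind_le_one _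

theorem E_RA_ge2 (n m2 m3 s : ℕ) :
    (s : ℝ) * pm n (m2 + s) m3 ≤ E (fun F2 : Fin m2 → Cl n 2 => E (fun F3 : Fin m3 → Cl n 3 =>
      RA 2 s (Sol F2 ∩ Sol F3))) := by
  have h1 : (s : ℝ) * pm n (m2 + s) m3 = E (fun F2 : Fin m2 → Cl n 2 =>
      E (fun F3 : Fin m3 → Cl n 3 => E (fun W : Fin s → Cl n 2 =>
        ∑ _u ∈ range s, ind ((Sol (Fin.append F2 W) ∩ Sol F3).Nonempty)))) := by
    unfold pm
    rw [E_append (X := Cl n 2) (fun F => E (fun F3 : Fin m3 → Cl n 3 =>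
      ind ((Sol F ∩ Sol F3).Nonempty))), ← E_mul_left]
    refine E_congr fun F => ?_
    rw [← E_mul_left, E_comm (fun (F3 : Fin m3 → Cl n 3) (W : Fin s → Cl n 2) => _)]
    refine E_congr fun W => ?_
    rw [← E_mul_left]
    refine E_congr fun F3 => ?_
    rw [Finset.sum_const, Finset.card_range, nsmul_eq_mul]
  rw [h1]
  refine E_mono fun F => E_mono fun F3 => ?_
  unfold RA
  refine E_mono fun W => Finset.sum_le_sum fun u _ => ind_mono ?_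
  rintro ⟨a, ha, ha3⟩
  refine ⟨a, ⟨fun j => ?_, ha3⟩, fun l _ => ?_⟩
  · have := ha (Fin.castAdd s j)
    rwa [Fin.append_left] at this
  · have := ha (Fin.natAdd m2 l)
    rwa [Fin.append_right] at this

theorem var_lower (n m2 m3 s : ℕ) (hn : 0 < n) :
    (1 - pm n m2 m3) * ((s : ℝ) * pm n (m2 + s) m3) ^ 2 ≤
    E (fun F2 : Fin m2 → Cl n 2 => E (fun F3 : Fin m3 → Cl n 3 => RA 2 s (Sol F2 ∩ Sol F3) ^ 2)) -
      (E (fun F2 : Fin m2 → Cl n 2 => E (fun F3 : Fin m3 → Cl n 3 =>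
        RA 2 s (Sol F2 ∩ Sol F3)))) ^ 2 := by
  have hne : Nonempty (Fin n) := ⟨⟨0, hn⟩⟩
  set μ := E (fun F2 : Fin m2 → Cl n 2 => E (fun F3 : Fin m3 → Cl n 3 =>
        RA 2 s (Sol F2 ∩ Sol F3))) with hμ
  have h0 : E (fun F2 : Fin m2 → Cl n 2 => E (fun F3 : Fin m3 → Cl n 3 =>
      (RA 2 s (Sol F2 ∩ Sol F3) - μ) ^ 2)) = E (fun F2 : Fin m2 → Cl n 2 =>
      E (fun F3 : Fin m3 → Cl n 3 => RA 2 s (Sol F2 ∩ Sol F3) ^ 2)) - μ ^ 2 := by
    have e : ∀ F2 : Fin m2 → Cl n 2, E (fun F3 : Fin m3 → Cl n 3 =>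
        (RA 2 s (Sol F2 ∩ Sol F3) - μ) ^ 2) =
        E (fun F3 : Fin m3 → Cl n 3 => RA 2 s (Sol F2 ∩ Sol F3) ^ 2) -
        2 * μ * E (fun F3 : Fin m3 → Cl n 3 => RA 2 s (Sol F2 ∩ Sol F3)) + μ ^ 2 := by
      intro F2
      have e2 : ∀ F3 : Fin m3 → Cl n 3, (RA 2 s (Sol F2 ∩ Sol F3) - μ) ^ 2 =
          (RA 2 s (Sol F2 ∩ Sol F3) ^ 2 - 2 * μ * RA 2 s (Sol F2 ∩ Sol F3)) + μ ^ 2 := by
        intro F3; ring
      rw [E_congr e2, E_add, E_const, E_sub, E_mul_left]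
    rw [E_congr e, E_add, E_const, E_sub, E_mul_left, ← hμ]
    ring
  have h1 : (s : ℝ) * pm n (m2 + s) m3 ≤ μ := E_RA_ge2 n m2 m3 s
  have h2 : 0 ≤ (s : ℝ) * pm n (m2 + s) m3 := mul_nonneg (by positivity) (pm_nonneg _ _ _)
  have h3 : ((s : ℝ) * pm n (m2 + s) m3) ^ 2 ≤ μ ^ 2 := pow_le_pow_left₀ h2 h1 2
  have h4 : 0 ≤ 1 - pm n m2 m3 := by linarith [pm_le_one n m2 m3]
  have h5 : (1 - pm n m2 m3) * μ ^ 2
      = E (fun F2 : Fin m2 → Cl n 2 => E (fun F3 : Fin m3 → Cl n 3 =>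
        ind (¬ (Sol F2 ∩ Sol F3).Nonempty) * μ ^ 2)) := by
    simp only [ind_not, E_mul_right]
    congr 1
    simp only [E_sub, E_const]
    rfl
  rw [← h0]
  calc _ ≤ (1 - pm n m2 m3) * μ ^ 2 := mul_le_mul_of_nonneg_left h3 h4
    _ = _ := h5
    _ ≤ _ := by
        refine E_mono fun F2 => E_mono fun F3 => ?_
        by_cases hF : (Sol F2 ∩ Sol F3).Nonempty
        · rw [ind_false (not_not.2 hF), zero_mul]
          exact sq_nonneg _
        · rw [ind_true hF, one_mul, Set.not_nonempty_iff_eq_empty.1 hF, RA_empty]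
          rw [zero_sub, neg_sq]

/-- **Sharpness.** -/
def S_SHARP : Prop := ∀ δ Λ : ℝ, 0 < δ → δ < 1 → 0 < Λ → ∃ C : ℝ, 0 < C ∧ ∃ n0 : ℕ,
    ∀ n m2 m3 s : ℕ, n0 ≤ n → 1 ≤ s → 2 * s ≤ n → (m2 : ℝ) ≤ (1 - δ) * n → (m3 : ℝ) ≤ Λ * n →
    (1 - pm n m2 m3) * pm n (m2 + s) m3 ^ 2 ≤ C * (n * (s : ℝ) ^ (-(9 / 8) : ℝ))

theorem sharp (hXB : S_XB) (hUB : S_UB) (hCB : S_CB) : S_SHARP := by
  intro δ Λ hδ hδ1 hΛ
  obtain ⟨K, hK, n0, hXX⟩ := hXB δ Λ hδ hδ1 hΛ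
  refine ⟨(1 + Λ) * (1 + 3 * K), by positivity, max n0 1, ?_⟩
  intro n m2 m3 s hn hs1 hsn hm2 hm3
  have hn0 : 0 < n := by omega
  have hnR : (0 : ℝ) < n := by exact_mod_cast hn0
  have hs0 : (0 : ℝ) < s := by exact_mod_cast hs1
  have hs1' : (1 : ℝ) ≤ s := by exact_mod_cast hs1
  obtain ⟨hLL, _, _⟩ := sqrt_facts s hs1
  set lam : ℝ := (s : ℝ) ^ (7 / 8 : ℝ) with hlamd
  have hlam : 0 < lam := Real.rpow_pos_of_pos hs0 _
  have hlams : lam ≤ s := by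
    calc lam ≤ (s : ℝ) ^ (1 : ℝ) := Real.rpow_le_rpow_of_exponent_le hs1' (by norm_num)
      _ = s := Real.rpow_one _
  -- the mean squares
  have key : ∀ M2 M3 : ℕ, (M2 : ℝ) ≤ (1 - δ) * n → (M3 : ℝ) ≤ Λ * n →
      SQ n M2 M3 s ≤ (1 + 3 * K) * lam := by
    intro M2 M3 h2 h3
    refine (SQ_le hUB hCB n M2 M3 s lam hn0 hlam).trans ?_
    have hx := hXX n M2 M3 s (by omega) hs1 hsn h2 h3 lam hlam hlams
    have h4 : (s : ℝ) ^ 2 * (LL s / lam) * XX n M2 M3 s lam ≤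
        (s : ℝ) ^ 2 * (3 * Real.sqrt s / lam) * (K * (s / lam ^ 2)) := by
      have h5 : LL s / lam ≤ 3 * Real.sqrt s / lam := div_le_div_of_nonneg_right hLL hlam.le
      have h6 : (s : ℝ) ^ 2 * (LL s / lam) ≤ (s : ℝ) ^ 2 * (3 * Real.sqrt s / lam) :=
        mul_le_mul_of_nonneg_left h5 (by positivity)
      exact mul_le_mul h6 hx (XX_nonneg _ _ _ _ _) (by positivity)
    have h7 : (s : ℝ) ^ 2 * (3 * Real.sqrt s / lam) * (K * (s / lam ^ 2)) = 3 * K * lam := by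
      have e1 : (s : ℝ) ^ 2 * Real.sqrt s * s = lam ^ 4 := by
        rw [hlamd, Real.sqrt_eq_rpow, ← Real.rpow_natCast, ← Real.rpow_natCast,
          ← Real.rpow_mul hs0.le, ← Real.rpow_add hs0]
        nth_rewrite 2 [← Real.rpow_one (s : ℝ)]
        rw [← Real.rpow_add hs0]
        norm_num
      have e2 : (s : ℝ) ^ 2 * (3 * Real.sqrt s / lam) * (K * (s / lam ^ 2)) =
          3 * K * ((s : ℝ) ^ 2 * Real.sqrt s * s) / lam ^ 3 := by
        field_simp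
      rw [e2, e1]
      field_simp
    rw [h7] at h4
    linarith
  have hm2' : ((m2 - 1 : ℕ) : ℝ) ≤ m2 := by exact_mod_cast Nat.sub_le m2 1
  have hm3' : ((m3 - 1 : ℕ) : ℝ) ≤ m3 := by exact_mod_cast Nat.sub_le m3 1
  have k2 := key (m2 - 1) m3 (hm2'.trans hm2) hm3
  have k3 := key m2 (m3 - 1) hm2 (hm3'.trans hm3)
  have hv := (var_lower n m2 m3 s hn0).trans (var_upper n m2 m3 s hn0)
  have hB0 : 0 ≤ (1 + 3 * K) * lam := by positivity
  have hm2n : (m2 : ℝ) ≤ n := by nlinarith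
  have h1 : (m2 : ℝ) * SQ n (m2 - 1) m3 s ≤ n * ((1 + 3 * K) * lam) :=
    mul_le_mul hm2n k2 (SQ_nonneg _ _ _ _) hnR.le
  have h2 : (m3 : ℝ) * SQ n m2 (m3 - 1) s ≤ (Λ * n) * ((1 + 3 * K) * lam) :=
    mul_le_mul hm3 k3 (SQ_nonneg _ _ _ _) (by positivity)
  have h3 : (s : ℝ) ^ 2 * ((1 - pm n m2 m3) * pm n (m2 + s) m3 ^ 2) ≤
      (1 + Λ) * (1 + 3 * K) * (n * lam) := by
    calc (s : ℝ) ^ 2 * ((1 - pm n m2 m3) * pm n (m2 + s) m3 ^ 2) =
        (1 - pm n m2 m3) * ((s : ℝ) * pm n (m2 + s) m3) ^ 2 := by ring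
      _ ≤ _ := hv
      _ ≤ n * ((1 + 3 * K) * lam) + (Λ * n) * ((1 + 3 * K) * lam) := add_le_add h1 h2
      _ = _ := by ring
  have h4 : lam = (s : ℝ) ^ 2 * (s : ℝ) ^ (-(9 / 8) : ℝ) := by
    rw [hlamd, ← Real.rpow_natCast (s : ℝ) 2, ← Real.rpow_add hs0]
    norm_num
  rw [h4] at h3
  have h5 : (1 + Λ) * (1 + 3 * K) * (n * ((s : ℝ) ^ 2 * (s : ℝ) ^ (-(9 / 8) : ℝ))) =
      (s : ℝ) ^ 2 * ((1 + Λ) * (1 + 3 * K) * (n * (s : ℝ) ^ (-(9 / 8) : ℝ))) := by ring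
  rw [h5] at h3
  exact le_of_mul_le_mul_left h3 (by positivity)

end Pool.Agent.W840.TP
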