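import Pool.Agent.W840.TP.Rec

/-! # Iterating the recursion: literals with a large effect are rare -/

set_option autoImplicit false

namespace Pool.Agent.W840.TP

open Finset Filter Pool.Agent.H999R2.KSat

theorem RA_le_s {n : ℕ} (k s : ℕ) (A : Set (Asg n)) : RA k s A ≤ s := by
  unfold RA
  refine E_le_of_nonneg (Nat.cast_nonneg s) fun W => ?_
  calc _ ≤ ∑ u ∈ range s, (1 : ℝ) := Finset.sum_le_sum fun u _ => ind_le_one _
    _ = s := by simp

theorem DD_nonneg {n : ℕ} (s : ℕ) (A : Set (Asg n)) (l : Lit n) : 0 ≤ DD s A l :=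
  sub_nonneg.2 (RA_mono 2 s Set.inter_subset_left)

theorem DD_le_s {n : ℕ} (s : ℕ) (A : Set (Asg n)) (l : Lit n) : DD s A l ≤ s := by
  unfold DD
  have h1 := RA_le_s 2 s A
  have h2 := RA_nonneg 2 s (A ∩ {a | a l.1 = l.2})
  linarith

theorem XX_le_one (n m2 m3 s : ℕ) (lam : ℝ) : XX n m2 m3 s lam ≤ 1 := by
  unfold XX
  exact E_le_of_nonneg zero_le_one fun _ => E_le_of_nonneg zero_le_one fun _ =>
    E_le_of_nonneg zero_le_one fun _ => ind_le_one _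

theorem XX_nonneg (n m2 m3 s : ℕ) (lam : ℝ) : 0 ≤ XX n m2 m3 s lam := by
  unfold XX
  exact E_nonneg fun _ => E_nonneg fun _ => E_nonneg fun _ => ind_nonneg _

theorem XX_large (n m2 m3 s : ℕ) (lam : ℝ) (h : (s : ℝ) < lam) : XX n m2 m3 s lam = 0 := by
  unfold XX
  have h1 : ∀ (F2 : Fin m2 → Cl n 2), E (fun F3 : Fin m3 → Cl n 3 => E (fun l : Lit n =>
    ind (lam ≤ DD s (Sol F2 ∩ Sol F3) l))) = 0 := by
    intro F2
    have h2 : ∀ F3 : Fin m3 → Cl n 3, E (fun l : Lit n =>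
        ind (lam ≤ DD s (Sol F2 ∩ Sol F3) l)) = 0 := by
      intro F3
      rw [E_congr (g := fun _ => (0 : ℝ)), E_zero]
      intro l
      refine ind_false fun hh => ?_
      have := DD_le_s s (Sol F2 ∩ Sol F3) l
      linarith
    rw [E_congr h2, E_zero]
  rw [E_congr h1, E_zero]

theorem iter (hSG : S_SG) (hQE : S_QE) (hPJ : S_PJ) (hSI : S_SI) (N1 M2 M3 s : ℕ)
    (θ a Λ K : ℝ) (hN : 0 < N1) (hθ : 0 < θ) (hθ1 : θ ≤ 1 / 2) (hs1 : 1 ≤ s) (hsn : s ≤ N1)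
    (hnθ : 8 / θ ≤ N1) (ha0 : 0 ≤ a) (ha1 : a ≤ 1) (hM2 : (M2 : ℝ) ≤ a * (N1 + 1)) (hΛ : 0 ≤ Λ)
    (hM3 : (M3 : ℝ) ≤ Λ * (N1 + 1)) (hK0 : 0 ≤ K)
    (hK1 : CC θ Λ + a * K / (1 - θ) ^ 6 ≤ K) (hK2 : 400 / θ ^ 2 ≤ K) (k : ℕ) :
    ∀ m2 ≤ M2, ∀ m3 ≤ M3, ∀ lam : ℝ, 0 < lam →
      XX (N1 + k) m2 m3 s lam ≤ K * (s / lam ^ 2) + a ^ k := by
  have hs0 : (0 : ℝ) < s := by exact_mod_cast hs1
  have h1θ : 0 < 1 - θ := by linarith
  induction k with
  | zero =>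
    intro m2 _ m3 _ lam hlam
    have h1 := XX_le_one (N1 + 0) m2 m3 s lam
    have h2 : 0 ≤ K * (s / lam ^ 2) := by positivity
    rw [pow_zero]
    linarith
  | succ k ih =>
    intro m2 hm2 m3 hm3 lam hlam
    have hnn : 0 ≤ K * (s / lam ^ 2) := by positivity
    have hak : 0 ≤ a ^ (k + 1) := by positivity
    rcases lt_or_ge (s : ℝ) lam with hl | hl
    · rw [XX_large _ _ _ _ _ hl]; linarith
    rcases lt_or_ge (θ * lam) (20 * Real.sqrt s) with hb | hb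
    · -- trivial bound
      have h1 := XX_le_one (N1 + (k + 1)) m2 m3 s lam
      have h2 : (θ * lam) ^ 2 ≤ (20 * Real.sqrt s) ^ 2 :=
        pow_le_pow_left₀ (by positivity) hb.le 2
      rw [mul_pow, mul_pow, Real.sq_sqrt hs0.le] at h2
      have h3 : 1 ≤ 400 / θ ^ 2 * (s / lam ^ 2) := by
        rw [div_mul_div_comm, le_div_iff₀ (by positivity)]
        linarith
      have h4 : 400 / θ ^ 2 * (s / lam ^ 2) ≤ K * (s / lam ^ 2) :=
        mul_le_mul_of_nonneg_right hK2 (by positivity)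
      linarith
    · have hN1' : (0 : ℝ) < N1 := by exact_mod_cast hN
      have hk0 : (0 : ℝ) ≤ k := Nat.cast_nonneg k
      have hm2' : (m2 : ℝ) ≤ M2 := by exact_mod_cast hm2
      have hm3' : (m3 : ℝ) ≤ M3 := by exact_mod_cast hm3
      have hcast : ((N1 + k : ℕ) : ℝ) = N1 + k := by push_cast; ring
      have hm2a : (m2 : ℝ) ≤ a * (((N1 + k : ℕ) : ℝ) + 1) := by
        rw [hcast]
        have : a * (N1 + 1) ≤ a * ((N1 + k : ℝ) + 1) :=
          mul_le_mul_of_nonneg_left (by linarith) ha0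
        linarith
      have h := rec_step hSG hQE hPJ hSI (N1 + k) m2 m3 s lam θ
        (K * (s / ((1 - θ) ^ 3 * lam) ^ 2) + a ^ k) Λ (by omega) hθ hθ1 hs1 (by omega)
        (by rw [hcast]; linarith)
        (by
          refine hm2a.trans ?_
          have : (0 : ℝ) ≤ ((N1 + k : ℕ) : ℝ) + 1 := by positivity
          nlinarith) hΛ
        (by
          rw [hcast]
          have : Λ * (N1 + 1) ≤ Λ * ((N1 + k : ℝ) + 1) :=
            mul_le_mul_of_nonneg_left (by linarith) hΛ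
          linarith)
        hlam hl hb
        (fun m2' h2 m3' h3 => ih m2' (h2.trans hm2) m3' (h3.trans hm3) _ (by positivity))
      have hY0 : 0 ≤ K * (s / ((1 - θ) ^ 3 * lam) ^ 2) + a ^ k := by positivity
      have hfrac : (m2 : ℝ) / (((N1 + k : ℕ) : ℝ) + 1) ≤ a := by
        rw [div_le_iff₀ (by positivity)]
        exact hm2a
      have h1 := mul_le_mul_of_nonneg_right hfrac hY0
      have e1 : a * (K * (s / ((1 - θ) ^ 3 * lam) ^ 2) + a ^ k) =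
          (a * K / (1 - θ) ^ 6) * (s / lam ^ 2) + a ^ (k + 1) := by
        rw [pow_succ]
        field_simp
        ring
      rw [e1] at h1
      have h2 : (CC θ Λ + a * K / (1 - θ) ^ 6) * (s / lam ^ 2) ≤ K * (s / lam ^ 2) :=
        mul_le_mul_of_nonneg_right hK1 (by positivity)
      have e2 : N1 + (k + 1) = N1 + k + 1 := by ring
      rw [e2]
      linarith

/-- few literals have a large effect, if the 2-clauses are subcritical -/
def S_XB : Prop := ∀ δ Λ : ℝ, 0 < δ → δ < 1 → 0 < Λ → ∃ K : ℝ, 0 < K ∧ ∃ n0 : ℕ,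
    ∀ n m2 m3 s : ℕ, n0 ≤ n → 1 ≤ s → 2 * s ≤ n → (m2 : ℝ) ≤ (1 - δ) * n → (m3 : ℝ) ≤ Λ * n →
    ∀ lam : ℝ, 0 < lam → lam ≤ s → XX n m2 m3 s lam ≤ K * (s / lam ^ 2)

theorem exp_bound (δ : ℝ) (n : ℝ) (k : ℕ) (hδ : 0 < δ) (hδ1 : δ < 1) (hn0 : 0 < n)
    (hk2 : δ * n / 2 < k + 1) : (1 - δ / 2) ^ k ≤ 4 / δ ^ 2 * (1 / n) := by
  have ha : 0 ≤ 1 - δ / 2 := by linarith
  have hb := one_add_mul_le_pow (show (-2 : ℝ) ≤ δ / 2 by linarith) k
  have h1 : (1 - δ / 2) * (1 + δ / 2) ≤ 1 := by nlinarith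
  have h0 : 0 ≤ (1 - δ / 2) * (1 + δ / 2) := mul_nonneg ha (by linarith)
  have h2 : (1 - δ / 2) ^ k * (1 + δ / 2) ^ k ≤ 1 := by
    rw [← mul_pow]
    exact pow_le_one₀ h0 h1
  have hkk : (δ * n / 2) * (δ / 2) ≤ (k + 1) * (δ / 2) :=
    mul_le_mul_of_nonneg_right hk2.le (by linarith)
  have h3 : δ ^ 2 * n / 4 ≤ 1 + k * (δ / 2) := by
    have e : (δ * n / 2) * (δ / 2) = δ ^ 2 * n / 4 := by ring
    rw [e] at hkk
    linarith
  have hakn : 0 ≤ (1 - δ / 2) ^ k := pow_nonneg ha k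
  have h4 : (1 - δ / 2) ^ k * (δ ^ 2 * n / 4) ≤ 1 :=
    calc (1 - δ / 2) ^ k * (δ ^ 2 * n / 4) ≤ (1 - δ / 2) ^ k * (1 + δ / 2) ^ k :=
          mul_le_mul_of_nonneg_left (h3.trans hb) hakn
      _ ≤ 1 := h2
  rw [div_mul_div_comm, mul_one, le_div_iff₀ (by positivity)]
  linarith

theorem xb (hSG : S_SG) (hQE : S_QE) (hPJ : S_PJ) (hSI : S_SI) : S_XB := by
  intro δ Λ hδ hδ1 hΛ
  set θ : ℝ := δ / 24 with hθd
  have hθ : 0 < θ := by positivity
  have hθ1 : θ ≤ 1 / 2 := by rw [hθd]; linarith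
  have h1θ : 0 < 1 - θ := by linarith
  set a : ℝ := 1 - δ / 2 with had
  have ha0 : 0 < a := by rw [had]; linarith
  have ha1 : a ≤ 1 := by rw [had]; linarith
  have hpow : 1 - δ / 4 ≤ (1 - θ) ^ 6 := by
    have h := one_add_mul_le_pow (show (-2 : ℝ) ≤ -θ by linarith) 6
    have e : (1 + -θ : ℝ) = 1 - θ := by ring
    rw [e] at h
    refine le_trans (le_of_eq ?_) h
    rw [hθd]; push_cast; ring
  have hp6 : 0 < (1 - θ) ^ 6 := by positivity
  have hCC : 0 < CC θ (2 * Λ) := by unfold CC; positivity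
  -- the ratio
  have hrat : a / (1 - θ) ^ 6 ≤ 1 - δ / 4 := by
    rw [div_le_iff₀ hp6]
    have : (1 - δ / 4) * (1 - δ / 4) ≤ (1 - δ / 4) * (1 - θ) ^ 6 :=
      mul_le_mul_of_nonneg_left hpow (by linarith)
    rw [had]
    nlinarith
  set K : ℝ := 4 / δ * CC θ (2 * Λ) + 400 / θ ^ 2 with hK
  have hK0 : 0 < K := by positivity
  have hK1 : CC θ (2 * Λ) + a * K / (1 - θ) ^ 6 ≤ K := by
    have h1 : a * K / (1 - θ) ^ 6 = a / (1 - θ) ^ 6 * K := by ring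
    rw [h1]
    have h2 : a / (1 - θ) ^ 6 * K ≤ (1 - δ / 4) * K := mul_le_mul_of_nonneg_right hrat hK0.le
    have h3 : CC θ (2 * Λ) ≤ δ / 4 * K := by
      rw [hK]
      have : δ / 4 * (4 / δ * CC θ (2 * Λ) + 400 / θ ^ 2) =
          CC θ (2 * Λ) + δ / 4 * (400 / θ ^ 2) := by field_simp
      rw [this]
      have : 0 < δ / 4 * (400 / θ ^ 2) := by positivity
      linarith
    linarith
  have hK2 : 400 / θ ^ 2 ≤ K := by
    rw [hK]
    have : 0 < 4 / δ * CC θ (2 * Λ) := by positivity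
    linarith
  refine ⟨K + 4 / δ ^ 2, by positivity, ⌈16 / θ⌉₊ + 2, ?_⟩
  intro n m2 m3 s hn hs1 hsn hm2 hm3 lam hlam hlams
  have hn0 : (0 : ℝ) < n := by
    have : 0 < n := by omega
    exact_mod_cast this
  have hs0 : (0 : ℝ) < s := by exact_mod_cast hs1
  have hs1' : (1 : ℝ) ≤ s := by exact_mod_cast hs1
  set k : ℕ := ⌊δ * n / 2⌋₊ with hk
  have hk1 : (k : ℝ) ≤ δ * n / 2 := Nat.floor_le (by positivity)
  have hk2 : δ * n / 2 < k + 1 := Nat.lt_floor_add_one _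
  have hk3 : (k : ℝ) ≤ n / 2 := by nlinarith
  have hkn : 2 * k ≤ n := by
    have : (2 : ℝ) * k ≤ n := by linarith
    exact_mod_cast this
  obtain ⟨N1, hN1⟩ : ∃ N1, n = N1 + k := ⟨n - k, by omega⟩
  have hcast : (n : ℝ) = N1 + k := by rw [hN1]; push_cast; ring
  have hN1a : (1 - δ / 2) * n ≤ N1 := by linarith
  have hN1b : (n : ℝ) / 2 ≤ N1 := by linarith
  have hceil : 16 / θ ≤ n := by
    have h1 : 16 / θ ≤ (⌈16 / θ⌉₊ : ℝ) := Nat.le_ceil _
    have h2 : (⌈16 / θ⌉₊ : ℝ) ≤ n := by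
      have : ⌈16 / θ⌉₊ ≤ n := by omega
      exact_mod_cast this
    linarith
  have h8 : 8 / θ ≤ N1 := by
    have : 8 / θ = (16 / θ) / 2 := by ring
    rw [this]; linarith
  have hm2a : (m2 : ℝ) ≤ a * (N1 + 1) := by
    have h1 : (1 - δ) * n ≤ a * ((1 - δ / 2) * n) := by
      rw [had]
      have : (1 - δ) * n ≤ ((1 - δ / 2) * (1 - δ / 2)) * n := by
        apply mul_le_mul_of_nonneg_right _ hn0.le
        nlinarith
      linarith
    have h2 : a * ((1 - δ / 2) * n) ≤ a * N1 := mul_le_mul_of_nonneg_left hN1a ha0.le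
    linarith
  have hm3a : (m3 : ℝ) ≤ 2 * Λ * (N1 + 1) := by
    have h1 : Λ * n ≤ Λ * (2 * N1) := mul_le_mul_of_nonneg_left (by linarith) hΛ.le
    linarith
  have h := iter hSG hQE hPJ hSI N1 m2 m3 s θ a (2 * Λ) K (by omega) hθ hθ1 hs1 (by omega) h8
    ha0.le ha1 hm2a (by positivity) hm3a hK0.le hK1 hK2 k m2 le_rfl m3 le_rfl lam hlam
  rw [← hN1] at h
  -- the exponential term
  have hak : a ^ k ≤ 4 / δ ^ 2 * (1 / n) := exp_bound δ n k hδ hδ1 hn0 hk2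
  have h1n : 1 / (n : ℝ) ≤ s / lam ^ 2 := by
    have hsn' : (s : ℝ) ≤ n := by
      have : s ≤ n := by omega
      exact_mod_cast this
    rw [div_le_div_iff₀ hn0 (by positivity)]
    nlinarith
  have h5 : 4 / δ ^ 2 * (1 / n) ≤ 4 / δ ^ 2 * (s / lam ^ 2) :=
    mul_le_mul_of_nonneg_left h1n (by positivity)
  calc XX n m2 m3 s lam ≤ K * (s / lam ^ 2) + a ^ k := h
    _ ≤ K * (s / lam ^ 2) + 4 / δ ^ 2 * (s / lam ^ 2) := by linarith
    _ = (K + 4 / δ ^ 2) * (s / lam ^ 2) := by ring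

end Pool.Agent.W840.TP
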